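import Mathlib

/-!
# Primality and compositeness of near-repdigit numbers

10 ^ 143 - 11 is prime (Morrison's N+1 test), and 10 ^ 143 - 1 - 10 ^ j is composite for
j = 2, ..., 142. Everything is checked by the kernel.
-/

namespace Pool.Agent.H91.Rho


/-! ### Modular exponentiation -/

/-- modular exponentiation with fuel -/
def pm (n : ℕ) : ℕ → ℕ → ℕ → ℕ
  | 0, _, _ => 1 % n
  | f+1, a, e =>
      if e = 0 then 1 % n
      else if e % 2 = 1 then (pm n f (a*a % n) (e/2)) * a % n
      else pm n f (a*a % n) (e/2)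

theorem pm_eq (n : ℕ) : ∀ f a e, e < 2^f → pm n f a e = a^e % n := by
  intro f
  induction f with
  | zero => intro a e he; simp at he; subst he; simp [pm]
  | succ f ih =>
    intro a e he
    have h2 : e / 2 < 2^f := by omega
    rw [pm]
    split_ifs with h0 h1
    · subst h0; simp
    · rw [ih _ _ h2]
      conv_rhs => rw [← Nat.div_add_mod e 2, h1, pow_add, pow_mul, pow_one, pow_two]
      simp [Nat.mul_mod, Nat.pow_mod]
    · rw [ih _ _ h2]
      have h3 : e % 2 = 0 := by omega
      conv_rhs => rw [← Nat.div_add_mod e 2, h3, pow_add, pow_mul, pow_zero, pow_two, mul_one]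
      simp [Nat.pow_mod]

theorem pratt (p a f : ℕ) (fs : List ℕ) (hp : 1 < p) (hlt : p < 2 ^ f)
    (hfs : ∀ q ∈ fs, Nat.Prime q) (hprod : fs.prod = p - 1)
    (h1 : pm p f a (p - 1) = 1) (h2 : ∀ q ∈ fs, pm p f a ((p - 1) / q) ≠ 1) : p.Prime := by
  have key : ∀ e, e ≤ p - 1 → (pm p f a e = 1 ↔ ((a : ZMod p)) ^ e = 1) := by
    intro e he
    rw [pm_eq p f a e (by omega)]
    have : ((1 : ℕ) : ZMod p) = 1 := by simp
    rw [← this, ← Nat.cast_pow, ZMod.natCast_eq_natCast_iff']
    rw [Nat.mod_eq_of_lt hp]
  refine lucas_primality p (a : ZMod p) ((key _ le_rfl).1 h1) ?_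
  intro q hq hqd
  rw [← hprod] at hqd
  obtain ⟨r, hr, hqr⟩ := (Prime.dvd_prod_iff hq.prime).1 hqd
  have hqr' : q = r := (Nat.prime_dvd_prime_iff_eq hq (hfs r hr)).1 hqr
  subst hqr'
  have := h2 q hr
  rw [Ne, key _ (Nat.div_le_self _ _)] at this
  exact this

theorem prime_2 : Nat.Prime 2 := by norm_num

theorem prime_3 : Nat.Prime 3 := by norm_num

theorem prime_5 : Nat.Prime 5 := by norm_num

theorem prime_71 : Nat.Prime 71 := by norm_num

theorem prime_6553 : Nat.Prime 6553 := by norm_num

theorem prime_223 : Nat.Prime 223 := by norm_num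

theorem prime_100981 : Nat.Prime 100981 := by norm_num

theorem prime_141131 : Nat.Prime 141131 := by norm_num

theorem prime_6774289 : Nat.Prime 6774289 := by
  refine pratt 6774289 13 23 [2, 2, 2, 2, 3, 141131] (by norm_num) (by norm_num) ?_ (by decide +kernel) (by decide +kernel) (by decide +kernel)
  intro q hq
  simp only [List.mem_cons, List.not_mem_nil, or_false] at hq
  rcases hq with rfl | rfl | rfl | rfl | rfl | rfl
  · exact prime_2
  · exact prime_2
  · exact prime_2
  · exact prime_2
  · exact prime_3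
  · exact prime_141131

theorem prime_11 : Nat.Prime 11 := by norm_num

theorem prime_23 : Nat.Prime 23 := by norm_num

theorem prime_5839 : Nat.Prime 5839 := by norm_num

theorem prime_1074377 : Nat.Prime 1074377 := by
  refine pratt 1074377 3 21 [2, 2, 2, 23, 5839] (by norm_num) (by norm_num) ?_ (by decide +kernel) (by decide +kernel) (by decide +kernel)
  intro q hq
  simp only [List.mem_cons, List.not_mem_nil, or_false] at hq
  rcases hq with rfl | rfl | rfl | rfl | rfl
  · exact prime_2
  · exact prime_2
  · exact prime_2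
  · exact prime_23
  · exact prime_5839

theorem prime_70908883 : Nat.Prime 70908883 := by
  refine pratt 70908883 2 27 [2, 3, 11, 1074377] (by norm_num) (by norm_num) ?_ (by decide +kernel) (by decide +kernel) (by decide +kernel)
  intro q hq
  simp only [List.mem_cons, List.not_mem_nil, or_false] at hq
  rcases hq with rfl | rfl | rfl | rfl
  · exact prime_2
  · exact prime_3
  · exact prime_11
  · exact prime_1074377

theorem prime_64902308585044285054087 : Nat.Prime 64902308585044285054087 := by
  refine pratt 64902308585044285054087 3 76 [2, 3, 223, 100981, 6774289, 70908883] (by norm_num) (by norm_num) ?_ (by decide +kernel) (by decide +kernel) (by decide +kernel)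
  intro q hq
  simp only [List.mem_cons, List.not_mem_nil, or_false] at hq
  rcases hq with rfl | rfl | rfl | rfl | rfl | rfl
  · exact prime_2
  · exact prime_3
  · exact prime_223
  · exact prime_100981
  · exact prime_6774289
  · exact prime_70908883

theorem prime_241573142393627673576957439049 : Nat.Prime 241573142393627673576957439049 := by
  refine pratt 241573142393627673576957439049 3 98 [2, 2, 2, 71, 6553, 64902308585044285054087] (by norm_num) (by norm_num) ?_ (by decide +kernel) (by decide +kernel) (by decide +kernel)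
  intro q hq
  simp only [List.mem_cons, List.not_mem_nil, or_false] at hq
  rcases hq with rfl | rfl | rfl | rfl | rfl | rfl
  · exact prime_2
  · exact prime_2
  · exact prime_2
  · exact prime_71
  · exact prime_6553
  · exact prime_64902308585044285054087

theorem prime_13 : Nat.Prime 13 := by norm_num

theorem prime_79 : Nat.Prime 79 := by norm_num

theorem prime_887 : Nat.Prime 887 := by norm_num

theorem prime_212881 : Nat.Prime 212881 := by
  refine pratt 212881 13 18 [2, 2, 2, 2, 3, 5, 887] (by norm_num) (by norm_num) ?_ (by decide +kernel) (by decide +kernel) (by decide +kernel)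
  intro q hq
  simp only [List.mem_cons, List.not_mem_nil, or_false] at hq
  rcases hq with rfl | rfl | rfl | rfl | rfl | rfl | rfl
  · exact prime_2
  · exact prime_2
  · exact prime_2
  · exact prime_2
  · exact prime_3
  · exact prime_5
  · exact prime_887

theorem prime_73 : Nat.Prime 73 := by norm_num

theorem prime_31849 : Nat.Prime 31849 := by norm_num

theorem prime_9299909 : Nat.Prime 9299909 := by
  refine pratt 9299909 2 24 [2, 2, 73, 31849] (by norm_num) (by norm_num) ?_ (by decide +kernel) (by decide +kernel) (by decide +kernel)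
  intro q hq
  simp only [List.mem_cons, List.not_mem_nil, or_false] at hq
  rcases hq with rfl | rfl | rfl | rfl
  · exact prime_2
  · exact prime_2
  · exact prime_73
  · exact prime_31849

theorem prime_22189 : Nat.Prime 22189 := by norm_num

theorem prime_157 : Nat.Prime 157 := by norm_num

theorem prime_1361 : Nat.Prime 1361 := by norm_num

theorem prime_18269 : Nat.Prime 18269 := by norm_num

theorem prime_10669097 : Nat.Prime 10669097 := by
  refine pratt 10669097 3 24 [2, 2, 2, 73, 18269] (by norm_num) (by norm_num) ?_ (by decide +kernel) (by decide +kernel) (by decide +kernel)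
  intro q hq
  simp only [List.mem_cons, List.not_mem_nil, or_false] at hq
  rcases hq with rfl | rfl | rfl | rfl | rfl
  · exact prime_2
  · exact prime_2
  · exact prime_2
  · exact prime_73
  · exact prime_18269

theorem prime_64014583 : Nat.Prime 64014583 := by
  refine pratt 64014583 5 26 [2, 3, 10669097] (by norm_num) (by norm_num) ?_ (by decide +kernel) (by decide +kernel) (by decide +kernel)
  intro q hq
  simp only [List.mem_cons, List.not_mem_nil, or_false] at hq
  rcases hq with rfl | rfl | rfl
  · exact prime_2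
  · exact prime_3
  · exact prime_10669097

theorem prime_22159079363739421 : Nat.Prime 22159079363739421 := by
  refine pratt 22159079363739421 2 55 [2, 2, 3, 3, 3, 3, 5, 157, 1361, 64014583] (by norm_num) (by norm_num) ?_ (by decide +kernel) (by decide +kernel) (by decide +kernel)
  intro q hq
  simp only [List.mem_cons, List.not_mem_nil, or_false] at hq
  rcases hq with rfl | rfl | rfl | rfl | rfl | rfl | rfl | rfl | rfl | rfl
  · exact prime_2
  · exact prime_2
  · exact prime_3
  · exact prime_3
  · exact prime_3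
  · exact prime_3
  · exact prime_5
  · exact prime_157
  · exact prime_1361
  · exact prime_64014583

theorem prime_5900253744024168150829 : Nat.Prime 5900253744024168150829 := by
  refine pratt 5900253744024168150829 2 73 [2, 2, 3, 22189, 22159079363739421] (by norm_num) (by norm_num) ?_ (by decide +kernel) (by decide +kernel) (by decide +kernel)
  intro q hq
  simp only [List.mem_cons, List.not_mem_nil, or_false] at hq
  rcases hq with rfl | rfl | rfl | rfl | rfl
  · exact prime_2
  · exact prime_2
  · exact prime_3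
  · exact prime_22189
  · exact prime_22159079363739421

theorem prime_45994811347886846310221728895223034301839 : Nat.Prime 45994811347886846310221728895223034301839 := by
  refine pratt 45994811347886846310221728895223034301839 6 136 [2, 3, 3, 3, 13, 71, 79, 212881, 9299909, 5900253744024168150829] (by norm_num) (by norm_num) ?_ (by decide +kernel) (by decide +kernel) (by decide +kernel)
  intro q hq
  simp only [List.mem_cons, List.not_mem_nil, or_false] at hq
  rcases hq with rfl | rfl | rfl | rfl | rfl | rfl | rfl | rfl | rfl | rfl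
  · exact prime_2
  · exact prime_3
  · exact prime_3
  · exact prime_3
  · exact prime_13
  · exact prime_71
  · exact prime_79
  · exact prime_212881
  · exact prime_9299909
  · exact prime_5900253744024168150829


/-- multiplication of x + y√D modulo n, as pairs -/
def qmul (n D : ℕ) (a b : ℕ × ℕ) : ℕ × ℕ :=
  ((a.1*b.1 + D*a.2*b.2) % n, (a.1*b.2 + a.2*b.1) % n)

/-- power of x + y√D modulo n, with fuel -/
def qpow (n D : ℕ) : ℕ → ℕ × ℕ → ℕ → ℕ × ℕ
  | 0, _, _ => (1, 0)
  | f+1, a, e =>
      if e = 0 then (1, 0)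
      else if e % 2 = 1 then qmul n D (qpow n D f (qmul n D a a) (e/2)) a
      else qpow n D f (qmul n D a a) (e/2)

abbrev Q (p D : ℕ) := QuadraticAlgebra (ZMod p) (D : ZMod p) 0

def toQ (p D : ℕ) (a : ℕ × ℕ) : Q p D := ⟨(a.1 : ZMod p), (a.2 : ZMod p)⟩

theorem cast_mod_of_dvd {p n : ℕ} (h : p ∣ n) (a : ℕ) : ((a % n : ℕ) : ZMod p) = (a : ZMod p) := by
  rw [ZMod.natCast_eq_natCast_iff']
  exact Nat.mod_mod_of_dvd a h

theorem toQ_qmul {p n : ℕ} (D : ℕ) (h : p ∣ n) (a b : ℕ × ℕ) :
    toQ p D (qmul n D a b) = toQ p D a * toQ p D b := by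
  ext
  · simp only [toQ, qmul, QuadraticAlgebra.re_mul]
    rw [cast_mod_of_dvd h]; push_cast; ring
  · simp only [toQ, qmul, QuadraticAlgebra.im_mul]
    rw [cast_mod_of_dvd h]; push_cast; ring

theorem toQ_one (p D : ℕ) : toQ p D (1, 0) = 1 := by
  ext <;> simp [toQ, QuadraticAlgebra.re_one, QuadraticAlgebra.im_one]

theorem toQ_qpow {p n : ℕ} (D : ℕ) (h : p ∣ n) : ∀ f (a : ℕ × ℕ) e, e < 2^f → 
    toQ p D (qpow n D f a e) = (toQ p D a)^e := by
  intro f
  induction f with
  | zero => intro a e he; simp at he; subst he; simp [qpow, toQ_one]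
  | succ f ih =>
    intro a e he
    have h2 : e / 2 < 2^f := by omega
    rw [qpow]
    split_ifs with h0 h1
    · subst h0; simp [toQ_one]
    · rw [toQ_qmul D h, ih _ _ h2, toQ_qmul D h]
      conv_rhs => rw [← Nat.div_add_mod e 2, h1, pow_add, pow_mul, pow_one, pow_two]
    · rw [ih _ _ h2, toQ_qmul D h]
      have h3 : e % 2 = 0 := by omega
      conv_rhs => rw [← Nat.div_add_mod e 2, h3, pow_add, pow_mul, pow_zero, pow_two, mul_one]

theorem pow_p {p D : ℕ} [hp : Fact p.Prime] (hp2 : p ≠ 2) (hD : (D : ZMod p) ≠ 0) (b : Q p D)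
    (hb : b * star b = 1) : b ^ (p - 1) = 1 ∨ b ^ (p + 1) = 1 := by
  have hinj : Function.Injective (algebraMap (ZMod p) (Q p D)) := by
    intro x y hxy
    have := congrArg QuadraticAlgebra.re hxy
    simpa using this
  have : CharP (Q p D) p := charP_of_injective_algebraMap hinj p
  have hppos : 0 < p := hp.out.pos
  obtain ⟨k, hk⟩ := hp.out.odd_of_ne_two hp2
  have hom : (QuadraticAlgebra.omega : Q p D) * QuadraticAlgebra.omega = algebraMap (ZMod p) (Q p D) (D : ZMod p) := by
    ext <;> simp
  have hbw : b = algebraMap (ZMod p) (Q p D) b.re + algebraMap (ZMod p) (Q p D) b.im * QuadraticAlgebra.omega := by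
    ext <;> simp
  have hpow : b ^ p = algebraMap (ZMod p) (Q p D) b.re 
      + algebraMap (ZMod p) (Q p D) (b.im * (D : ZMod p)^k) * QuadraticAlgebra.omega := by
    conv_lhs => rw [hbw]
    rw [add_pow_char, mul_pow, ← map_pow, ← map_pow, ZMod.pow_card, ZMod.pow_card, map_mul, mul_assoc]
    congr 2
    have homp : ∀ m, m = 2 * k + 1 → (QuadraticAlgebra.omega : Q p D) ^ m = algebraMap (ZMod p) (Q p D) (D : ZMod p) ^ k * QuadraticAlgebra.omega := by
      intro m hm
      rw [hm, pow_succ, pow_mul, pow_two, hom]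
    rw [homp p hk, map_pow]
  have hk2 : p / 2 = k := by omega
  rcases ZMod.pow_div_two_eq_neg_one_or_one p hD with h1 | h1
  · left
    rw [hk2] at h1
    rw [h1, mul_one, ← hbw] at hpow
    have h3 : b ^ (p - 1) * b = b := by
      rw [← pow_succ, Nat.sub_add_cancel hppos]; exact hpow
    calc b ^ (p-1) = b^(p-1) * (b * star b) := by rw [hb, mul_one]
      _ = (b ^(p-1) * b) * star b := by ring
      _ = 1 := by rw [h3, hb]
  · right
    rw [hk2] at h1
    have h4 : b ^ p = star b := by
      rw [hpow, h1]
      ext <;> simp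
    rw [pow_succ, h4, mul_comm]; exact hb

theorem dvd_of_forall {o M F : ℕ} (hM : M ≠ 0) (hF : F ∣ M) (ho : o ∣ M)
    (h : ∀ q, q.Prime → q ∣ F → ¬ (o ∣ M / q)) : F ∣ o := by
  have ho0 : o ≠ 0 := fun h0 => hM (by rw [h0] at ho; exact Nat.eq_zero_of_zero_dvd ho)
  have hF0 : F ≠ 0 := fun h0 => hM (by rw [h0] at hF; exact Nat.eq_zero_of_zero_dvd hF)
  rw [← Nat.factorization_le_iff_dvd hF0 ho0]
  intro q
  by_cases hq : q.Prime
  · by_cases hqF : q ∣ F
    · have h1 := (Nat.factorization_le_iff_dvd hF0 hM).2 hF q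
      have h2 : M.factorization q ≤ o.factorization q := by
        by_contra hcon
        push Not at hcon
        apply h q hq hqF
        have hqM : q ∣ M := hqF.trans hF
        have hMq : M / q ≠ 0 := by
          have := Nat.div_pos (Nat.le_of_dvd (Nat.pos_of_ne_zero hM) hqM) hq.pos
          omega
        rw [← Nat.factorization_le_iff_dvd ho0 hMq]
        intro r
        rw [Nat.factorization_div hqM]
        have h3 := (Nat.factorization_le_iff_dvd ho0 hM).2 ho r
        simp only [Finsupp.coe_tsub, Pi.sub_apply, hq.factorization]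
        by_cases hr : r = q
        · subst hr; simp; omega
        · simp [Ne.symm hr]; exact h3
      omega
    · rw [Nat.factorization_eq_zero_of_not_dvd hqF]; exact Nat.zero_le _
  · rw [Nat.factorization_eq_zero_of_not_prime F hq]; exact Nat.zero_le _

/-- Morrison's N+1 test. -/
theorem morrison (N D F x y f : ℕ) (hN : 1 < N) (hodd : N % 2 = 1) (hlt : N + 1 < 2 ^ f)
    (hD : Nat.Coprime D N) (hnorm : (x * x) % N = (1 + D * y * y) % N)
    (hpow : qpow N D f (x, y) (N + 1) = (1, 0))
    (hF : F ∣ N + 1) (hbig : N < (F - 1) * (F - 1))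
    (hq : ∀ q, q.Prime → q ∣ F → Nat.Coprime ((qpow N D f (x, y) ((N + 1) / q)).1 + N - 1) N) :
    N.Prime := by
  by_contra hnp
  have hne : N ≠ 1 := by omega
  set p := N.minFac with hpdef
  have hp : p.Prime := Nat.minFac_prime hne
  have : Fact p.Prime := ⟨hp⟩
  have hpN : p ∣ N := Nat.minFac_dvd N
  have hp2 : p ≠ 2 := by
    intro h2; rw [h2] at hpN; omega
  have hsq : p * p ≤ N := by
    have := Nat.minFac_sq_le_self (by omega) hnp
    rw [pow_two] at this; exact this
  have hDp : (D : ZMod p) ≠ 0 := by
    intro h0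
    rw [ZMod.natCast_eq_zero_iff] at h0
    exact hp.one_lt.ne' (Nat.eq_one_of_dvd_coprimes hD h0 hpN)
  set b : Q p D := toQ p D (x, y) with hb
  have hbb : b * star b = 1 := by
    have h1 : ((x * x : ℕ) : ZMod p) = ((1 + D * y * y : ℕ) : ZMod p) := by
      rw [← cast_mod_of_dvd hpN, hnorm, cast_mod_of_dvd hpN]
    push_cast at h1
    ext
    · simp [hb, toQ, QuadraticAlgebra.re_one]
      linear_combination h1
    · simp [hb, toQ, QuadraticAlgebra.im_one]
      ring
  have hb1 : b ^ (N + 1) = 1 := by
    rw [hb, ← toQ_qpow D hpN f (x, y) (N+1) hlt, hpow, toQ_one]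
  have ho : orderOf b ∣ N + 1 := orderOf_dvd_of_pow_eq_one hb1
  have hFo : F ∣ orderOf b := by
    refine dvd_of_forall (by omega) hF ho ?_
    intro q hqp hqF hdiv
    have h1 : b ^ ((N+1)/q) = 1 := orderOf_dvd_iff_pow_eq_one.1 hdiv
    have hlt' : (N + 1) / q < 2 ^ f := lt_of_le_of_lt (Nat.div_le_self _ _) hlt
    rw [hb, ← toQ_qpow D hpN f (x, y) _ hlt'] at h1
    have h2 := congrArg QuadraticAlgebra.re h1
    simp only [toQ, QuadraticAlgebra.re_one] at h2
    have h3 := hq q hqp hqF
    set t := (qpow N D f (x, y) ((N + 1) / q)).1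
    have h4 : p ∣ t + N - 1 := by
      rw [← ZMod.natCast_eq_zero_iff]
      have : t + N - 1 = t + (N - 1) := by omega
      rw [this]
      have h5 : ((N - 1 : ℕ) : ZMod p) + 1 = 0 := by
        have : ((N - 1 : ℕ) : ZMod p) + 1 = ((N - 1 + 1 : ℕ) : ZMod p) := by push_cast; ring
        rw [this, Nat.sub_add_cancel (by omega), ZMod.natCast_eq_zero_iff]; exact hpN
      push_cast
      rw [h2]
      linear_combination h5
    exact hp.one_lt.ne' (Nat.eq_one_of_dvd_coprimes h3 h4 hpN)
  have hpp : 2 < p := by
    have := hp.two_le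
    omega
  have hle : F ≤ p + 1 := by
    rcases pow_p hp2 hDp b hbb with h | h
    · have h6 := hFo.trans (orderOf_dvd_of_pow_eq_one h)
      have := Nat.le_of_dvd (by omega) h6
      omega
    · have h6 := hFo.trans (orderOf_dvd_of_pow_eq_one h)
      exact Nat.le_of_dvd (by omega) h6
  have h7 : F - 1 ≤ p := by omega
  have h8 := Nat.mul_le_mul h7 h7
  omega




/-! ### The prime 10 ^ 143 - 11 -/

/-- first coordinate of the element of norm one used in the test -/
def x0 : ℕ :=
  34782608695652173913043478260869565217391304347826086956521739130434782608695652173913043478260869565217391304347826086956521739130434782608693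

/-- second coordinate of the element of norm one used in the test -/
def y0 : ℕ :=
  86956521739130434782608695652173913043478260869565217391304347826086956521739130434782608695652173913043478260869565217391304347826086956521730

set_option maxRecDepth 100000 in
theorem prime_N : Nat.Prime (10 ^ 143 - 11) := by
  refine morrison (10 ^ 143 - 11) 2 (10 * (10 ^ 71 - 1)) x0 y0 480 (by norm_num) (by norm_num)
    (by decide +kernel) (by decide +kernel) (by decide +kernel) (by decide +kernel)
    ⟨10 ^ 71 + 1, by norm_num⟩ (by norm_num) ?_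
  intro q hq hqF
  have hfac : 10 * (10 ^ 71 - 1) = ([2, 5, 3, 3, 241573142393627673576957439049,
      45994811347886846310221728895223034301839] : List ℕ).prod := by
    simp
  rw [hfac] at hqF
  obtain ⟨r, hr, hqr⟩ := (Prime.dvd_prod_iff hq.prime).1 hqF
  simp only [List.mem_cons, List.not_mem_nil, or_false] at hr
  have hrp : r.Prime := by
    rcases hr with rfl | rfl | rfl | rfl | rfl | rfl
    · exact prime_2
    · exact prime_5
    · exact prime_3
    · exact prime_3
    · exact prime_241573142393627673576957439049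
    · exact prime_45994811347886846310221728895223034301839
  have hqr' : q = r := (Nat.prime_dvd_prime_iff_eq hq hrp).1 hqr
  subst hqr'
  have hall : ∀ r ∈ ([2, 5, 3, 241573142393627673576957439049,
      45994811347886846310221728895223034301839] : List ℕ),
      Nat.Coprime ((qpow (10 ^ 143 - 11) 2 480 (x0, y0) ((10 ^ 143 - 11 + 1) / r)).1
        + (10 ^ 143 - 11) - 1) (10 ^ 143 - 11) := by
    decide +kernel
  apply hall
  simp only [List.mem_cons, List.not_mem_nil, or_false]
  tauto

/-! ### The composite numbers 10 ^ 143 - 1 - 10 ^ j for j from 2 to 142 -/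

/-- Check that 10 ^ 143 - 1 - 10 ^ j is composite: if w = 0 by Fermat's test to base 2,
and otherwise by means of the proper divisor w. -/
def chk (j w : ℕ) : Bool :=
  if w = 0 then decide (pm (10 ^ 143 - 1 - 10 ^ j) 480 2 (10 ^ 143 - 1 - 10 ^ j - 1) ≠ 1)
  else decide (1 < w) && decide (w < 10 ^ 143 - 1 - 10 ^ j)
    && decide ((10 ^ 143 - 1 - 10 ^ j) % w = 0)

theorem chk_sound (j w : ℕ) (hj : j < 143) (h : chk j w = true) :
    ¬ Nat.Prime (10 ^ 143 - 1 - 10 ^ j) := by
  intro hp
  unfold chk at h
  split_ifs at h with hw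
  · rw [decide_eq_true_eq] at h
    apply h
    have hlt : 10 ^ 143 - 1 - 10 ^ j < 2 ^ 480 :=
      lt_of_le_of_lt (Nat.sub_le _ _) (by decide +kernel)
    have hj2 : 10 ^ j ≤ 10 ^ 142 := Nat.pow_le_pow_right (by norm_num) (by omega)
    have hbig : 2 < 10 ^ 143 - 1 - 10 ^ j := by
      have : 10 ^ 142 + 3 < 10 ^ 143 - 1 := by norm_num
      omega
    generalize 10 ^ 143 - 1 - 10 ^ j = n at *
    rw [pm_eq n 480 2 (n - 1) (by omega)]
    have : Fact n.Prime := ⟨hp⟩
    have h2 : (2 : ZMod n) ≠ 0 := by
      have h3 : ((2 : ℕ) : ZMod n) ≠ 0 := by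
        rw [Ne, ZMod.natCast_eq_zero_iff]
        intro hd
        have := Nat.le_of_dvd (by norm_num) hd
        omega
      simpa using h3
    have h4 : (2 : ZMod n) ^ (n - 1) = 1 := ZMod.pow_card_sub_one_eq_one h2
    have h5 : ((2 ^ (n - 1) : ℕ) : ZMod n) = ((1 : ℕ) : ZMod n) := by
      push_cast; exact h4
    rw [ZMod.natCast_eq_natCast_iff'] at h5
    rw [h5]
    exact Nat.mod_eq_of_lt (by omega)
  · simp only [Bool.and_eq_true, decide_eq_true_eq] at h
    obtain ⟨⟨h1, h2⟩, h3⟩ := h
    have hd : w ∣ 10 ^ 143 - 1 - 10 ^ j := Nat.dvd_of_mod_eq_zero h3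
    rcases (Nat.dvd_prime hp).1 hd with h4 | h4
    · omega
    · omega

/-- Witnesses for j = 2, ..., 142: a proper divisor, or 0 for Fermat's test. -/
def ws : List ℕ :=
  [29, 1103, 7, 0, 131, 71, 331, 0, 7, 1783, 59, 17, 857, 4447, 7, 11321, 19, 23, 147671, 25583,
   7, 23887, 113, 0, 127, 0, 7, 17, 29, 0, 61637, 97, 7, 0, 19, 443, 4871, 149, 7, 23, 71,
   199, 367, 17, 7, 0, 83, 311, 16883, 37307, 7, 0, 19, 122489, 151, 0, 7, 0, 0, 17, 0, 23,
   7, 47, 1609, 0, 127, 2377, 7, 0, 19, 0, 0, 659, 7, 17, 179, 0, 263, 15287, 7, 0, 0, 23,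
   29, 0, 7, 61, 19, 409, 0, 17, 7, 0, 109, 52453, 0, 0, 7, 269, 193, 121061, 0, 107, 7, 23,
   19, 17, 127, 47, 7, 8093, 29, 227, 0, 1621, 7, 13933, 3581, 0, 0, 0, 7, 17, 19, 421, 59,
   23, 7, 151, 37489, 18211, 0, 0, 7, 6199, 0, 1217, 0, 17, 7]

set_option maxRecDepth 100000 in
theorem chk_all : ∀ i < 141, chk (i + 2) (ws.getD i 0) = true := by
  decide +kernel

theorem composite (j : ℕ) (h2 : 2 ≤ j) (hj : j < 143) : ¬ Nat.Prime (10 ^ 143 - 1 - 10 ^ j) := by
  have h := chk_all (j - 2) (by omega)
  rw [Nat.sub_add_cancel h2] at h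
  exact chk_sound j _ hj h

end Pool.Agent.H91.Rho
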