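import Mathlib

/-!
# The p-adic Schrödinger representation: definitions

𝕜 is the coefficient field; in the final statement it is ℂ_p.
-/

open scoped Matrix

namespace Pool.Agent.H91.Schr

/-- The coefficient field is a normed field 𝕜; `Schwartz p d 𝕜` is the 𝕜-vector space of locally
constant, compactly supported functions ℚ_p^d → 𝕜. -/
def Schwartz (p : ℕ) [Fact p.Prime] (d : ℕ) (𝕜 : Type*) [NormedField 𝕜] :
    Submodule 𝕜 ((Fin d → ℚ_[p]) → 𝕜) where
  carrier := {f | IsLocallyConstant f ∧ HasCompactSupport f}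
  zero_mem' := ⟨IsLocallyConstant.const 0, HasCompactSupport.zero⟩
  add_mem' := fun hf hg => ⟨hf.1.add hg.1, hf.2.add hg.2⟩
  smul_mem' := fun c _ hf =>
    ⟨hf.1.comp (fun y => c • y), hf.2.comp_left (g := fun y => c • y) (smul_zero c)⟩

variable {p : ℕ} [hp : Fact p.Prime] {d : ℕ} {𝕜 : Type*} [NormedField 𝕜]

/-- A character with open kernel is locally constant. -/
theorem isLocallyConstant_char {ψ : AddChar ℚ_[p] 𝕜} (hψ : IsOpen {x | ψ x = 1}) :
    IsLocallyConstant ψ := by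
  rw [IsLocallyConstant.iff_exists_open]
  intro x
  refine ⟨(fun y => y - x) ⁻¹' {z | ψ z = 1}, hψ.preimage (by fun_prop), ?_, ?_⟩
  · simp
  · intro y hy
    have h : ψ (y - x) = 1 := hy
    calc ψ y = ψ ((y - x) + x) := by rw [sub_add_cancel]
      _ = ψ x := by rw [AddChar.map_add_eq_mul, h, one_mul]

/-- The Schrödinger representation of the Heisenberg group. An element of the Heisenberg group is
[w, t] with w = (a, b) in ℚ_p^d ⊕ ℚ_p^d and t in ℚ_p, and
(ρ([w, t]) f)(x) = ψ(t + a·b/2 + b·x) f(x + a). -/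
noncomputable def rho (ψ : AddChar ℚ_[p] 𝕜) (hψ : IsOpen {x | ψ x = 1}) (w : Fin d ⊕ Fin d → ℚ_[p])
    (t : ℚ_[p]) : Schwartz p d 𝕜 →ₗ[𝕜] Schwartz p d 𝕜 where
  toFun f := ⟨fun x => ψ (t + (1 / 2) * ((fun i => w (Sum.inl i)) ⬝ᵥ (fun i => w (Sum.inr i)))
      + (fun i => w (Sum.inr i)) ⬝ᵥ x) * f.1 (x + fun i => w (Sum.inl i)), by
    constructor
    · refine IsLocallyConstant.mul ?_ ?_
      · refine (isLocallyConstant_char hψ).comp_continuous ?_
        simp only [dotProduct]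
        fun_prop
      · exact f.2.1.comp_continuous (by fun_prop)
    · refine HasCompactSupport.mul_left ?_
      exact f.2.2.comp_homeomorph (Homeomorph.addRight (fun i => w (Sum.inl i)))⟩
  map_add' f g := by
    ext x
    simp [mul_add]
  map_smul' c f := by
    ext x
    simp only [Submodule.coe_smul, Pi.smul_apply, smul_eq_mul, RingHom.id_apply]
    ring

/-- The sup norm on the Schwartz space. -/
noncomputable def supNorm (f : Schwartz p d 𝕜) : ℝ := ⨆ x, ‖f.1 x‖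

/-- A non-archimedean norm. -/
structure IsNorm (N : Schwartz p d 𝕜 → ℝ) : Prop where
  eq_zero_iff : ∀ f, N f = 0 ↔ f = 0
  smul : ∀ (c : 𝕜) f, N (c • f) = ‖c‖ * N f
  add_le : ∀ f g, N (f + g) ≤ max (N f) (N g)

/-- Invariance of a norm under the Heisenberg group. -/
def IsHeisInvariant (ψ : AddChar ℚ_[p] 𝕜) (hψ : IsOpen {x | ψ x = 1})
    (N : Schwartz p d 𝕜 → ℝ) : Prop :=
  ∀ w t f, N (rho ψ hψ w t f) = N f

/-- `Dominates N M`: M ≤ c N for some constant c > 0. -/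
def Dominates (N M : Schwartz p d 𝕜 → ℝ) : Prop := ∃ c : ℝ, 0 < c ∧ ∀ f, M f ≤ c * N f

/-- Membership in Sp_{2d}(ℚ_p): g J gᵀ = J with J = (0 I; -I 0). -/
def IsSymplectic (g : Matrix (Fin d ⊕ Fin d) (Fin d ⊕ Fin d) ℚ_[p]) : Prop :=
  g * Matrix.fromBlocks 0 1 (-1) 0 * gᵀ = Matrix.fromBlocks 0 1 (-1) 0

/-- T is an invertible operator T_g: ρ([w, t]) ∘ T = T ∘ ρ([w g, t]) for all [w, t]. -/
def Intertwines (ψ : AddChar ℚ_[p] 𝕜) (hψ : IsOpen {x | ψ x = 1})
    (g : Matrix (Fin d ⊕ Fin d) (Fin d ⊕ Fin d) ℚ_[p])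
    (T : Schwartz p d 𝕜 ≃ₗ[𝕜] Schwartz p d 𝕜) : Prop :=
  ∀ w t f, rho ψ hψ w t (T f) = T (rho ψ hψ (w ᵥ* g) t f)

/-- The box of all x with |x_i| ≤ p^(k_i) for all i. -/
def box (k : Fin d → ℤ) : Set (Fin d → ℚ_[p]) := {x | ∀ i, ‖x i‖ ≤ (p : ℝ) ^ (k i)}

theorem box_eq (k : Fin d → ℤ) :
    box (p := p) k = Set.pi Set.univ (fun i => Metric.closedBall 0 ((p : ℝ) ^ (k i))) := by
  ext x; simp [box]

theorem isClopen_box (k : Fin d → ℤ) : IsClopen (box (p := p) k) := by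
  have hp0 : (0 : ℝ) < p := by exact_mod_cast hp.out.pos
  rw [box_eq]
  refine ⟨isClosed_set_pi fun i _ => Metric.isClosed_closedBall, isOpen_set_pi Set.finite_univ ?_⟩
  intro i _
  exact IsUltrametricDist.isOpen_closedBall _ (zpow_pos hp0 _).ne'

theorem isCompact_box (k : Fin d → ℤ) : IsCompact (box (p := p) k) := by
  rw [box_eq]
  exact isCompact_univ_pi fun i => isCompact_closedBall _ _

variable (𝕜) in
/-- The indicator function of a box, as an element of the Schwartz space. -/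
noncomputable def ind (k : Fin d → ℤ) : Schwartz p d 𝕜 :=
  ⟨Set.indicator (box k) (fun _ => 1), by
    constructor
    · exact ((LocallyConstant.const _ (1 : 𝕜)).indicator (isClopen_box k)).isLocallyConstant
    · exact HasCompactSupport.intro (isCompact_box k)
        (fun x hx => Set.indicator_of_notMem hx _)⟩

/-- M is the norm ‖·‖_α attached to the class α = P g of g: a positive multiple of
f ↦ sup_x |T_g(f)(x)| with value 1 at the indicator function of ℤ_p^d. -/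
def IsAlphaNorm (ψ : AddChar ℚ_[p] 𝕜) (hψ : IsOpen {x | ψ x = 1})
    (g : Matrix (Fin d ⊕ Fin d) (Fin d ⊕ Fin d) ℚ_[p]) (M : Schwartz p d 𝕜 → ℝ) : Prop :=
  ∃ T : Schwartz p d 𝕜 ≃ₗ[𝕜] Schwartz p d 𝕜, Intertwines ψ hψ g T ∧
    ∃ c : ℝ, 0 < c ∧ (∀ f, M f = c * supNorm (T f)) ∧ M (ind 𝕜 (fun _ => 0)) = 1

end Pool.Agent.H91.Schr
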