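import Mathlib

/-!
# Polynomials of small norm on the roots of unity of p-power order
-/

open Finset Polynomial

namespace Pool.Agent.H91.Schr

variable {p : ℕ} [hp : Fact p.Prime] {𝕜 : Type*} [NormedField 𝕜] [IsUltrametricDist 𝕜]

omit [IsUltrametricDist 𝕜] in
lemma norm_eq_one_of_pow {z : 𝕜} {n : ℕ} (hn : n ≠ 0) (h : z ^ n = 1) : ‖z‖ = 1 := by
  have h1 : ‖z‖ ^ n = 1 := by rw [← norm_pow, h, norm_one]
  exact (pow_eq_one_iff_of_nonneg (norm_nonneg z) hn).1 h1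

lemma norm_one_sub_le {z : 𝕜} (hz : ‖z‖ ≤ 1) : ‖1 - z‖ ≤ 1 := by
  have := IsUltrametricDist.norm_add_le_max (1 : 𝕜) (-z)
  rw [norm_one, norm_neg, ← sub_eq_add_neg] at this
  exact this.trans (max_le le_rfl hz)

lemma norm_one_sub_pow_le {z : 𝕜} (hz : ‖z‖ ≤ 1) (m : ℕ) : ‖1 - z ^ m‖ ≤ ‖1 - z‖ := by
  have h : (1 - z ^ m) = (1 - z) * ∑ i ∈ range m, z ^ i := by
    rw [mul_comm, ← neg_sub, ← geom_sum_mul]; ring
  rw [h, norm_mul]
  have h2 : ‖∑ i ∈ range m, z ^ i‖ ≤ 1 := by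
    apply IsUltrametricDist.norm_sum_le_of_forall_le_of_nonneg zero_le_one
    intro i _
    rw [norm_pow]
    exact pow_le_one₀ (norm_nonneg z) hz
  calc ‖1 - z‖ * ‖∑ i ∈ range m, z ^ i‖ ≤ ‖1 - z‖ * 1 := by gcongr
    _ = ‖1 - z‖ := mul_one _

lemma norm_one_sub_primitive {ζ : 𝕜} {M : ℕ} (h : IsPrimitiveRoot ζ (p ^ (M + 1))) :
    ‖1 - ζ‖ ^ (p ^ M * (p - 1)) ≤ ‖(p : 𝕜)‖ := by
  have hpos : 0 < p ^ (M + 1) := pow_pos hp.out.pos _
  have h1 : Polynomial.eval 1 (cyclotomic (p ^ (M + 1)) 𝕜) = p :=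
    eval_one_cyclotomic_prime_pow M
  rw [cyclotomic_eq_prod_X_sub_primitiveRoots h, eval_prod] at h1
  rw [← h1, norm_prod, ← Nat.totient_prime_pow_succ hp.out, ← h.card_primitiveRoots,
    ← Finset.prod_const]
  refine Finset.prod_le_prod (fun _ _ => norm_nonneg _) ?_
  intro μ hμ
  rw [mem_primitiveRoots hpos] at hμ
  obtain ⟨i, -, hi⟩ := hμ.eq_pow_of_pow_eq_one h.pow_eq_one
  rw [eval_sub, eval_X, eval_C, ← hi]
  exact norm_one_sub_pow_le (norm_eq_one_of_pow hpos.ne' hμ.pow_eq_one).le i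

lemma prod_range_mul_comm {f : ℕ → ℝ} (m : ℕ) : ∀ n, ∏ i ∈ range (n * m), f i =
    ∏ i' ∈ range n, ∏ c ∈ range m, f (m * i' + c) := by
  intro n
  induction n with
  | zero => simp
  | succ n ih =>
    rw [Finset.prod_range_succ, ← ih, add_mul, one_mul, Finset.prod_range_add]
    congr 1
    refine Finset.prod_congr rfl fun c _ => ?_
    rw [mul_comm]

lemma block_bound {ζ : 𝕜} (hζ : ‖ζ‖ ≤ 1) (x i' : ℕ) :
    ∏ c ∈ range p, ‖1 - ζ ^ (x + (p * i' + c))‖ ≤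
      ‖1 - ζ‖ ^ (p - 1) * ‖1 - (ζ ^ p) ^ ((x + (p - 1)) / p + i')‖ := by
  have hp0 := hp.out.pos
  set x' := (x + (p - 1)) / p with hx'
  have h1 : x ≤ p * x' := by
    have := Nat.div_add_mod (x + (p - 1)) p
    have h2 := Nat.mod_lt (x + (p - 1)) hp0
    rw [← hx'] at this
    omega
  have h2 : p * x' < x + p := by
    have := Nat.div_mul_le_self (x + (p - 1)) p
    rw [← hx', mul_comm] at this
    omega
  have hc : p * x' - x ∈ range p := by
    rw [mem_range]; omega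
  rw [← Finset.mul_prod_erase _ _ hc]
  have h3 : x + (p * i' + (p * x' - x)) = p * (x' + i') := by
    rw [mul_add]; omega
  rw [h3, pow_mul, mul_comm]
  gcongr
  calc ∏ c ∈ (range p).erase (p * x' - x), ‖1 - ζ ^ (x + (p * i' + c))‖
      ≤ ∏ c ∈ (range p).erase (p * x' - x), ‖1 - ζ‖ := by
        refine Finset.prod_le_prod (fun _ _ => norm_nonneg _) ?_
        intro c _
        exact norm_one_sub_pow_le hζ _
    _ = ‖1 - ζ‖ ^ (p - 1) := by
        rw [Finset.prod_const, Finset.card_erase_of_mem hc, card_range]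

lemma prod_bound (e : ℕ) : ∀ (j : ℕ) (ζ : 𝕜), IsPrimitiveRoot ζ (p ^ (j + e)) →
    ∀ x : ℕ, (∏ i ∈ range (p ^ j), ‖1 - ζ ^ (x + i)‖) ^ (p ^ e) ≤ ‖(p : 𝕜)‖ ^ j := by
  intro j
  induction j with
  | zero =>
    intro ζ hζ x
    have hz : ‖ζ‖ = 1 := norm_eq_one_of_pow (pow_pos hp.out.pos _).ne' hζ.pow_eq_one
    simp only [pow_zero, range_one, prod_singleton, add_zero]
    refine pow_le_one₀ (norm_nonneg _) (norm_one_sub_le ?_)
    rw [norm_pow, hz, one_pow]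
  | succ j ih =>
    intro ζ hζ x
    have hz : ‖ζ‖ = 1 := norm_eq_one_of_pow (pow_pos hp.out.pos _).ne' hζ.pow_eq_one
    have hζp : IsPrimitiveRoot (ζ ^ p) (p ^ (j + e)) := by
      refine hζ.pow (pow_pos hp.out.pos _) ?_
      rw [show j + 1 + e = (j + e) + 1 by ring, pow_succ, mul_comm]
    have hprod : ∏ i ∈ range (p ^ (j + 1)), ‖1 - ζ ^ (x + i)‖ ≤
        ‖1 - ζ‖ ^ ((p - 1) * p ^ j) *
          ∏ i ∈ range (p ^ j), ‖1 - (ζ ^ p) ^ ((x + (p - 1)) / p + i)‖ := by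
      rw [pow_succ, prod_range_mul_comm]
      calc ∏ i' ∈ range (p ^ j), ∏ c ∈ range p, ‖1 - ζ ^ (x + (p * i' + c))‖
          ≤ ∏ i' ∈ range (p ^ j),
              (‖1 - ζ‖ ^ (p - 1) * ‖1 - (ζ ^ p) ^ ((x + (p - 1)) / p + i')‖) := by
            refine Finset.prod_le_prod (fun _ _ => Finset.prod_nonneg fun _ _ => norm_nonneg _) ?_
            intro i' _
            exact block_bound hz.le x i'
        _ = _ := by
            rw [Finset.prod_mul_distrib, Finset.prod_const, card_range, ← pow_mul]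
    have h1 : ‖1 - ζ‖ ^ (p ^ (j + e) * (p - 1)) ≤ ‖(p : 𝕜)‖ := by
      refine norm_one_sub_primitive ?_
      rw [show j + e + 1 = j + 1 + e by ring]; exact hζ
    calc (∏ i ∈ range (p ^ (j + 1)), ‖1 - ζ ^ (x + i)‖) ^ (p ^ e)
        ≤ (‖1 - ζ‖ ^ ((p - 1) * p ^ j) *
          ∏ i ∈ range (p ^ j), ‖1 - (ζ ^ p) ^ ((x + (p - 1)) / p + i)‖) ^ (p ^ e) := by
          refine pow_le_pow_left₀ (Finset.prod_nonneg fun _ _ => norm_nonneg _) hprod _
      _ = ‖1 - ζ‖ ^ (p ^ (j + e) * (p - 1)) *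
          (∏ i ∈ range (p ^ j), ‖1 - (ζ ^ p) ^ ((x + (p - 1)) / p + i)‖) ^ (p ^ e) := by
          rw [mul_pow, ← pow_mul]
          congr 2
          rw [pow_add]; ring
      _ ≤ ‖(p : 𝕜)‖ * ‖(p : 𝕜)‖ ^ j := by
          gcongr
          exact ih (ζ ^ p) hζp _
      _ = ‖(p : 𝕜)‖ ^ (j + 1) := by rw [pow_succ]; ring

/-- all coefficients have norm at most one -/
def CoeffLe (P : 𝕜[X]) : Prop := ∀ n, ‖P.coeff n‖ ≤ 1

lemma CoeffLe.mul {P Q : 𝕜[X]} (hP : CoeffLe P) (hQ : CoeffLe Q) : CoeffLe (P * Q) := by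
  intro n
  rw [coeff_mul]
  apply IsUltrametricDist.norm_sum_le_of_forall_le_of_nonneg zero_le_one
  intro x _
  rw [norm_mul]
  exact mul_le_one₀ (hP _) (norm_nonneg _) (hQ _)

omit [IsUltrametricDist 𝕜] in
lemma CoeffLe.factor {c : 𝕜} (hc : ‖c‖ ≤ 1) : CoeffLe (1 - C c * X) := by
  intro n
  rw [coeff_sub, coeff_one, coeff_C_mul, coeff_X]
  rcases n with _ | _ | n
  · simp
  · simpa using hc
  · simp

lemma CoeffLe.prod {ι : Type*} (s : Finset ι) (f : ι → 𝕜[X]) (h : ∀ i ∈ s, CoeffLe (f i)) :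
    CoeffLe (∏ i ∈ s, f i) := by
  classical
  induction s using Finset.induction_on with
  | empty =>
    intro n
    rw [Finset.prod_empty, coeff_one]
    split_ifs <;> simp
  | insert a s ha ih =>
    rw [Finset.prod_insert ha]
    exact (h a (Finset.mem_insert_self _ _)).mul
      (ih fun i hi => h i (Finset.mem_insert_of_mem hi))

/-- For every s and e there is a polynomial of degree at most p ^ (s p ^ e), with constant
coefficient 1 and coefficients of norm at most 1, of norm at most |p| ^ s at all roots of unity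
of order dividing p ^ (s p ^ e + e). -/
theorem exists_poly (s e : ℕ) {ζ : 𝕜} (hζ : IsPrimitiveRoot ζ (p ^ (s * p ^ e + e))) :
    ∃ P : 𝕜[X], P.natDegree ≤ p ^ (s * p ^ e) ∧ P.coeff 0 = 1 ∧ CoeffLe P ∧
      ∀ T : 𝕜, T ^ (p ^ (s * p ^ e + e)) = 1 → ‖P.eval T‖ ≤ ‖(p : 𝕜)‖ ^ s := by
  have hz : ‖ζ‖ = 1 := norm_eq_one_of_pow (pow_pos hp.out.pos _).ne' hζ.pow_eq_one
  refine ⟨∏ i ∈ range (p ^ (s * p ^ e)), (1 - C (ζ ^ i) * X), ?_, ?_, ?_, ?_⟩
  · refine (natDegree_prod_le _ _).trans ?_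
    calc ∑ i ∈ range (p ^ (s * p ^ e)), (1 - C (ζ ^ i) * X : 𝕜[X]).natDegree
        ≤ ∑ i ∈ range (p ^ (s * p ^ e)), 1 := by
          refine Finset.sum_le_sum fun i _ => ?_
          refine (natDegree_sub_le _ _).trans ?_
          rw [natDegree_one]
          exact max_le (Nat.zero_le _) ((natDegree_C_mul_le _ _).trans natDegree_X_le)
      _ = p ^ (s * p ^ e) := by simp
  · rw [coeff_zero_eq_eval_zero, eval_prod]
    simp
  · refine CoeffLe.prod _ _ fun i _ => CoeffLe.factor ?_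
    rw [norm_pow, hz, one_pow]
  · intro T hT
    have hpos : p ^ (s * p ^ e + e) ≠ 0 := (pow_pos hp.out.pos _).ne'
    have : NeZero (p ^ (s * p ^ e + e)) := ⟨hpos⟩
    obtain ⟨x, -, hx⟩ := hζ.eq_pow_of_pow_eq_one hT
    have h1 : ‖(∏ i ∈ range (p ^ (s * p ^ e)), (1 - C (ζ ^ i) * X : 𝕜[X])).eval T‖ =
        ∏ i ∈ range (p ^ (s * p ^ e)), ‖1 - ζ ^ (x + i)‖ := by
      rw [eval_prod, norm_prod]
      refine Finset.prod_congr rfl fun i _ => ?_
      rw [eval_sub, eval_one, eval_mul, eval_C, eval_X, ← hx, ← pow_add, add_comm]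
    rw [h1]
    have h2 := prod_bound e (s * p ^ e) ζ hζ x
    rw [pow_mul ‖(p : 𝕜)‖] at h2
    exact (pow_le_pow_iff_left₀ (Finset.prod_nonneg fun _ _ => norm_nonneg _)
      (pow_nonneg (norm_nonneg _) _) (pow_pos hp.out.pos _).ne').1 h2

end Pool.Agent.H91.Schr
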