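import Mathlib
import Pool.Agent.H91.SchrPoly

/-!
# Characters of ℚ_p and the half step
-/

open Finset Polynomial

namespace Pool.Agent.H91.Schr

variable {p : ℕ} [hp : Fact p.Prime] {𝕜 : Type*} [NormedField 𝕜] [IsUltrametricDist 𝕜]

omit [IsUltrametricDist 𝕜] in
/-- The kernel of a nontrivial smooth character is a ball. -/
theorem exists_kernel (ψ : AddChar ℚ_[p] 𝕜) (ho : IsOpen {x | ψ x = 1}) (hn : ∃ x, ψ x ≠ 1) :
    ∃ κ : ℚ_[p], κ ≠ 0 ∧ ∀ x, ψ x = 1 ↔ ‖x‖ ≤ ‖κ‖ := by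
  classical
  obtain ⟨x0, hx0⟩ := hn
  have hx00 : x0 ≠ 0 := by
    rintro rfl; exact hx0 (AddChar.map_zero_eq_one ψ)
  rw [Metric.isOpen_iff] at ho
  obtain ⟨ε, hε, hball⟩ := ho 0 (AddChar.map_zero_eq_one ψ)
  have hp1 : (1 : ℝ) < p := by exact_mod_cast hp.out.one_lt
  have hp0 : (0 : ℝ) < p := by linarith
  -- the property
  let B : ℚ_[p] → Prop := fun y => ∀ x, ‖x‖ ≤ ‖y‖ → ψ x = 1
  have hex : ∃ n : ℕ, B ((p : ℚ_[p]) ^ n * x0) := by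
    have hpos : 0 < ‖x0‖ := norm_pos_iff.2 hx00
    obtain ⟨n, hn⟩ := exists_pow_lt_of_lt_one (div_pos hε hpos) (inv_lt_one_of_one_lt₀ hp1)
    refine ⟨n, fun x hx => hball ?_⟩
    rw [Metric.mem_ball, dist_zero_right]
    refine lt_of_le_of_lt hx ?_
    rw [norm_mul, norm_pow, Padic.norm_p]
    rwa [lt_div_iff₀ hpos] at hn
  set n := Nat.find hex with hndef
  have hBn : B ((p : ℚ_[p]) ^ n * x0) := Nat.find_spec hex
  have hn0 : n ≠ 0 := by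
    intro h0
    rw [h0, pow_zero, one_mul] at hBn
    exact hx0 (hBn x0 le_rfl)
  have hpne : (p : ℚ_[p]) ≠ 0 := by exact_mod_cast hp.out.ne_zero
  have hκ : (p : ℚ_[p]) ^ n * x0 ≠ 0 := mul_ne_zero (pow_ne_zero _ hpne) hx00
  refine ⟨(p : ℚ_[p]) ^ n * x0, hκ, fun x => ⟨fun hx => ?_, fun hx => hBn x hx⟩⟩
  by_contra hlt
  push Not at hlt
  have hxne : x ≠ 0 := by
    rintro rfl
    rw [norm_zero] at hlt
    exact absurd hlt (not_lt.2 (norm_nonneg _))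
  have hxpos : 0 < ‖x‖ := norm_pos_iff.2 hxne
  -- B x holds
  have hBx : B x := by
    intro y hy
    have hz : ‖y / x‖ ≤ 1 := by
      rw [norm_div]; exact div_le_one_of_le₀ hy (norm_nonneg _)
    set z : ℤ_[p] := ⟨y / x, hz⟩ with hzdef
    have hδ : 0 < ‖(p : ℚ_[p]) ^ n * x0‖ / ‖x‖ := div_pos (norm_pos_iff.2 hκ) hxpos
    obtain ⟨c, hc⟩ := (PadicInt.denseRange_natCast (p := p)).exists_dist_lt z hδ
    rw [dist_eq_norm] at hc
    have h1 : y = x * (c : ℚ_[p]) + x * (y / x - c) := by field_simp; ring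
    have h2 : ψ (x * (y / x - c)) = 1 := by
      apply hBn
      rw [norm_mul]
      have : ‖(z - (c : ℤ_[p]))‖ = ‖y / x - (c : ℚ_[p])‖ := by
        have h5 : ((z - (c : ℤ_[p]) : ℤ_[p]) : ℚ_[p]) = y / x - (c : ℚ_[p]) := by
          rw [PadicInt.coe_sub, PadicInt.coe_natCast]
        rw [PadicInt.norm_def, h5]
      rw [this] at hc
      rw [mul_comm]
      exact ((lt_div_iff₀ hxpos).1 hc).le
    rw [h1, AddChar.map_add_eq_mul, h2, mul_one, mul_comm, ← nsmul_eq_mul,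
      AddChar.map_nsmul_eq_pow, hx, one_pow]
  have hle : ‖(p : ℚ_[p]) ^ (n - 1) * x0‖ ≤ ‖x‖ := by
    by_contra hcon
    push Not at hcon
    have hyne : (p : ℚ_[p]) ^ (n - 1) * x0 ≠ 0 := mul_ne_zero (pow_ne_zero _ hpne) hx00
    have hypos : 0 < ‖(p : ℚ_[p]) ^ (n - 1) * x0‖ := norm_pos_iff.2 hyne
    have h3 : ‖x / ((p : ℚ_[p]) ^ (n - 1) * x0)‖ < (p : ℝ) ^ ((-1 : ℤ) + 1) := by
      rw [norm_div, div_lt_iff₀ hypos]; simpa using hcon
    rw [← Padic.norm_le_pow_iff_norm_lt_pow_add_one] at h3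
    rw [norm_div, div_le_iff₀ hypos] at h3
    have h4 : (p : ℚ_[p]) ^ n * x0 = p * ((p : ℚ_[p]) ^ (n - 1) * x0) := by
      conv_lhs => rw [← Nat.sub_add_cancel (Nat.one_le_iff_ne_zero.2 hn0), pow_succ]
      ring
    rw [h4, norm_mul, Padic.norm_p] at hlt
    rw [zpow_neg, zpow_one] at h3
    exact absurd h3 (not_le.2 hlt)
  have hB' : B ((p : ℚ_[p]) ^ (n - 1) * x0) := fun w hw => hBx w (hw.trans hle)
  exact Nat.find_min hex (m := n - 1) (by omega) hB'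

omit [IsUltrametricDist 𝕜] in
/-- Values of a character give primitive roots of unity. -/
theorem primitive_of_char {ψ : AddChar ℚ_[p] 𝕜} {κ : ℚ_[p]} (hκ : κ ≠ 0)
    (hψ : ∀ x, ψ x = 1 ↔ ‖x‖ ≤ ‖κ‖) (m : ℕ) :
    IsPrimitiveRoot (ψ (κ * ((p : ℚ_[p]) ^ m)⁻¹)) (p ^ m) := by
  have hpne : (p : ℚ_[p]) ≠ 0 := by exact_mod_cast hp.out.ne_zero
  have hp1 : (1 : ℝ) < p := by exact_mod_cast hp.out.one_lt
  have hp0 : (0 : ℝ) < p := by linarith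
  have hκpos : 0 < ‖κ‖ := norm_pos_iff.2 hκ
  have key : ∀ k : ℕ, ψ (κ * ((p : ℚ_[p]) ^ m)⁻¹) ^ k = 1 ↔ p ^ m ∣ k := by
    intro k
    rw [← AddChar.map_nsmul_eq_pow, hψ, nsmul_eq_mul, norm_mul, norm_mul, norm_inv, norm_pow,
      Padic.norm_p]
    have h1 : ‖(k : ℚ_[p])‖ ≤ (p : ℝ) ^ (-(m : ℤ)) ↔ p ^ m ∣ k := by
      have := Padic.norm_int_le_pow_iff_dvd (p := p) (k : ℤ) m
      rw [← Int.natCast_dvd_natCast]
      push_cast at this ⊢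
      exact this
    rw [← h1, zpow_neg, zpow_natCast]
    have hpm : (0 : ℝ) < (p : ℝ) ^ m := pow_pos hp0 m
    rw [inv_pow, inv_inv]
    constructor
    · intro h
      rw [← one_div, le_div_iff₀ hpm]
      have h2 : ‖(k : ℚ_[p])‖ * (p : ℝ) ^ m * ‖κ‖ ≤ 1 * ‖κ‖ := by linarith
      exact le_of_mul_le_mul_right h2 hκpos
    · intro h
      rw [← one_div, le_div_iff₀ hpm] at h
      calc ‖(k : ℚ_[p])‖ * (‖κ‖ * (p : ℝ) ^ m) = (‖(k : ℚ_[p])‖ * (p : ℝ) ^ m) * ‖κ‖ := by ring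
        _ ≤ 1 * ‖κ‖ := by gcongr
        _ = ‖κ‖ := one_mul _
  exact ⟨(key _).2 dvd_rfl, fun l hl => (key l).1 hl⟩

/-- For 0 < i ≤ p ^ j the norm of i is at least p ^ (-j). -/
theorem norm_natCast_ge {i j : ℕ} (hi : 0 < i) (hij : i ≤ p ^ j) :
    ((p : ℝ) ^ j)⁻¹ ≤ ‖(i : ℚ_[p])‖ := by
  by_contra hcon
  push Not at hcon
  have h1 : ‖(i : ℚ_[p])‖ < (p : ℝ) ^ (-((j : ℤ) + 1) + 1) := by
    rw [show (-((j : ℤ) + 1) + 1) = -(j : ℤ) by ring, zpow_neg, zpow_natCast]; exact hcon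
  rw [← Padic.norm_le_pow_iff_norm_lt_pow_add_one] at h1
  have h2 := (Padic.norm_int_le_pow_iff_dvd (p := p) (i : ℤ) (j + 1)).1 (by
    push_cast; exact h1)
  have h3 : p ^ (j + 1) ∣ i := by exact_mod_cast h2
  have h4 := Nat.le_of_dvd hi h3
  have h5 : p ^ j < p ^ (j + 1) := Nat.pow_lt_pow_right hp.out.one_lt (Nat.lt_succ_self j)
  omega

/-- The half step: averaging a functional along one direction. -/
theorem half_step {E : Type*} [AddCommGroup E] [Module 𝕜 E] (A B : ℚ_[p] → E →ₗ[𝕜] E)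
    {ψ : AddChar ℚ_[p] 𝕜} {κ : ℚ_[p]} (hκ : κ ≠ 0) (hψ : ∀ x, ψ x = 1 ↔ ‖x‖ ≤ ‖κ‖)
    (hA : ∀ z z' f, A (z + z') f = A z (A z' f)) (hA0 : ∀ f, A 0 f = f)
    (hAB : ∀ z t f, A z (B t f) = ψ (z * t) • B t (A z f))
    (lam : E →ₗ[𝕜] 𝕜) (v0 : E) {q q' : ℚ_[p]} (hq : q ≠ 0) (hq' : q' ≠ 0)
    (hlA : ∀ f, lam (A q f) = lam f) (hlB : ∀ f, lam (B q' f) = lam f) (hv : B q' v0 = v0)
    (s : ℕ) :
    ∃ (c : ℕ → 𝕜) (D : ℕ) (y : ℚ_[p]), (∀ i, ‖c i‖ ≤ 1) ∧ y ≠ 0 ∧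
      (∑ i ∈ range (D + 1), c i * lam (A (i * y) v0) = lam v0) ∧
      ∀ (h : E) (τ : 𝕜), A y h = τ • h →
        ‖∑ i ∈ range (D + 1), c i * lam (A (i * y) h)‖ ≤ ‖(p : 𝕜)‖ ^ s * ‖lam h‖ := by
  have hpne : (p : ℚ_[p]) ≠ 0 := by exact_mod_cast hp.out.ne_zero
  have hp1 : (1 : ℝ) < p := by exact_mod_cast hp.out.one_lt
  have hp0 : (0 : ℝ) < p := by linarith
  have hqpos : 0 < ‖q‖ := norm_pos_iff.2 hq
  have hqpos' : 0 < ‖q'‖ := norm_pos_iff.2 hq'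
  obtain ⟨e, he⟩ := pow_unbounded_of_one_lt (‖κ‖ / (‖q‖ * ‖q'‖)) hp1
  rw [div_lt_iff₀ (mul_pos hqpos hqpos')] at he
  obtain ⟨P, hdeg, hP0, hPc, hPT⟩ := exists_poly s e (primitive_of_char hκ hψ (s * p ^ e + e))
  set j := s * p ^ e with hj
  set y : ℚ_[p] := q * ((p : ℚ_[p]) ^ (j + e))⁻¹ with hy
  have hyq : ((p ^ (j + e) : ℕ) : ℚ_[p]) * y = q := by
    rw [hy]; push_cast
    field_simp
  have hyn : ‖y‖ = ‖q‖ * (p : ℝ) ^ (j + e) := by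
    rw [hy, norm_mul, norm_inv, norm_pow, Padic.norm_p, inv_pow, inv_inv]
  have hpow : ∀ (h : E) (τ : 𝕜), A y h = τ • h → ∀ i : ℕ, A (i * y) h = τ ^ i • h := by
    intro h τ hτ i
    induction i with
    | zero => simp [hA0]
    | succ i ih =>
      have : ((i + 1 : ℕ) : ℚ_[p]) * y = i * y + y := by push_cast; ring
      rw [this, hA, hτ, map_smul, ih, smul_smul, pow_succ]
      congr 1; ring
  refine ⟨P.coeff, p ^ j, y, hPc, mul_ne_zero hq (inv_ne_zero (pow_ne_zero _ hpne)), ?_, ?_⟩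
  · rw [Finset.sum_range_succ']
    have h1 : ∀ i ∈ range (p ^ j), P.coeff (i + 1) * lam (A (((i + 1 : ℕ) : ℚ_[p]) * y) v0) = 0 := by
      intro i hi
      rw [mem_range] at hi
      set z : ℚ_[p] := ((i + 1 : ℕ) : ℚ_[p]) * y with hz
      have h2 : lam (A z v0) = ψ (z * q') * lam (A z v0) := by
        conv_lhs => rw [← hv, hAB, map_smul, smul_eq_mul, hlB]
      have h3 : ψ (z * q') ≠ 1 := by
        rw [Ne, hψ, not_le, norm_mul, hz, norm_mul, hyn]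
        have h4 := norm_natCast_ge (p := p) (i := i + 1) (j := j) (Nat.succ_pos _) (by omega)
        calc ‖κ‖ < (p : ℝ) ^ e * (‖q‖ * ‖q'‖) := he
          _ = ((p : ℝ) ^ j)⁻¹ * (‖q‖ * (p : ℝ) ^ (j + e)) * ‖q'‖ := by
            rw [pow_add]; field_simp
          _ ≤ ‖((i + 1 : ℕ) : ℚ_[p])‖ * (‖q‖ * (p : ℝ) ^ (j + e)) * ‖q'‖ := by gcongr
      have h5 : (1 - ψ (z * q')) * lam (A z v0) = 0 := by
        rw [sub_mul, one_mul, ← h2, sub_self]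
      rcases mul_eq_zero.1 h5 with h6 | h6
      · exact absurd (sub_eq_zero.1 h6).symm h3
      · rw [h6, mul_zero]
    rw [Finset.sum_eq_zero h1, zero_add, hP0, one_mul]
    simp [hA0]
  · intro h τ hτ
    have h1 : ∑ i ∈ range (p ^ j + 1), P.coeff i * lam (A (i * y) h) = P.eval τ * lam h := by
      rw [eval_eq_sum_range' (Nat.lt_succ_of_le hdeg), Finset.sum_mul]
      refine Finset.sum_congr rfl fun i _ => ?_
      rw [hpow h τ hτ i, map_smul, smul_eq_mul]; ring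
    rw [h1, norm_mul]
    by_cases hl : lam h = 0
    · simp [hl]
    · have h2 : τ ^ (p ^ (j + e)) = 1 := by
        have h3 := hpow h τ hτ (p ^ (j + e))
        rw [hyq] at h3
        have h4 := hlA h
        rw [h3, map_smul, smul_eq_mul] at h4
        exact mul_right_cancel₀ hl (by rw [h4, one_mul])
      gcongr
      exact hPT τ h2

end Pool.Agent.H91.Schr
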