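import Mathlib
import Pool.Agent.H91.SchrDefs
import Pool.Agent.H91.SchrStep

/-!
# Basic properties of the Schrödinger representation
-/

open scoped Matrix
open Finset

namespace Pool.Agent.H91.Schr

variable {p : ℕ} [hp : Fact p.Prime] {d : ℕ} {𝕜 : Type*} [NormedField 𝕜]

/-- the symplectic form -/
noncomputable def om (u v : Fin d ⊕ Fin d → ℚ_[p]) : ℚ_[p] :=
  (fun i => u (Sum.inl i)) ⬝ᵥ (fun i => v (Sum.inr i))
    - (fun i => u (Sum.inr i)) ⬝ᵥ (fun i => v (Sum.inl i))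

theorem rho_apply (ψ : AddChar ℚ_[p] 𝕜) (hψ : IsOpen {x | ψ x = 1}) (w : Fin d ⊕ Fin d → ℚ_[p])
    (t : ℚ_[p]) (f : Schwartz p d 𝕜) (x : Fin d → ℚ_[p]) :
    (rho ψ hψ w t f).1 x =
      ψ (t + (1 / 2) * ((fun i => w (Sum.inl i)) ⬝ᵥ (fun i => w (Sum.inr i)))
      + (fun i => w (Sum.inr i)) ⬝ᵥ x) * f.1 (x + fun i => w (Sum.inl i)) := rfl

theorem rho_mul (ψ : AddChar ℚ_[p] 𝕜) (hψ : IsOpen {x | ψ x = 1})
    (u v : Fin d ⊕ Fin d → ℚ_[p]) (s t : ℚ_[p]) (f : Schwartz p d 𝕜) :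
    rho ψ hψ u s (rho ψ hψ v t f) = ψ ((1 / 2) * om u v) • rho ψ hψ (u + v) (s + t) f := by
  apply Subtype.ext
  funext x
  rw [Submodule.coe_smul, Pi.smul_apply, smul_eq_mul, rho_apply, rho_apply, rho_apply, ← mul_assoc,
    ← mul_assoc, ← AddChar.map_add_eq_mul, ← AddChar.map_add_eq_mul]
  congr 1
  · congr 1
    have h1 : (fun i => (u + v) (Sum.inl i)) = (fun i => u (Sum.inl i)) + fun i => v (Sum.inl i) := rfl
    have h2 : (fun i => (u + v) (Sum.inr i)) = (fun i => u (Sum.inr i)) + fun i => v (Sum.inr i) := rfl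
    rw [h1, h2, om]
    simp only [add_dotProduct, dotProduct_add]
    rw [dotProduct_comm (fun i => v (Sum.inr i)) (fun i => u (Sum.inl i)),
      dotProduct_comm (fun i => u (Sum.inr i)) (fun i => v (Sum.inl i))]
    ring
  · congr 1
    rw [add_assoc]; rfl

theorem om_comm (u v : Fin d ⊕ Fin d → ℚ_[p]) : om v u = - om u v := by
  simp only [om]
  rw [dotProduct_comm (fun i => v (Sum.inl i)), dotProduct_comm (fun i => v (Sum.inr i))]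
  ring

theorem om_add_right (u v w : Fin d ⊕ Fin d → ℚ_[p]) : om u (v + w) = om u v + om u w := by
  have h1 : (fun i => (v + w) (Sum.inl i)) = (fun i => v (Sum.inl i)) + fun i => w (Sum.inl i) := rfl
  have h2 : (fun i => (v + w) (Sum.inr i)) = (fun i => v (Sum.inr i)) + fun i => w (Sum.inr i) := rfl
  rw [om, h1, h2, dotProduct_add, dotProduct_add, om, om]; ring

theorem om_smul_left (c : ℚ_[p]) (u v : Fin d ⊕ Fin d → ℚ_[p]) : om (c • u) v = c * om u v := by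
  have h1 : (fun i => (c • u) (Sum.inl i)) = c • (fun i => u (Sum.inl i)) := rfl
  have h2 : (fun i => (c • u) (Sum.inr i)) = c • (fun i => u (Sum.inr i)) := rfl
  rw [om, h1, h2, smul_dotProduct, smul_dotProduct, om, smul_eq_mul, smul_eq_mul]; ring

theorem rho_comm (ψ : AddChar ℚ_[p] 𝕜) (hψ : IsOpen {x | ψ x = 1})
    (u v : Fin d ⊕ Fin d → ℚ_[p]) (f : Schwartz p d 𝕜) :
    rho ψ hψ u 0 (rho ψ hψ v 0 f) = ψ (om u v) • rho ψ hψ v 0 (rho ψ hψ u 0 f) := by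
  rw [rho_mul, rho_mul, smul_smul, ← AddChar.map_add_eq_mul, om_comm u v, add_comm v u]
  congr 2
  ring

theorem rho_t (ψ : AddChar ℚ_[p] 𝕜) (hψ : IsOpen {x | ψ x = 1})
    (w : Fin d ⊕ Fin d → ℚ_[p]) (t : ℚ_[p]) (f : Schwartz p d 𝕜) :
    rho ψ hψ w t f = ψ t • rho ψ hψ w 0 f := by
  apply Subtype.ext
  funext x
  rw [Submodule.coe_smul, Pi.smul_apply, smul_eq_mul, rho_apply, rho_apply, ← mul_assoc,
    ← AddChar.map_add_eq_mul]
  congr 2; ring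

theorem rho_zero (ψ : AddChar ℚ_[p] 𝕜) (hψ : IsOpen {x | ψ x = 1}) (f : Schwartz p d 𝕜) :
    rho ψ hψ 0 0 f = f := by
  apply Subtype.ext
  funext x
  rw [rho_apply]
  have h1 : (fun i : Fin d => (0 : Fin d ⊕ Fin d → ℚ_[p]) (Sum.inl i)) = 0 := rfl
  have h2 : (fun i : Fin d => (0 : Fin d ⊕ Fin d → ℚ_[p]) (Sum.inr i)) = 0 := rfl
  rw [h1, h2, zero_dotProduct, zero_dotProduct]
  simp

theorem norm_char {ψ : AddChar ℚ_[p] 𝕜} {κ : ℚ_[p]} (hκ : κ ≠ 0)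
    (hψ : ∀ x, ψ x = 1 ↔ ‖x‖ ≤ ‖κ‖) (x : ℚ_[p]) : ‖ψ x‖ = 1 := by
  have hp1 : (1 : ℝ) < p := by exact_mod_cast hp.out.one_lt
  have hκpos : 0 < ‖κ‖ := norm_pos_iff.2 hκ
  obtain ⟨m, hm⟩ := pow_unbounded_of_one_lt (‖x‖ / ‖κ‖) hp1
  rw [div_lt_iff₀ hκpos] at hm
  have h1 : ψ x ^ (p ^ m) = 1 := by
    rw [← AddChar.map_nsmul_eq_pow, hψ, nsmul_eq_mul, norm_mul]
    push_cast
    rw [norm_pow, Padic.norm_p, inv_pow]
    have : (0 : ℝ) < (p : ℝ) ^ m := pow_pos (by linarith) m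
    rw [← div_eq_inv_mul, div_le_iff₀ this]
    linarith
  exact norm_eq_one_of_pow (pow_pos hp.out.pos _).ne' h1

variable (i0 : Fin d)

/-- the vector z e_1 -/
noncomputable def eA (z : ℚ_[p]) : Fin d ⊕ Fin d → ℚ_[p] := Pi.single (Sum.inl i0) z

/-- the vector z f_1 -/
noncomputable def eB (z : ℚ_[p]) : Fin d ⊕ Fin d → ℚ_[p] := Pi.single (Sum.inr i0) z

theorem eA_inl (z : ℚ_[p]) : (fun i => eA i0 z (Sum.inl i)) = Pi.single i0 z := by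
  funext i
  by_cases h : i = i0
  · subst h; simp [eA]
  · rw [Pi.single_eq_of_ne h, eA, Pi.single_eq_of_ne (by simpa using h)]

theorem eA_inr (z : ℚ_[p]) : (fun i => eA i0 z (Sum.inr i)) = 0 := by
  funext i
  rw [eA, Pi.single_eq_of_ne (by simp)]; rfl

theorem eB_inr (z : ℚ_[p]) : (fun i => eB i0 z (Sum.inr i)) = Pi.single i0 z := by
  funext i
  by_cases h : i = i0
  · subst h; simp [eB]
  · rw [Pi.single_eq_of_ne h, eB, Pi.single_eq_of_ne (by simpa using h)]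

theorem eB_inl (z : ℚ_[p]) : (fun i => eB i0 z (Sum.inl i)) = 0 := by
  funext i
  rw [eB, Pi.single_eq_of_ne (by simp)]; rfl

theorem eA_add (z z' : ℚ_[p]) : eA i0 (z + z') = eA i0 z + eA i0 z' := by
  rw [eA, Pi.single_add]; rfl

theorem eB_add (z z' : ℚ_[p]) : eB i0 (z + z') = eB i0 z + eB i0 z' := by
  rw [eB, Pi.single_add]; rfl

theorem om_eA (z : ℚ_[p]) (w : Fin d ⊕ Fin d → ℚ_[p]) : om (eA i0 z) w = z * w (Sum.inr i0) := by
  rw [om, eA_inl, eA_inr, zero_dotProduct, sub_zero, single_dotProduct]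

theorem om_eB (z : ℚ_[p]) (w : Fin d ⊕ Fin d → ℚ_[p]) :
    om (eB i0 z) w = - (z * w (Sum.inl i0)) := by
  rw [om, eB_inl, eB_inr, zero_dotProduct, zero_sub, single_dotProduct]

theorem om_right_eA (z : ℚ_[p]) (w : Fin d ⊕ Fin d → ℚ_[p]) :
    om w (eA i0 z) = - (z * w (Sum.inr i0)) := by
  rw [om_comm, om_eA]

theorem om_right_eB (z : ℚ_[p]) (w : Fin d ⊕ Fin d → ℚ_[p]) :
    om w (eB i0 z) = z * w (Sum.inl i0) := by
  rw [om_comm, om_eB, neg_neg]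

theorem eA_inl0 (z : ℚ_[p]) : eA i0 z (Sum.inl i0) = z := by simp [eA]
theorem eA_inr0 (z : ℚ_[p]) : eA i0 z (Sum.inr i0) = 0 := by simp [eA]
theorem eB_inl0 (z : ℚ_[p]) : eB i0 z (Sum.inl i0) = 0 := by simp [eB]
theorem eB_inr0 (z : ℚ_[p]) : eB i0 z (Sum.inr i0) = z := by simp [eB]

theorem rho_eA_apply (ψ : AddChar ℚ_[p] 𝕜) (hψ : IsOpen {x | ψ x = 1}) (z : ℚ_[p])
    (f : Schwartz p d 𝕜) (x : Fin d → ℚ_[p]) :
    (rho ψ hψ (eA i0 z) 0 f).1 x = f.1 (x + Pi.single i0 z) := by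
  rw [rho_apply, eA_inl, eA_inr, dotProduct_zero, zero_dotProduct]
  simp

theorem rho_eB_apply (ψ : AddChar ℚ_[p] 𝕜) (hψ : IsOpen {x | ψ x = 1}) (z : ℚ_[p])
    (f : Schwartz p d 𝕜) (x : Fin d → ℚ_[p]) :
    (rho ψ hψ (eB i0 z) 0 f).1 x = ψ (z * x i0) * f.1 x := by
  rw [rho_apply, eB_inl, eB_inr, zero_dotProduct, single_dotProduct]
  simp

theorem rho_eA_add (ψ : AddChar ℚ_[p] 𝕜) (hψ : IsOpen {x | ψ x = 1}) (z z' : ℚ_[p])
    (f : Schwartz p d 𝕜) : rho ψ hψ (eA i0 (z + z')) 0 f =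
      rho ψ hψ (eA i0 z) 0 (rho ψ hψ (eA i0 z') 0 f) := by
  rw [rho_mul, om_eA, eA_inr0, ← eA_add]
  simp

theorem rho_eB_add (ψ : AddChar ℚ_[p] 𝕜) (hψ : IsOpen {x | ψ x = 1}) (z z' : ℚ_[p])
    (f : Schwartz p d 𝕜) : rho ψ hψ (eB i0 (z + z')) 0 f =
      rho ψ hψ (eB i0 z) 0 (rho ψ hψ (eB i0 z') 0 f) := by
  rw [rho_mul, om_eB, eB_inl0, ← eB_add]
  simp

theorem eA_zero : eA i0 (0 : ℚ_[p]) = 0 := Pi.single_zero _
theorem eB_zero : eB i0 (0 : ℚ_[p]) = 0 := Pi.single_zero _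

end Pool.Agent.H91.Schr
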