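import Mathlib
import Pool.Agent.H91.SchrBasic

/-!
# The initial functional: f ↦ ∫ over ℤ_p of f(x e_1)
-/

open scoped Matrix
open Finset

namespace Pool.Agent.H91.Schr

variable {p : ℕ} [hp : Fact p.Prime] {d : ℕ} {𝕜 : Type*} [NormedField 𝕜]

/-- f is constant on the cosets of p^n ℤ_p^d -/
def Per (n : ℕ) (f : (Fin d → ℚ_[p]) → 𝕜) : Prop :=
  ∀ x y : Fin d → ℚ_[p], ‖y‖ ≤ ((p : ℝ) ^ n)⁻¹ → f (x + y) = f x

omit [NormedField 𝕜] in
theorem Per.mono {n m : ℕ} {f : (Fin d → ℚ_[p]) → 𝕜} (h : Per n f) (hnm : n ≤ m) : Per m f := by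
  intro x y hy
  refine h x y (hy.trans ?_)
  have hp1 : (1 : ℝ) < p := by exact_mod_cast hp.out.one_lt
  have h0 : (0 : ℝ) < (p : ℝ) ^ n := pow_pos (by linarith) n
  gcongr
  exact hp1.le

theorem exists_per (f : Schwartz p d 𝕜) : ∃ n, Per n f.1 := by
  obtain ⟨hlc, hcs⟩ := f.2
  have hp1 : (1 : ℝ) < p := by exact_mod_cast hp.out.one_lt
  obtain ⟨δ, hδ, hcov⟩ := lebesgue_number_lemma_of_metric (s := tsupport f.1)
    (c := fun v : 𝕜 => {x | f.1 x = v}) hcs (fun v => hlc.isOpen_fiber v)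
    (fun x _ => Set.mem_iUnion.2 ⟨f.1 x, rfl⟩)
  obtain ⟨n, hn⟩ := pow_unbounded_of_one_lt δ⁻¹ hp1
  refine ⟨n, fun x y hy => ?_⟩
  have hyδ : ‖y‖ < δ := lt_of_le_of_lt hy (inv_lt_of_inv_lt₀ hδ hn)
  by_cases hx : x ∈ tsupport f.1
  · obtain ⟨v, hv⟩ := hcov x hx
    have h1 : f.1 x = v := hv (Metric.mem_ball_self hδ)
    have h2 : f.1 (x + y) = v := hv (by rw [Metric.mem_ball, dist_eq_norm]; simpa using hyδ)
    rw [h1, h2]
  · by_cases hxy : x + y ∈ tsupport f.1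
    · obtain ⟨v, hv⟩ := hcov (x + y) hxy
      have h1 : f.1 (x + y) = v := hv (Metric.mem_ball_self hδ)
      have h2 : f.1 x = v := hv (by
        rw [Metric.mem_ball, dist_eq_norm]
        have : x - (x + y) = -y := by abel
        rw [this, norm_neg]; exact hyδ)
      rw [h1, h2]
    · rw [image_eq_zero_of_notMem_tsupport hx, image_eq_zero_of_notMem_tsupport hxy]

theorem exists_bound (f : Schwartz p d 𝕜) : ∃ C : ℝ, 0 ≤ C ∧ ∀ x, ‖f.1 x‖ ≤ C := by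
  obtain ⟨C, hC⟩ := f.2.2.exists_bound_of_continuous f.2.1.continuous
  exact ⟨C, (norm_nonneg _).trans (hC 0), hC⟩

theorem exists_supp (f : Schwartz p d 𝕜) : ∃ m : ℕ, ∀ x, f.1 x ≠ 0 → ‖x‖ ≤ (p : ℝ) ^ m := by
  obtain ⟨R, hR⟩ := f.2.2.isBounded.exists_norm_le
  have hp1 : (1 : ℝ) < p := by exact_mod_cast hp.out.one_lt
  obtain ⟨m, hm⟩ := pow_unbounded_of_one_lt R hp1
  exact ⟨m, fun x hx => (hR x (subset_tsupport _ hx)).trans hm.le⟩

variable (i0 : Fin d)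

/-- the average of f over the points 0, 1, ..., p^n - 1 of the first axis -/
noncomputable def avg (n : ℕ) (f : (Fin d → ℚ_[p]) → 𝕜) : 𝕜 :=
  ((p : 𝕜) ^ n)⁻¹ * ∑ i ∈ range (p ^ n), f (Pi.single i0 (i : ℚ_[p]))

theorem sum_range_mul {M : Type*} [AddCommMonoid M] (f : ℕ → M) (m : ℕ) : ∀ n,
    ∑ i ∈ range (n * m), f i = ∑ i' ∈ range n, ∑ c ∈ range m, f (m * i' + c) := by
  intro n
  induction n with
  | zero => simp
  | succ n ih =>
    rw [Finset.sum_range_succ, ← ih, add_mul, one_mul, Finset.sum_range_add]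
    congr 1
    refine Finset.sum_congr rfl fun c _ => ?_
    rw [mul_comm]

theorem norm_pow_p (n : ℕ) : ‖((p : ℚ_[p]) ^ n)‖ = ((p : ℝ) ^ n)⁻¹ := by
  rw [norm_pow, Padic.norm_p, inv_pow]

theorem norm_single_pow (n i : ℕ) :
    ‖(Pi.single i0 ((p : ℚ_[p]) ^ n * i) : Fin d → ℚ_[p])‖ ≤ ((p : ℝ) ^ n)⁻¹ := by
  rw [Pi.norm_single, norm_mul, norm_pow_p]
  have : ‖(i : ℚ_[p])‖ ≤ 1 := by
    exact_mod_cast Padic.norm_int_le_one (p := p) (i : ℤ)
  have h0 : (0 : ℝ) ≤ ((p : ℝ) ^ n)⁻¹ := by positivity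
  calc ((p : ℝ) ^ n)⁻¹ * ‖(i : ℚ_[p])‖ ≤ ((p : ℝ) ^ n)⁻¹ * 1 := by gcongr
    _ = _ := mul_one _

theorem avg_eq [CharZero 𝕜] {n m : ℕ} {f : (Fin d → ℚ_[p]) → 𝕜} (h : Per n f) (hnm : n ≤ m) :
    avg i0 m f = avg i0 n f := by
  have hp0 : (p : 𝕜) ≠ 0 := by exact_mod_cast hp.out.ne_zero
  obtain ⟨l, rfl⟩ := Nat.exists_eq_add_of_le hnm
  unfold avg
  have h1 : p ^ (n + l) = p ^ l * p ^ n := by rw [pow_add]; ring
  rw [h1, sum_range_mul]
  have h2 : ∀ i' ∈ range (p ^ l), ∑ c ∈ range (p ^ n),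
      f (Pi.single i0 ((p ^ n * i' + c : ℕ) : ℚ_[p])) =
      ∑ c ∈ range (p ^ n), f (Pi.single i0 (c : ℚ_[p])) := by
    intro i' _
    refine Finset.sum_congr rfl fun c _ => ?_
    have h3 : (Pi.single i0 ((p ^ n * i' + c : ℕ) : ℚ_[p]) : Fin d → ℚ_[p]) =
        Pi.single i0 (c : ℚ_[p]) + Pi.single i0 ((p : ℚ_[p]) ^ n * i') := by
      rw [← Pi.single_add]; push_cast; congr 1; ring
    rw [h3]
    exact h _ _ (norm_single_pow i0 n i')
  rw [Finset.sum_congr rfl h2, Finset.sum_const, card_range, nsmul_eq_mul, pow_add]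
  push_cast
  field_simp

/-- the functional λ₀ -/
noncomputable def lam0Fun (f : Schwartz p d 𝕜) : 𝕜 :=
  avg i0 (Classical.choose (exists_per f)) f.1

theorem lam0Fun_eq [CharZero 𝕜] (f : Schwartz p d 𝕜) {n : ℕ} (h : Per n f.1) :
    lam0Fun i0 f = avg i0 n f.1 := by
  have h1 := Classical.choose_spec (exists_per f)
  unfold lam0Fun
  rw [← avg_eq i0 h1 (le_max_left _ n), ← avg_eq i0 h (le_max_right (Classical.choose (exists_per f)) n)]

/-- the functional λ₀, the integral over ℤ_p of f(x e_1) -/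
noncomputable def lam0 [CharZero 𝕜] : Schwartz p d 𝕜 →ₗ[𝕜] 𝕜 where
  toFun := lam0Fun i0
  map_add' f g := by
    obtain ⟨n, hn⟩ := exists_per f
    obtain ⟨m, hm⟩ := exists_per g
    have hf := hn.mono (le_max_left n m)
    have hg := hm.mono (le_max_right n m)
    have hfg : Per (max n m) (f + g).1 := by
      intro x y hy
      have h1 : (f + g).1 (x + y) = f.1 (x + y) + g.1 (x + y) := rfl
      rw [h1, hf x y hy, hg x y hy]; rfl
    rw [lam0Fun_eq i0 _ hfg, lam0Fun_eq i0 _ hf, lam0Fun_eq i0 _ hg]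
    unfold avg
    rw [← mul_add, ← Finset.sum_add_distrib]; rfl
  map_smul' c f := by
    obtain ⟨n, hf⟩ := exists_per f
    have hfg : Per n (c • f).1 := by
      intro x y hy
      have h1 : (c • f).1 (x + y) = c • f.1 (x + y) := rfl
      rw [h1, hf x y hy]; rfl
    rw [lam0Fun_eq i0 _ hfg, lam0Fun_eq i0 _ hf]
    unfold avg
    have h2 : ∑ i ∈ range (p ^ n), (c • f).1 (Pi.single i0 (i : ℚ_[p])) =
        c * ∑ i ∈ range (p ^ n), f.1 (Pi.single i0 (i : ℚ_[p])) := by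
      rw [Finset.mul_sum]; rfl
    rw [h2, RingHom.id_apply, smul_eq_mul]; ring

theorem lam0_eq [CharZero 𝕜] (f : Schwartz p d 𝕜) {n : ℕ} (h : Per n f.1) :
    lam0 i0 f = avg i0 n f.1 := lam0Fun_eq i0 f h

theorem norm_sub_le_max' {E : Type*} [SeminormedAddCommGroup E] [IsUltrametricDist E] (a b : E) :
    ‖a - b‖ ≤ max ‖a‖ ‖b‖ := by
  have := IsUltrametricDist.norm_add_le_max a (-b)
  rwa [norm_neg, ← sub_eq_add_neg] at this

theorem exists_nat_approx {z : ℚ_[p]} (hz : ‖z‖ ≤ 1) {ε : ℝ} (hε : 0 < ε) :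
    ∃ c : ℕ, ‖z - c‖ < ε := by
  set z' : ℤ_[p] := ⟨z, hz⟩ with hz'
  obtain ⟨c, hc⟩ := (PadicInt.denseRange_natCast (p := p)).exists_dist_lt z' hε
  refine ⟨c, ?_⟩
  rw [dist_eq_norm, PadicInt.norm_def, PadicInt.coe_sub, PadicInt.coe_natCast] at hc
  exact hc

theorem sum_shift {M : Type*} [AddCommMonoid M] (g : ℕ → M) (N : ℕ) (h : ∀ i, g (i + N) = g i) (c : ℕ) :
    ∑ i ∈ range N, g (i + c) = ∑ i ∈ range N, g i := by
  induction c with
  | zero => simp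
  | succ c ih =>
    rw [← ih]
    rcases Nat.eq_zero_or_pos N with h0 | h0
    · simp [h0]
    · obtain ⟨M', rfl⟩ := Nat.exists_eq_succ_of_ne_zero h0.ne'
      rw [Finset.sum_range_succ, Finset.sum_range_succ' (fun i => g (i + c))]
      congr 1
      · refine Finset.sum_congr rfl fun i _ => ?_
        congr 1; ring
      · have := h (0 + c)
        rw [← this]; congr 1; simp only [Nat.succ_eq_add_one]; ring

theorem lam0_eA [CharZero 𝕜] (ψ : AddChar ℚ_[p] 𝕜) (hψ : IsOpen {x | ψ x = 1}) {z : ℚ_[p]}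
    (hz : ‖z‖ ≤ 1) (f : Schwartz p d 𝕜) :
    lam0 i0 (rho ψ hψ (eA i0 z) 0 f) = lam0 i0 f := by
  obtain ⟨n, hn⟩ := exists_per f
  have hn' : Per n (rho ψ hψ (eA i0 z) 0 f).1 := by
    intro x y hy
    rw [rho_eA_apply, rho_eA_apply, add_right_comm]
    exact hn _ _ hy
  rw [lam0_eq i0 _ hn, lam0_eq i0 _ hn']
  unfold avg
  congr 1
  -- approximate z by a natural number
  have hp1 : (1 : ℝ) < p := by exact_mod_cast hp.out.one_lt
  have hε : 0 < ((p : ℝ) ^ n)⁻¹ := inv_pos.2 (pow_pos (by linarith) n)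
  obtain ⟨c, hc⟩ := exists_nat_approx hz hε
  have h1 : ∀ i ∈ range (p ^ n), (rho ψ hψ (eA i0 z) 0 f).1 (Pi.single i0 (i : ℚ_[p])) =
      f.1 (Pi.single i0 ((i + c : ℕ) : ℚ_[p])) := by
    intro i _
    rw [rho_eA_apply]
    have h3 : (Pi.single i0 (i : ℚ_[p]) + Pi.single i0 z : Fin d → ℚ_[p]) =
        Pi.single i0 ((i + c : ℕ) : ℚ_[p]) + Pi.single i0 (z - c) := by
      rw [← Pi.single_add, ← Pi.single_add]; push_cast; congr 1; ring
    rw [h3]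
    refine hn _ _ ?_
    rw [Pi.norm_single]; exact hc.le
  rw [Finset.sum_congr rfl h1]
  refine sum_shift (fun i => f.1 (Pi.single i0 (i : ℚ_[p]))) (p ^ n) ?_ c
  intro i
  have h3 : (Pi.single i0 ((i + p ^ n : ℕ) : ℚ_[p]) : Fin d → ℚ_[p]) =
      Pi.single i0 (i : ℚ_[p]) + Pi.single i0 ((p : ℚ_[p]) ^ n * (1 : ℕ)) := by
    rw [← Pi.single_add]; push_cast; congr 1; ring
  show f.1 (Pi.single i0 ((i + p ^ n : ℕ) : ℚ_[p])) = f.1 (Pi.single i0 (i : ℚ_[p]))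
  rw [h3]
  exact hn _ _ (norm_single_pow i0 n 1)

theorem lam0_eB [CharZero 𝕜] (ψ : AddChar ℚ_[p] 𝕜) (hψ : IsOpen {x | ψ x = 1}) {κ : ℚ_[p]}
    (hκ : ∀ x, ψ x = 1 ↔ ‖x‖ ≤ ‖κ‖) {z : ℚ_[p]}
    (hz : ‖z‖ ≤ ‖κ‖) (f : Schwartz p d 𝕜) :
    lam0 i0 (rho ψ hψ (eB i0 z) 0 f) = lam0 i0 f := by
  obtain ⟨n, hn⟩ := exists_per f
  obtain ⟨m, hm⟩ := exists_per (rho ψ hψ (eB i0 z) 0 f)
  rw [lam0_eq i0 _ (hn.mono (le_max_left n m)), lam0_eq i0 _ (hm.mono (le_max_right n m))]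
  unfold avg
  congr 1
  refine Finset.sum_congr rfl fun i _ => ?_
  rw [rho_eB_apply, Pi.single_eq_same, (hκ _).2, one_mul]
  rw [norm_mul]
  have : ‖(i : ℚ_[p])‖ ≤ 1 := by
    exact_mod_cast Padic.norm_int_le_one (p := p) (i : ℤ)
  calc ‖z‖ * ‖(i : ℚ_[p])‖ ≤ ‖z‖ * 1 := by gcongr
    _ ≤ ‖κ‖ := by rw [mul_one]; exact hz

/-- main bound for λ₀ -/
theorem lam0_bound [CharZero 𝕜] [IsUltrametricDist 𝕜] (hpn : ‖(p : 𝕜)‖ = (p : ℝ)⁻¹)
    (ψ : AddChar ℚ_[p] 𝕜)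
    (hψ : IsOpen {x | ψ x = 1}) {κ : ℚ_[p]} (hκ0 : κ ≠ 0) (hκ : ∀ x, ψ x = 1 ↔ ‖x‖ ≤ ‖κ‖)
    (f : Schwartz p d 𝕜) {n : ℕ} {C : ℝ} (hC : 0 ≤ C) (hfC : ∀ x, ‖f.1 x‖ ≤ C)
    (hf : ∀ x z, ‖z‖ ≤ ((p : ℝ) ^ n)⁻¹ → f.1 (x + Pi.single i0 z) = f.1 x)
    (w : Fin d ⊕ Fin d → ℚ_[p]) : ‖lam0 i0 (rho ψ hψ w 0 f)‖ ≤ (p : ℝ) ^ n * C := by
  have hp1 : (1 : ℝ) < p := by exact_mod_cast hp.out.one_lt
  have hp0 : (0 : ℝ) < p := by linarith
  have hpk : (p : 𝕜) ≠ 0 := by exact_mod_cast hp.out.ne_zero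
  have hκpos : 0 < ‖κ‖ := norm_pos_iff.2 hκ0
  set b := w (Sum.inr i0) with hb
  obtain ⟨m0, hm0⟩ := exists_per (rho ψ hψ w 0 f)
  obtain ⟨m1, hm1⟩ := pow_unbounded_of_one_lt (‖b‖ / ‖κ‖) hp1
  set m := max n (max m0 m1) with hm
  have hnm : n ≤ m := le_max_left _ _
  have hPer : Per m (rho ψ hψ w 0 f).1 := hm0.mono ((le_max_left _ _).trans (le_max_right _ _))
  have hbm : ψ (b * (p : ℚ_[p]) ^ m) = 1 := by
    rw [hκ, norm_mul, norm_pow_p]
    have h1 : (p : ℝ) ^ m1 ≤ (p : ℝ) ^ m :=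
      pow_le_pow_right₀ hp1.le ((le_max_right m0 m1).trans (le_max_right n _))
    rw [div_lt_iff₀ hκpos] at hm1
    rw [mul_inv_le_iff₀ (pow_pos hp0 m)]
    nlinarith
  obtain ⟨l, hl⟩ := Nat.exists_eq_add_of_le hnm
  rw [lam0_eq i0 _ hPer]
  unfold avg
  have h1 : p ^ m = p ^ l * p ^ n := by rw [hl, pow_add]; ring
  rw [h1, sum_range_mul]
  set T := ψ (b * (p : ℚ_[p]) ^ n) with hT
  have hTl : T ^ (p ^ l) = 1 := by
    rw [hT, ← AddChar.map_nsmul_eq_pow, nsmul_eq_mul]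
    push_cast
    rw [← hbm, hl, pow_add]
    congr 1; ring
  have h2 : ∀ i' ∈ range (p ^ l), ∑ c ∈ range (p ^ n),
      (rho ψ hψ w 0 f).1 (Pi.single i0 ((p ^ n * i' + c : ℕ) : ℚ_[p])) =
      T ^ i' * ∑ c ∈ range (p ^ n), (rho ψ hψ w 0 f).1 (Pi.single i0 (c : ℚ_[p])) := by
    intro i' _
    rw [Finset.mul_sum]
    refine Finset.sum_congr rfl fun c _ => ?_
    have h3 : (Pi.single i0 ((p ^ n * i' + c : ℕ) : ℚ_[p]) : Fin d → ℚ_[p]) =
        Pi.single i0 (c : ℚ_[p]) + Pi.single i0 ((p : ℚ_[p]) ^ n * i') := by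
      rw [← Pi.single_add]; push_cast; congr 1; ring
    have h4 : ψ ((fun i => w (Sum.inr i)) ⬝ᵥ Pi.single i0 ((p : ℚ_[p]) ^ n * i')) = T ^ i' := by
      rw [dotProduct_single, hT, ← AddChar.map_nsmul_eq_pow, nsmul_eq_mul]
      congr 1; ring
    have h5 : ‖(p : ℚ_[p]) ^ n * i'‖ ≤ ((p : ℝ) ^ n)⁻¹ := by
      have := norm_single_pow (p := p) i0 n i'
      rwa [Pi.norm_single] at this
    have h6 : f.1 ((Pi.single i0 (c : ℚ_[p]) + Pi.single i0 ((p : ℚ_[p]) ^ n * i'))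
        + fun i => w (Sum.inl i)) = f.1 (Pi.single i0 (c : ℚ_[p]) + fun i => w (Sum.inl i)) := by
      rw [add_right_comm]; exact hf _ _ h5
    rw [rho_apply, rho_apply, h3, h6, dotProduct_add, ← add_assoc, AddChar.map_add_eq_mul, h4]
    ring
  rw [Finset.sum_congr rfl h2, ← Finset.sum_mul]
  -- the geometric sum
  have h5 : ‖((p : 𝕜) ^ m)⁻¹ * ∑ i' ∈ range (p ^ l), T ^ i'‖ ≤ (p : ℝ) ^ n := by
    by_cases hT1 : T = 1
    · rw [hT1]
      simp only [one_pow, Finset.sum_const, card_range, nsmul_eq_mul, mul_one]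
      rw [hl, pow_add, mul_inv]
      push_cast
      rw [inv_mul_cancel_right₀ (pow_ne_zero _ hpk), norm_inv, norm_pow, hpn, inv_pow, inv_inv]
    · have : ∑ i' ∈ range (p ^ l), T ^ i' = 0 := by
        have h6 := mul_geom_sum T (p ^ l)
        rw [hTl, sub_self] at h6
        exact (mul_eq_zero.1 h6).resolve_left (sub_ne_zero.2 hT1)
      rw [this, mul_zero, norm_zero]
      positivity
  rw [← mul_assoc, norm_mul]
  refine mul_le_mul h5 ?_ (norm_nonneg _) (by positivity)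
  apply IsUltrametricDist.norm_sum_le_of_forall_le_of_nonneg hC
  intro c _
  rw [rho_apply, norm_mul, norm_char hκ0 hκ, one_mul]
  exact hfC _

theorem lam0_one [CharZero 𝕜] (r : Fin d → ℤ) (hr : ∀ i, 0 ≤ r i) : lam0 i0 (ind 𝕜 r : Schwartz p d 𝕜) = 1 := by
  have hp1 : (1 : ℝ) < p := by exact_mod_cast hp.out.one_lt
  have hpk : (p : 𝕜) ≠ 0 := by exact_mod_cast hp.out.ne_zero
  have hind : Per 0 (ind 𝕜 r : Schwartz p d 𝕜).1 := by
    intro x y hy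
    rw [pow_zero, inv_one] at hy
    have hiff : x + y ∈ box (p := p) r ↔ x ∈ box (p := p) r := by
      have hy' : ∀ i, ‖y i‖ ≤ (p : ℝ) ^ (r i) := fun i =>
        ((norm_le_pi_norm y i).trans hy).trans (one_le_zpow₀ hp1.le (hr i))
      constructor
      · intro h i
        have h1 := h i
        have : x i = (x + y) i - y i := by simp
        rw [this]
        refine (norm_sub_le_max' _ _).trans (max_le h1 (hy' i))
      · intro h i
        exact (IsUltrametricDist.norm_add_le_max _ _).trans (max_le (h i) (hy' i))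
    show Set.indicator (box r) (fun _ => (1 : 𝕜)) (x + y) = Set.indicator (box r) (fun _ => (1 : 𝕜)) x
    by_cases h : x ∈ box (p := p) r
    · rw [Set.indicator_of_mem (hiff.2 h), Set.indicator_of_mem h]
    · rw [Set.indicator_of_notMem (fun h' => h (hiff.1 h')), Set.indicator_of_notMem h]
  rw [lam0_eq i0 _ hind]
  unfold avg
  simp only [pow_zero, range_one, sum_singleton, inv_one, one_mul, Nat.cast_zero]
  simp only [ind]
  rw [Set.indicator_of_mem]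
  intro i
  simp only [Pi.single_zero, Pi.zero_apply, norm_zero]
  positivity

end Pool.Agent.H91.Schr
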