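import Mathlib
import Pool.Agent.H91.SchrLam

/-!
# Good functionals and the inductive step
-/

open scoped Matrix
open Finset

namespace Pool.Agent.H91.Schr

variable {p : ℕ} [hp : Fact p.Prime] {d : ℕ} {𝕜 : Type*} [NormedField 𝕜]

/-- lam' is bounded by every bound for lam on an orbit. -/
def Le (ψ : AddChar ℚ_[p] 𝕜) (hψ : IsOpen {x | ψ x = 1}) (lam' lam : Schwartz p d 𝕜 →ₗ[𝕜] 𝕜) :
    Prop :=
  ∀ f (C : ℝ), (∀ w, ‖lam (rho ψ hψ w 0 f)‖ ≤ C) → ∀ w, ‖lam' (rho ψ hψ w 0 f)‖ ≤ C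

theorem Le.refl {ψ : AddChar ℚ_[p] 𝕜} {hψ : IsOpen {x | ψ x = 1}}
    (lam : Schwartz p d 𝕜 →ₗ[𝕜] 𝕜) : Le ψ hψ lam lam := fun _ _ h => h

theorem Le.trans {ψ : AddChar ℚ_[p] 𝕜} {hψ : IsOpen {x | ψ x = 1}}
    {l1 l2 l3 : Schwartz p d 𝕜 →ₗ[𝕜] 𝕜} (h1 : Le ψ hψ l1 l2) (h2 : Le ψ hψ l2 l3) :
    Le ψ hψ l1 l3 := fun f C h => h1 f C (h2 f C h)

theorem gen_step [IsUltrametricDist 𝕜] {ψ : AddChar ℚ_[p] 𝕜} {hψ : IsOpen {x | ψ x = 1}}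
    {κ : ℚ_[p]} (hκ0 : κ ≠ 0) (hκ : ∀ x, ψ x = 1 ↔ ‖x‖ ≤ ‖κ‖)
    (e e' : ℚ_[p] → (Fin d ⊕ Fin d → ℚ_[p])) (he0 : e 0 = 0)
    (hadd : ∀ z z', e (z + z') = e z + e z') (hee : ∀ z z', om (e z) (e z') = 0)
    (χ : AddChar ℚ_[p] 𝕜) (hχ : ∀ x, χ x = 1 ↔ ‖x‖ ≤ ‖κ‖)
    (hχψ : ∀ z t, ψ (om (e z) (e' t)) = χ (z * t))
    (lam : Schwartz p d 𝕜 →ₗ[𝕜] 𝕜) (v0 : Schwartz p d 𝕜) {qa qb qv : ℚ_[p]}
    (hqa : qa ≠ 0) (hqb : qb ≠ 0) (hqv : qv ≠ 0)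
    (hla : ∀ z, ‖z‖ ≤ ‖qa‖ → ∀ f, lam (rho ψ hψ (e z) 0 f) = lam f)
    (hlb : ∀ z, ‖z‖ ≤ ‖qb‖ → ∀ f, lam (rho ψ hψ (e' z) 0 f) = lam f)
    (hv : ∀ z, ‖z‖ ≤ ‖qv‖ → rho ψ hψ (e' z) 0 v0 = v0) (s : ℕ) :
    ∃ (lam' : Schwartz p d 𝕜 →ₗ[𝕜] 𝕜) (y : ℚ_[p]) (qb' : ℚ_[p]), qb' ≠ 0 ∧
      Le ψ hψ lam' lam ∧ lam' v0 = lam v0 ∧
      (∀ z, ‖z‖ ≤ ‖qa‖ → ∀ f, lam' (rho ψ hψ (e z) 0 f) = lam' f) ∧
      (∀ z, ‖z‖ ≤ ‖qb'‖ → ∀ f, lam' (rho ψ hψ (e' z) 0 f) = lam' f) ∧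
      ∀ h, rho ψ hψ (e y) 0 h = h → ∀ w, ‖lam' (rho ψ hψ w 0 h)‖ ≤
        ‖(p : 𝕜)‖ ^ s * ‖lam (rho ψ hψ w 0 h)‖ := by
  have hp1 : (1 : ℝ) < p := by exact_mod_cast hp.out.one_lt
  have hp0 : (0 : ℝ) < p := by linarith
  have hpne : (p : ℚ_[p]) ≠ 0 := by exact_mod_cast hp.out.ne_zero
  -- a small element q'
  have small : ∀ (a b : ℚ_[p]), a ≠ 0 → b ≠ 0 → ∃ c : ℚ_[p], c ≠ 0 ∧ ‖c‖ ≤ ‖a‖ ∧ ‖c‖ ≤ ‖b‖ := by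
    intro a b ha hb
    rcases le_total ‖a‖ ‖b‖ with h | h
    · exact ⟨a, ha, le_rfl, h⟩
    · exact ⟨b, hb, h, le_rfl⟩
  obtain ⟨q', hq'0, hq'b, hq'v⟩ := small qb qv hqb hqv
  have hA : ∀ z z' (f : Schwartz p d 𝕜), rho ψ hψ (e (z + z')) 0 f =
      rho ψ hψ (e z) 0 (rho ψ hψ (e z') 0 f) := by
    intro z z' f
    rw [rho_mul, hee, ← hadd]; simp
  have hA0 : ∀ f : Schwartz p d 𝕜, rho ψ hψ (e 0) 0 f = f := by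
    intro f; rw [he0, rho_zero]
  have hAB : ∀ z t (f : Schwartz p d 𝕜), rho ψ hψ (e z) 0 (rho ψ hψ (e' t) 0 f) =
      χ (z * t) • rho ψ hψ (e' t) 0 (rho ψ hψ (e z) 0 f) := by
    intro z t f
    rw [rho_comm, hχψ]
  obtain ⟨c, D, y, hc, hy, hone, htest⟩ := half_step (𝕜 := 𝕜) (fun z => rho ψ hψ (e z) 0)
    (fun z => rho ψ hψ (e' z) 0) hκ0 hχ hA hA0 hAB lam v0 hqa hq'0 (hla qa le_rfl)
    (hlb q' hq'b) (hv q' hq'v) s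
  have happ : ∀ f, (∑ i ∈ range (D + 1), c i • lam.comp (rho ψ hψ (e (i * y)) 0)) f =
      ∑ i ∈ range (D + 1), c i * lam (rho ψ hψ (e (i * y)) 0 f) := by
    intro f
    rw [LinearMap.sum_apply]
    refine Finset.sum_congr rfl fun i _ => ?_
    rw [LinearMap.smul_apply, LinearMap.comp_apply, smul_eq_mul]
  obtain ⟨m, hm⟩ := pow_unbounded_of_one_lt (‖qb‖ * ‖y‖ / ‖κ‖) hp1
  rw [div_lt_iff₀ (norm_pos_iff.2 hκ0)] at hm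
  have hpm1 : (1 : ℝ) ≤ (p : ℝ) ^ m := one_le_pow₀ hp1.le
  have hpmpos : (0 : ℝ) < (p : ℝ) ^ m := pow_pos hp0 m
  refine ⟨∑ i ∈ range (D + 1), c i • lam.comp (rho ψ hψ (e (i * y)) 0), y,
    qb * (p : ℚ_[p]) ^ m, mul_ne_zero hqb (pow_ne_zero _ hpne), ?_, ?_, ?_, ?_, ?_⟩
  · intro f C hC w
    have hC0 : 0 ≤ C := (norm_nonneg _).trans (hC 0)
    rw [happ]
    apply IsUltrametricDist.norm_sum_le_of_forall_le_of_nonneg hC0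
    intro i _
    rw [rho_mul, map_smul, smul_eq_mul, norm_mul, norm_mul, norm_char hκ0 hκ, one_mul, add_zero]
    calc ‖c i‖ * ‖lam (rho ψ hψ (e (i * y) + w) 0 f)‖ ≤ 1 * C := by
          gcongr
          · exact hc i
          · exact hC _
      _ = C := one_mul C
  · rw [happ]; exact hone
  · intro z hz f
    rw [happ, happ]
    refine Finset.sum_congr rfl fun i _ => ?_
    rw [← hA, add_comm, hA, hla z hz]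
  · intro z hz f
    rw [happ, happ]
    refine Finset.sum_congr rfl fun i _ => ?_
    rw [norm_mul, norm_pow_p] at hz
    have hz1 : ‖z‖ ≤ ‖qb‖ := by
      refine hz.trans ?_
      calc ‖qb‖ * ((p : ℝ) ^ m)⁻¹ ≤ ‖qb‖ * 1 := by
            gcongr
            exact inv_le_one_of_one_le₀ hpm1
        _ = ‖qb‖ := mul_one _
    have h1 : χ (i * y * z) = 1 := by
      rw [hχ, norm_mul, norm_mul]
      have h2 : ‖(i : ℚ_[p])‖ ≤ 1 := by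
        exact_mod_cast Padic.norm_int_le_one (p := p) (i : ℤ)
      calc ‖(i : ℚ_[p])‖ * ‖y‖ * ‖z‖ ≤ 1 * ‖y‖ * (‖qb‖ * ((p : ℝ) ^ m)⁻¹) := by gcongr
        _ = (‖qb‖ * ‖y‖) * ((p : ℝ) ^ m)⁻¹ := by ring
        _ ≤ ((p : ℝ) ^ m * ‖κ‖) * ((p : ℝ) ^ m)⁻¹ := by gcongr
        _ = ‖κ‖ := by field_simp
    rw [hAB, h1, one_smul, hlb z hz1]
  · intro h hh w
    rw [happ]
    refine htest _ (ψ (om (e y) w)) ?_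
    show rho ψ hψ (e y) 0 (rho ψ hψ w 0 h) = _
    rw [rho_comm, hh]

/-- good functionals -/
structure Good (ψ : AddChar ℚ_[p] 𝕜) (hψ : IsOpen {x | ψ x = 1}) (i0 : Fin d) [CharZero 𝕜]
    (lam : Schwartz p d 𝕜 →ₗ[𝕜] 𝕜) : Prop where
  bd : Le ψ hψ lam (lam0 i0)
  one : lam (ind 𝕜 (fun _ => 0)) = 1
  inva : ∃ q : ℚ_[p], q ≠ 0 ∧ ∀ z, ‖z‖ ≤ ‖q‖ → ∀ f, lam (rho ψ hψ (eA i0 z) 0 f) = lam f
  invb : ∃ q : ℚ_[p], q ≠ 0 ∧ ∀ z, ‖z‖ ≤ ‖q‖ → ∀ f, lam (rho ψ hψ (eB i0 z) 0 f) = lam f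

variable (i0 : Fin d)

theorem good_lam0 [CharZero 𝕜] {ψ : AddChar ℚ_[p] 𝕜} {hψ : IsOpen {x | ψ x = 1}}
    {κ : ℚ_[p]} (hκ0 : κ ≠ 0) (hκ : ∀ x, ψ x = 1 ↔ ‖x‖ ≤ ‖κ‖) :
    Good ψ hψ i0 (lam0 (p := p) (𝕜 := 𝕜) i0) where
  bd := Le.refl _
  one := lam0_one i0 _ fun _ => le_rfl
  inva := ⟨1, one_ne_zero, fun z hz f => lam0_eA i0 ψ hψ (by rwa [norm_one] at hz) f⟩
  invb := ⟨κ, hκ0, fun z hz f => lam0_eB i0 ψ hψ hκ hz f⟩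

omit [NormedField 𝕜] in
theorem box_add_single {r : Fin d → ℤ} {z : ℚ_[p]} (hz : ‖z‖ ≤ (p : ℝ) ^ (r i0))
    (x : Fin d → ℚ_[p]) : x + Pi.single i0 z ∈ box (p := p) r ↔ x ∈ box (p := p) r := by
  have key : ∀ i, ‖(x + Pi.single i0 z : Fin d → ℚ_[p]) i‖ ≤ (p : ℝ) ^ (r i) ↔ ‖x i‖ ≤ (p : ℝ) ^ (r i) := by
    intro i
    by_cases h : i = i0
    · subst h
      rw [Pi.add_apply, Pi.single_eq_same]
      constructor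
      · intro h1
        have h2 : x i = (x i + z) - z := by ring
        rw [h2]
        exact (norm_sub_le_max' _ _).trans (max_le h1 hz)
      · intro h1
        exact (IsUltrametricDist.norm_add_le_max _ _).trans (max_le h1 hz)
    · rw [Pi.add_apply, Pi.single_eq_of_ne h, add_zero]
  exact forall_congr' key

theorem ind_apply_add_single {r : Fin d → ℤ} {z : ℚ_[p]} (hz : ‖z‖ ≤ (p : ℝ) ^ (r i0))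
    (x : Fin d → ℚ_[p]) : (ind 𝕜 r).1 (x + Pi.single i0 z) = (ind (p := p) 𝕜 r).1 x := by
  show Set.indicator (box r) (fun _ => (1 : 𝕜)) (x + Pi.single i0 z)
    = Set.indicator (box r) (fun _ => (1 : 𝕜)) x
  by_cases h : x ∈ box (p := p) r
  · rw [Set.indicator_of_mem ((box_add_single i0 hz x).2 h), Set.indicator_of_mem h]
  · rw [Set.indicator_of_notMem (fun h' => h ((box_add_single i0 hz x).1 h')),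
      Set.indicator_of_notMem h]

theorem rho_eA_ind (ψ : AddChar ℚ_[p] 𝕜) (hψ : IsOpen {x | ψ x = 1}) {r : Fin d → ℤ} {z : ℚ_[p]}
    (hz : ‖z‖ ≤ (p : ℝ) ^ (r i0)) : rho ψ hψ (eA i0 z) 0 (ind 𝕜 r) = ind 𝕜 r := by
  apply Subtype.ext
  funext x
  rw [rho_eA_apply, ind_apply_add_single i0 hz]

theorem rho_eB_ind (ψ : AddChar ℚ_[p] 𝕜) (hψ : IsOpen {x | ψ x = 1}) {κ : ℚ_[p]}
    (hκ : ∀ x, ψ x = 1 ↔ ‖x‖ ≤ ‖κ‖) {r : Fin d → ℤ} {z : ℚ_[p]}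
    (hz : ‖z‖ * (p : ℝ) ^ (r i0) ≤ ‖κ‖) : rho ψ hψ (eB i0 z) 0 (ind 𝕜 r) = ind 𝕜 r := by
  apply Subtype.ext
  funext x
  rw [rho_eB_apply]
  show ψ (z * x i0) * Set.indicator (box r) (fun _ => (1 : 𝕜)) x
    = Set.indicator (box r) (fun _ => (1 : 𝕜)) x
  by_cases h : x ∈ box (p := p) r
  · rw [(hκ _).2, one_mul]
    rw [norm_mul]
    calc ‖z‖ * ‖x i0‖ ≤ ‖z‖ * (p : ℝ) ^ (r i0) := by gcongr; exact h i0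
      _ ≤ ‖κ‖ := hz
  · rw [Set.indicator_of_notMem h, mul_zero]

theorem norm_ind_le (r : Fin d → ℤ) (x : Fin d → ℚ_[p]) : ‖(ind 𝕜 r).1 x‖ ≤ 1 := by
  show ‖Set.indicator (box r) (fun _ => (1 : 𝕜)) x‖ ≤ 1
  by_cases h : x ∈ box (p := p) r
  · rw [Set.indicator_of_mem h, norm_one]
  · rw [Set.indicator_of_notMem h, norm_zero]; exact zero_le_one

/-- the test vectors of the first kind -/
noncomputable def fA (k : ℕ) : Schwartz p d 𝕜 := ind 𝕜 (Function.update (fun _ => 0) i0 (k : ℤ))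

/-- the test vectors of the second kind -/
noncomputable def fB (k : ℕ) : Schwartz p d 𝕜 :=
  (p : 𝕜) ^ k • ind 𝕜 (Function.update (fun _ => 0) i0 (-(k : ℤ)))

theorem fA_bound [CharZero 𝕜] [IsUltrametricDist 𝕜] (hpn : ‖(p : 𝕜)‖ = (p : ℝ)⁻¹)
    {ψ : AddChar ℚ_[p] 𝕜} {hψ : IsOpen {x | ψ x = 1}} {κ : ℚ_[p]} (hκ0 : κ ≠ 0)
    (hκ : ∀ x, ψ x = 1 ↔ ‖x‖ ≤ ‖κ‖) (k : ℕ) (w : Fin d ⊕ Fin d → ℚ_[p]) :
    ‖lam0 i0 (rho ψ hψ w 0 (fA i0 k))‖ ≤ 1 := by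
  have hp1 : (1 : ℝ) < p := by exact_mod_cast hp.out.one_lt
  have := lam0_bound i0 hpn ψ hψ hκ0 hκ (fA i0 k) (n := 0) (C := 1) zero_le_one
    (norm_ind_le _) (fun x z hz => ind_apply_add_single i0 (by
      rw [pow_zero, inv_one] at hz
      rw [Function.update_self, zpow_natCast]
      exact hz.trans (one_le_pow₀ hp1.le)) x) w
  simpa using this

theorem fB_bound [CharZero 𝕜] [IsUltrametricDist 𝕜] (hpn : ‖(p : 𝕜)‖ = (p : ℝ)⁻¹)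
    {ψ : AddChar ℚ_[p] 𝕜} {hψ : IsOpen {x | ψ x = 1}} {κ : ℚ_[p]} (hκ0 : κ ≠ 0)
    (hκ : ∀ x, ψ x = 1 ↔ ‖x‖ ≤ ‖κ‖) (k : ℕ) (w : Fin d ⊕ Fin d → ℚ_[p]) :
    ‖lam0 i0 (rho ψ hψ w 0 (fB i0 k))‖ ≤ 1 := by
  have hp1 : (1 : ℝ) < p := by exact_mod_cast hp.out.one_lt
  have hp0 : (0 : ℝ) < p := by linarith
  have hpk : (0 : ℝ) < (p : ℝ) ^ k := pow_pos hp0 k
  have := lam0_bound i0 hpn ψ hψ hκ0 hκ (fB i0 k) (n := k) (C := ((p : ℝ) ^ k)⁻¹)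
    (inv_pos.2 hpk).le
    (fun x => by
      show ‖(p : 𝕜) ^ k • (ind 𝕜 (Function.update (fun _ => 0) i0 (-(k : ℤ)))).1 x‖ ≤ _
      rw [norm_smul, norm_pow, hpn, inv_pow]
      calc ((p : ℝ) ^ k)⁻¹ * ‖(ind 𝕜 (Function.update (fun _ => 0) i0 (-(k : ℤ)))).1 x‖
          ≤ ((p : ℝ) ^ k)⁻¹ * 1 := by gcongr; exact norm_ind_le _ _
        _ = _ := mul_one _)
    (fun x z hz => by
      show (p : 𝕜) ^ k • (ind 𝕜 (Function.update (fun _ => 0) i0 (-(k : ℤ)))).1 (x + Pi.single i0 z)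
        = (p : 𝕜) ^ k • (ind 𝕜 (Function.update (fun _ => 0) i0 (-(k : ℤ)))).1 x
      rw [ind_apply_add_single i0]
      rw [Function.update_self, zpow_neg, zpow_natCast]
      exact hz) w
  rwa [mul_inv_cancel₀ hpk.ne'] at this

theorem rho_eA_fA (ψ : AddChar ℚ_[p] 𝕜) (hψ : IsOpen {x | ψ x = 1}) {k : ℕ} {z : ℚ_[p]}
    (hz : ‖z‖ ≤ (p : ℝ) ^ k) : rho ψ hψ (eA i0 z) 0 (fA i0 k) = fA i0 k := by
  refine rho_eA_ind i0 ψ hψ ?_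
  rw [Function.update_self, zpow_natCast]; exact hz

theorem rho_eB_fB (ψ : AddChar ℚ_[p] 𝕜) (hψ : IsOpen {x | ψ x = 1}) {κ : ℚ_[p]}
    (hκ : ∀ x, ψ x = 1 ↔ ‖x‖ ≤ ‖κ‖) {k : ℕ} {z : ℚ_[p]}
    (hz : ‖z‖ ≤ ‖κ‖ * (p : ℝ) ^ k) : rho ψ hψ (eB i0 z) 0 (fB i0 k) = fB i0 k := by
  have hp1 : (1 : ℝ) < p := by exact_mod_cast hp.out.one_lt
  have hpk : (0 : ℝ) < (p : ℝ) ^ k := pow_pos (by linarith) k
  rw [fB, map_smul, rho_eB_ind i0 ψ hψ hκ]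
  rw [Function.update_self, zpow_neg, zpow_natCast, mul_inv_le_iff₀ hpk]
  exact hz

/-- the inductive step -/
theorem step [CharZero 𝕜] [IsUltrametricDist 𝕜] (hpn : ‖(p : 𝕜)‖ = (p : ℝ)⁻¹)
    {ψ : AddChar ℚ_[p] 𝕜} {hψ : IsOpen {x | ψ x = 1}} {κ : ℚ_[p]} (hκ0 : κ ≠ 0)
    (hκ : ∀ x, ψ x = 1 ↔ ‖x‖ ≤ ‖κ‖) {lam : Schwartz p d 𝕜 →ₗ[𝕜] 𝕜}
    (hlam : Good ψ hψ i0 lam) (s : ℕ) :
    ∃ lam' : Schwartz p d 𝕜 →ₗ[𝕜] 𝕜, Good ψ hψ i0 lam' ∧ Le ψ hψ lam' lam ∧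
      ∃ k0 : ℕ, ∀ k ≥ k0, (∀ w, ‖lam' (rho ψ hψ w 0 (fA i0 k))‖ ≤ ((p : ℝ) ^ s)⁻¹) ∧
        (∀ w, ‖lam' (rho ψ hψ w 0 (fB i0 k))‖ ≤ ((p : ℝ) ^ s)⁻¹) := by
  have hp1 : (1 : ℝ) < p := by exact_mod_cast hp.out.one_lt
  have hp0 : (0 : ℝ) < p := by linarith
  obtain ⟨qa, hqa0, hqa⟩ := hlam.inva
  obtain ⟨qb, hqb0, hqb⟩ := hlam.invb
  -- first half step
  obtain ⟨l1, y1, qb1, hqb1, hle1, hone1, hinva1, hinvb1, htest1⟩ :=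
    gen_step (hψ := hψ) hκ0 hκ (eA i0) (eB i0) (eA_zero i0) (eA_add i0)
      (fun z z' => by rw [om_eA, eA_inr0, mul_zero]) ψ hκ
      (fun z t => by rw [om_eA, eB_inr0]) lam (ind 𝕜 (fun _ => 0)) hqa0 hqb0 hκ0 hqa hqb
      (fun z hz => rho_eB_ind i0 ψ hψ hκ (by simpa using hz)) s
  -- second half step
  have hχ : ∀ x, (ψ⁻¹ : AddChar ℚ_[p] 𝕜) x = 1 ↔ ‖x‖ ≤ ‖κ‖ := by
    intro x
    rw [AddChar.inv_apply, hκ, norm_neg]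
  obtain ⟨l2, y2, qa2, hqa2, hle2, hone2, hinvb2, hinva2, htest2⟩ :=
    gen_step (hψ := hψ) hκ0 hκ (eB i0) (eA i0) (eB_zero i0) (eB_add i0)
      (fun z z' => by rw [om_eB, eB_inl0, mul_zero, neg_zero]) ψ⁻¹ hχ
      (fun z t => by rw [om_eB, eA_inl0, AddChar.inv_apply]) l1 (ind 𝕜 (fun _ => 0)) hqb1 hqa0
      (qv := 1) one_ne_zero hinvb1 hinva1
      (fun z hz => rho_eA_ind i0 ψ hψ (by simpa using hz)) s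
  have hbd1 : Le ψ hψ l1 (lam0 i0) := hle1.trans hlam.bd
  refine ⟨l2, ⟨hle2.trans hbd1, ?_, ⟨qa2, hqa2, hinva2⟩, ⟨qb1, hqb1, hinvb2⟩⟩,
    hle2.trans hle1, ?_⟩
  · rw [hone2, hone1, hlam.one]
  obtain ⟨k1, hk1⟩ := pow_unbounded_of_one_lt ‖y1‖ hp1
  obtain ⟨k2, hk2⟩ := pow_unbounded_of_one_lt (‖y2‖ / ‖κ‖) hp1
  rw [div_lt_iff₀ (norm_pos_iff.2 hκ0)] at hk2
  refine ⟨max k1 k2, fun k hk => ⟨?_, ?_⟩⟩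
  · refine hle2 _ _ fun w => ?_
    have h1 : ‖y1‖ ≤ (p : ℝ) ^ k :=
      hk1.le.trans (pow_le_pow_right₀ hp1.le ((le_max_left _ _).trans hk))
    have h2 := htest1 (fA i0 k) (rho_eA_fA i0 ψ hψ h1) w
    have h3 := hlam.bd (fA i0 k) 1 (fA_bound i0 hpn hκ0 hκ k) w
    refine h2.trans ?_
    rw [hpn, inv_pow]
    calc ((p : ℝ) ^ s)⁻¹ * ‖lam (rho ψ hψ w 0 (fA i0 k))‖ ≤ ((p : ℝ) ^ s)⁻¹ * 1 := by gcongr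
      _ = _ := mul_one _
  · intro w
    have h1 : ‖y2‖ ≤ ‖κ‖ * (p : ℝ) ^ k := by
      have h4 : (p : ℝ) ^ k2 ≤ (p : ℝ) ^ k :=
        pow_le_pow_right₀ hp1.le ((le_max_right _ _).trans hk)
      have h5 : (p : ℝ) ^ k2 * ‖κ‖ ≤ (p : ℝ) ^ k * ‖κ‖ := by gcongr
      linarith
    have h2 := htest2 (fB i0 k) (rho_eB_fB i0 ψ hψ hκ h1) w
    have h3 := hbd1 (fB i0 k) 1 (fB_bound i0 hpn hκ0 hκ k) w
    refine h2.trans ?_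
    rw [hpn, inv_pow]
    calc ((p : ℝ) ^ s)⁻¹ * ‖l1 (rho ψ hψ w 0 (fB i0 k))‖ ≤ ((p : ℝ) ^ s)⁻¹ * 1 := by gcongr
      _ = _ := mul_one _

end Pool.Agent.H91.Schr
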