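import Mathlib
import Pool.Agent.H91.SchrGood

/-!
# Irreducibility of the Schrödinger representation
-/

open scoped Matrix
open Finset

namespace Pool.Agent.H91.Schr

variable {p : ℕ} [hp : Fact p.Prime] {d : ℕ} {𝕜 : Type*} [NormedField 𝕜]

/-- translation vector -/
noncomputable def wT (a : Fin d → ℚ_[p]) : Fin d ⊕ Fin d → ℚ_[p] := Sum.elim a 0

theorem rho_wT_apply (ψ : AddChar ℚ_[p] 𝕜) (hψ : IsOpen {x | ψ x = 1}) (a : Fin d → ℚ_[p])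
    (f : Schwartz p d 𝕜) (x : Fin d → ℚ_[p]) :
    (rho ψ hψ (wT a) 0 f).1 x = f.1 (x + a) := by
  rw [rho_apply]
  have h1 : (fun i => wT a (Sum.inl i)) = a := rfl
  have h2 : (fun i => wT a (Sum.inr i)) = 0 := rfl
  rw [h1, h2, dotProduct_zero, zero_dotProduct]
  simp

theorem mem_box_neg (n : ℕ) (x : Fin d → ℚ_[p]) :
    x ∈ box (p := p) (fun _ : Fin d => -(n : ℤ)) ↔ ‖x‖ ≤ ((p : ℝ) ^ n)⁻¹ := by
  have h0 : (0 : ℝ) ≤ ((p : ℝ) ^ n)⁻¹ := by positivity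
  rw [pi_norm_le_iff_of_nonneg h0]
  simp [box]

theorem ind_neg_apply (n : ℕ) (x : Fin d → ℚ_[p]) :
    (ind 𝕜 (fun _ : Fin d => -(n : ℤ))).1 x = if ‖x‖ ≤ ((p : ℝ) ^ n)⁻¹ then (1 : 𝕜) else 0 := by
  show Set.indicator (box _) (fun _ => (1 : 𝕜)) x = _
  split_ifs with h
  · rw [Set.indicator_of_mem ((mem_box_neg n x).2 h)]
  · rw [Set.indicator_of_notMem (fun h' => h ((mem_box_neg n x).1 h'))]

theorem mem_of_cover {ψ : AddChar ℚ_[p] 𝕜} {hψ : IsOpen {x | ψ x = 1}}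
    (Z : Submodule 𝕜 (Schwartz p d 𝕜)) (hinv : ∀ w, ∀ f ∈ Z, rho ψ hψ w 0 f ∈ Z) {n : ℕ}
    (hind : ind 𝕜 (fun _ => -(n : ℤ)) ∈ Z) (t : Finset (Fin d → ℚ_[p])) :
    ∀ g : Schwartz p d 𝕜, Per n g.1 →
      (∀ x, g.1 x ≠ 0 → ∃ a ∈ t, ‖x - a‖ ≤ ((p : ℝ) ^ n)⁻¹) → g ∈ Z := by
  classical
  induction t using Finset.induction_on with
  | empty =>
    intro g _ hg
    have : g = 0 := by
      apply Subtype.ext
      funext x
      by_contra hx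
      obtain ⟨a, ha, _⟩ := hg x hx
      simp at ha
    rw [this]; exact Z.zero_mem
  | insert a t _ ih =>
    intro g hper hg
    set h := rho ψ hψ (wT (-a)) 0 (ind 𝕜 (fun _ => -(n : ℤ))) with hh
    have hhZ : h ∈ Z := hinv _ _ hind
    have hhx : ∀ x, h.1 x = if ‖x - a‖ ≤ ((p : ℝ) ^ n)⁻¹ then (1 : 𝕜) else 0 := by
      intro x
      rw [hh, rho_wT_apply, ind_neg_apply, ← sub_eq_add_neg]
    have hmem : g - g.1 a • h ∈ Z := by
      apply ih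
      · intro x y hy
        show g.1 (x + y) - g.1 a * h.1 (x + y) = g.1 x - g.1 a * h.1 x
        rw [hper x y hy, hhx, hhx]
        have hiff : ‖x + y - a‖ ≤ ((p : ℝ) ^ n)⁻¹ ↔ ‖x - a‖ ≤ ((p : ℝ) ^ n)⁻¹ := by
          constructor
          · intro h1
            have : x - a = (x + y - a) - y := by abel
            rw [this]
            exact (norm_sub_le_max' _ _).trans (max_le h1 hy)
          · intro h1
            have : x + y - a = (x - a) + y := by abel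
            rw [this]
            exact (IsUltrametricDist.norm_add_le_max _ _).trans (max_le h1 hy)
        simp only [hiff]
      · intro x hx
        have hx' : g.1 x - g.1 a * h.1 x ≠ 0 := hx
        rw [hhx] at hx'
        by_cases hxa : ‖x - a‖ ≤ ((p : ℝ) ^ n)⁻¹
        · exfalso
          rw [if_pos hxa, mul_one] at hx'
          have : g.1 x = g.1 a := by
            have := hper a (x - a) hxa
            rwa [add_sub_cancel] at this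
          rw [this, sub_self] at hx'
          exact hx' rfl
        · rw [if_neg hxa, mul_zero, sub_zero] at hx'
          obtain ⟨b, hb, hxb⟩ := hg x hx'
          rcases Finset.mem_insert.1 hb with rfl | hb'
          · exact absurd hxb hxa
          · exact ⟨b, hb', hxb⟩
    have : g = (g - g.1 a • h) + g.1 a • h := by abel
    rw [this]
    exact Z.add_mem hmem (Z.smul_mem _ hhZ)

theorem mem_of_ind {ψ : AddChar ℚ_[p] 𝕜} {hψ : IsOpen {x | ψ x = 1}}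
    (Z : Submodule 𝕜 (Schwartz p d 𝕜)) (hinv : ∀ w, ∀ f ∈ Z, rho ψ hψ w 0 f ∈ Z) {n : ℕ}
    (hind : ind 𝕜 (fun _ => -(n : ℤ)) ∈ Z) (g : Schwartz p d 𝕜) (hg : Per n g.1) : g ∈ Z := by
  have hp1 : (1 : ℝ) < p := by exact_mod_cast hp.out.one_lt
  have h0 : (0 : ℝ) < ((p : ℝ) ^ n)⁻¹ := inv_pos.2 (pow_pos (by linarith) n)
  obtain ⟨t, -, htfin, ht⟩ := IsCompact.finite_cover_balls (s := tsupport g.1) g.2.2 h0
  refine mem_of_cover Z hinv hind htfin.toFinset g hg fun x hx => ?_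
  have := ht (subset_tsupport _ hx)
  simp only [Set.mem_iUnion] at this
  obtain ⟨a, ha, hxa⟩ := this
  refine ⟨a, htfin.mem_toFinset.2 ha, ?_⟩
  rw [Metric.mem_ball, dist_eq_norm] at hxa
  exact hxa.le

/-- restriction to |x_i| ≤ p^(-n) by averaging over characters -/
theorem cut_mem [CharZero 𝕜] {ψ : AddChar ℚ_[p] 𝕜} {hψ : IsOpen {x | ψ x = 1}}
    {κ : ℚ_[p]} (hκ0 : κ ≠ 0) (hκ : ∀ x, ψ x = 1 ↔ ‖x‖ ≤ ‖κ‖)
    (Z : Submodule 𝕜 (Schwartz p d 𝕜)) (hinv : ∀ w, ∀ f ∈ Z, rho ψ hψ w 0 f ∈ Z)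
    (f : Schwartz p d 𝕜) (hf : f ∈ Z) (n : ℕ) (i : Fin d) :
    ∃ f' ∈ Z, ∀ x, f'.1 x = if ‖x i‖ ≤ ((p : ℝ) ^ n)⁻¹ then f.1 x else 0 := by
  have hp1 : (1 : ℝ) < p := by exact_mod_cast hp.out.one_lt
  have hp0 : (0 : ℝ) < p := by linarith
  have hpne : (p : ℚ_[p]) ≠ 0 := by exact_mod_cast hp.out.ne_zero
  have hpk : (p : 𝕜) ≠ 0 := by exact_mod_cast hp.out.ne_zero
  have hκpos : 0 < ‖κ‖ := norm_pos_iff.2 hκ0
  obtain ⟨m, hm⟩ := exists_supp f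
  set b : ℚ_[p] := κ * ((p : ℚ_[p]) ^ n)⁻¹ with hb
  have hbn : ‖b‖ = ‖κ‖ * (p : ℝ) ^ n := by
    rw [hb, norm_mul, norm_inv, norm_pow_p, inv_inv]
  have hpn : (0 : ℝ) < (p : ℝ) ^ n := pow_pos hp0 n
  refine ⟨((p : 𝕜) ^ (n + m))⁻¹ • ∑ c ∈ range (p ^ (n + m)), rho ψ hψ (eB i (c * b)) 0 f,
    Z.smul_mem _ (Z.sum_mem fun c _ => hinv _ _ hf), fun x => ?_⟩
  have h1 : (((p : 𝕜) ^ (n + m))⁻¹ • ∑ c ∈ range (p ^ (n + m)),
      rho ψ hψ (eB i (c * b)) 0 f).1 x =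
      ((p : 𝕜) ^ (n + m))⁻¹ * ∑ c ∈ range (p ^ (n + m)), ψ (b * x i) ^ c * f.1 x := by
    rw [Submodule.coe_smul, Pi.smul_apply, smul_eq_mul, Submodule.coe_sum, Finset.sum_apply]
    congr 1
    refine Finset.sum_congr rfl fun c _ => ?_
    rw [rho_eB_apply, ← AddChar.map_nsmul_eq_pow, nsmul_eq_mul]
    congr 2; ring
  rw [h1, ← Finset.sum_mul]
  have hT1 : ψ (b * x i) = 1 ↔ ‖x i‖ ≤ ((p : ℝ) ^ n)⁻¹ := by
    rw [hκ, norm_mul, hbn]
    constructor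
    · intro h
      rw [← one_div, le_div_iff₀ hpn]
      have h2 : (‖x i‖ * (p : ℝ) ^ n) * ‖κ‖ ≤ 1 * ‖κ‖ := by linarith
      exact le_of_mul_le_mul_right h2 hκpos
    · intro h
      rw [← one_div, le_div_iff₀ hpn] at h
      nlinarith
  split_ifs with h
  · rw [hT1.2 h]
    simp only [one_pow, Finset.sum_const, card_range, nsmul_eq_mul, mul_one]
    push_cast
    rw [← mul_assoc, inv_mul_cancel₀ (pow_ne_zero _ hpk), one_mul]
  · by_cases hfx : f.1 x = 0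
    · rw [hfx, mul_zero, mul_zero]
    · have h3 : ‖x i‖ ≤ (p : ℝ) ^ m := (norm_le_pi_norm x i).trans (hm x hfx)
      have h4 : ψ (b * x i) ^ (p ^ (n + m)) = 1 := by
        rw [← AddChar.map_nsmul_eq_pow, hκ, nsmul_eq_mul, norm_mul, norm_mul, hbn]
        push_cast
        rw [norm_pow_p, pow_add]
        have hpm : (0 : ℝ) < (p : ℝ) ^ m := pow_pos hp0 m
        rw [mul_inv]
        calc ((p : ℝ) ^ n)⁻¹ * ((p : ℝ) ^ m)⁻¹ * (‖κ‖ * (p : ℝ) ^ n * ‖x i‖)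
            ≤ ((p : ℝ) ^ n)⁻¹ * ((p : ℝ) ^ m)⁻¹ * (‖κ‖ * (p : ℝ) ^ n * (p : ℝ) ^ m) := by gcongr
          _ = ‖κ‖ := by field_simp
      have h5 : ∑ c ∈ range (p ^ (n + m)), ψ (b * x i) ^ c = 0 := by
        have h6 := mul_geom_sum (ψ (b * x i)) (p ^ (n + m))
        rw [h4, sub_self] at h6
        exact (mul_eq_zero.1 h6).resolve_left (sub_ne_zero.2 fun h7 => h (hT1.1 h7))
      rw [h5, zero_mul, mul_zero]

theorem cut_mem_all [CharZero 𝕜] {ψ : AddChar ℚ_[p] 𝕜} {hψ : IsOpen {x | ψ x = 1}}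
    {κ : ℚ_[p]} (hκ0 : κ ≠ 0) (hκ : ∀ x, ψ x = 1 ↔ ‖x‖ ≤ ‖κ‖)
    (Z : Submodule 𝕜 (Schwartz p d 𝕜)) (hinv : ∀ w, ∀ f ∈ Z, rho ψ hψ w 0 f ∈ Z)
    (f : Schwartz p d 𝕜) (hf : f ∈ Z) (n : ℕ) (s : Finset (Fin d)) :
    ∃ f' ∈ Z, ∀ x, f'.1 x = if ∀ i ∈ s, ‖x i‖ ≤ ((p : ℝ) ^ n)⁻¹ then f.1 x else 0 := by
  classical
  induction s using Finset.induction_on with
  | empty => exact ⟨f, hf, fun x => by simp⟩
  | insert a s _ ih =>
    obtain ⟨f1, hf1, h1⟩ := ih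
    obtain ⟨f2, hf2, h2⟩ := cut_mem hκ0 hκ Z hinv f1 hf1 n a
    refine ⟨f2, hf2, fun x => ?_⟩
    rw [h2, h1]
    by_cases ha : ‖x a‖ ≤ ((p : ℝ) ^ n)⁻¹
    · rw [if_pos ha]
      by_cases hs : ∀ i ∈ s, ‖x i‖ ≤ ((p : ℝ) ^ n)⁻¹
      · rw [if_pos hs, if_pos]
        intro i hi
        rcases Finset.mem_insert.1 hi with rfl | hi'
        · exact ha
        · exact hs i hi'
      · rw [if_neg hs, if_neg]
        intro h
        exact hs fun i hi => h i (Finset.mem_insert_of_mem hi)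
    · rw [if_neg ha, if_neg]
      intro h
      exact ha (h a (Finset.mem_insert_self _ _))

/-- The Schrödinger representation is irreducible. -/
theorem irreducible [CharZero 𝕜] {ψ : AddChar ℚ_[p] 𝕜} {hψ : IsOpen {x | ψ x = 1}}
    {κ : ℚ_[p]} (hκ0 : κ ≠ 0) (hκ : ∀ x, ψ x = 1 ↔ ‖x‖ ≤ ‖κ‖)
    (Z : Submodule 𝕜 (Schwartz p d 𝕜)) (hinv : ∀ w, ∀ f ∈ Z, rho ψ hψ w 0 f ∈ Z)
    (f : Schwartz p d 𝕜) (hf : f ∈ Z) (hf0 : f ≠ 0) (g : Schwartz p d 𝕜) : g ∈ Z := by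
  obtain ⟨x0, hx0⟩ : ∃ x0, f.1 x0 ≠ 0 := by
    by_contra hcon
    push Not at hcon
    exact hf0 (Subtype.ext (funext hcon))
  set f1 := rho ψ hψ (wT x0) 0 f with hf1
  have hf1Z : f1 ∈ Z := hinv _ _ hf
  have hf10 : f1.1 0 ≠ 0 := by
    rw [hf1, rho_wT_apply, zero_add]; exact hx0
  obtain ⟨n1, hn1⟩ := exists_per f1
  obtain ⟨n2, hn2⟩ := exists_per g
  set n := max n1 n2 with hn
  have hf1per : Per n f1.1 := hn1.mono (le_max_left _ _)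
  have hgper : Per n g.1 := hn2.mono (le_max_right _ _)
  obtain ⟨f2, hf2Z, hf2⟩ := cut_mem_all hκ0 hκ Z hinv f1 hf1Z n Finset.univ
  have hind : ind 𝕜 (fun _ => -(n : ℤ)) = (f1.1 0)⁻¹ • f2 := by
    apply Subtype.ext
    funext x
    rw [ind_neg_apply]
    show _ = (f1.1 0)⁻¹ * f2.1 x
    rw [hf2]
    have h0 : (0 : ℝ) ≤ ((p : ℝ) ^ n)⁻¹ := by positivity
    have hiff : (∀ i ∈ (Finset.univ : Finset (Fin d)), ‖x i‖ ≤ ((p : ℝ) ^ n)⁻¹) ↔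
        ‖x‖ ≤ ((p : ℝ) ^ n)⁻¹ := by
      rw [pi_norm_le_iff_of_nonneg h0]; simp
    by_cases hx : ‖x‖ ≤ ((p : ℝ) ^ n)⁻¹
    · rw [if_pos hx, if_pos (hiff.2 hx)]
      have := hf1per 0 x hx
      rw [zero_add] at this
      rw [this, inv_mul_cancel₀ hf10]
    · rw [if_neg hx, if_neg (fun h => hx (hiff.1 h)), mul_zero]
  have hindZ : ind 𝕜 (fun _ => -(n : ℤ)) ∈ Z := by
    rw [hind]; exact Z.smul_mem _ hf2Z
  exact mem_of_ind Z hinv hindZ g hgper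

end Pool.Agent.H91.Schr
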