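import Mathlib
import Pool.Agent.H91.SchrIrr

/-!
# The exotic norm
-/

open scoped Matrix
open Finset

namespace Pool.Agent.H91.Schr

variable {p : ℕ} [hp : Fact p.Prime] {d : ℕ} {𝕜 : Type*} [NormedField 𝕜]

theorem exists_seq [CharZero 𝕜] [IsUltrametricDist 𝕜] (hpn : ‖(p : 𝕜)‖ = (p : ℝ)⁻¹)
    (ψ : AddChar ℚ_[p] 𝕜) (hψ : IsOpen {x | ψ x = 1}) {κ : ℚ_[p]} (hκ0 : κ ≠ 0)
    (hκ : ∀ x, ψ x = 1 ↔ ‖x‖ ≤ ‖κ‖) (i0 : Fin d) :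
    ∃ L : ℕ → (Schwartz p d 𝕜 →ₗ[𝕜] 𝕜), (∀ s, Good ψ hψ i0 (L s)) ∧
      (∀ s, Le ψ hψ (L (s + 1)) (L s)) ∧
      ∀ s, ∃ k0 : ℕ, ∀ k ≥ k0,
        (∀ w, ‖L (s + 1) (rho ψ hψ w 0 (fA i0 k))‖ ≤ ((p : ℝ) ^ s)⁻¹) ∧
        (∀ w, ‖L (s + 1) (rho ψ hψ w 0 (fB i0 k))‖ ≤ ((p : ℝ) ^ s)⁻¹) := by
  have H : ∀ (x : {lam : Schwartz p d 𝕜 →ₗ[𝕜] 𝕜 // Good ψ hψ i0 lam}) (s : ℕ),
      ∃ y : {lam : Schwartz p d 𝕜 →ₗ[𝕜] 𝕜 // Good ψ hψ i0 lam}, Le ψ hψ y.1 x.1 ∧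
      ∃ k0 : ℕ, ∀ k ≥ k0, (∀ w, ‖y.1 (rho ψ hψ w 0 (fA i0 k))‖ ≤ ((p : ℝ) ^ s)⁻¹) ∧
        (∀ w, ‖y.1 (rho ψ hψ w 0 (fB i0 k))‖ ≤ ((p : ℝ) ^ s)⁻¹) := by
    intro x s
    obtain ⟨l, hl, hle, hk⟩ := step i0 hpn (hψ := hψ) hκ0 hκ x.2 s
    exact ⟨⟨l, hl⟩, hle, hk⟩
  choose F hF1 hF2 using H
  let L : ℕ → {lam : Schwartz p d 𝕜 →ₗ[𝕜] 𝕜 // Good ψ hψ i0 lam} :=
    fun n => Nat.rec ⟨lam0 i0, good_lam0 i0 hκ0 hκ⟩ (fun n x => F x n) n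
  exact ⟨fun n => (L n).1, fun n => (L n).2, fun n => hF1 (L n) n, fun n => hF2 (L n) n⟩

/-- the norm attached to a sequence of functionals -/
noncomputable def seqNorm (ψ : AddChar ℚ_[p] 𝕜) (hψ : IsOpen {x | ψ x = 1})
    (L : ℕ → (Schwartz p d 𝕜 →ₗ[𝕜] 𝕜)) (f : Schwartz p d 𝕜) : ℝ :=
  sInf {C : ℝ | ∃ j, ∀ w, ‖L j (rho ψ hψ w 0 f)‖ ≤ C}

section
variable {ψ : AddChar ℚ_[p] 𝕜} {hψ : IsOpen {x | ψ x = 1}} {L : ℕ → (Schwartz p d 𝕜 →ₗ[𝕜] 𝕜)}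

theorem seq_bddBelow (f : Schwartz p d 𝕜) :
    BddBelow {C : ℝ | ∃ j, ∀ w, ‖L j (rho ψ hψ w 0 f)‖ ≤ C} :=
  ⟨0, by rintro C ⟨j, hj⟩; exact (norm_nonneg _).trans (hj 0)⟩

theorem seqNorm_le {f : Schwartz p d 𝕜} {C : ℝ} {j : ℕ} (h : ∀ w, ‖L j (rho ψ hψ w 0 f)‖ ≤ C) :
    seqNorm ψ hψ L f ≤ C := csInf_le (seq_bddBelow f) ⟨j, h⟩

theorem seqNorm_nonneg (f : Schwartz p d 𝕜) : 0 ≤ seqNorm ψ hψ L f :=
  Real.sInf_nonneg (by rintro C ⟨j, hj⟩; exact (norm_nonneg _).trans (hj 0))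

theorem le_seq (hL : ∀ s, Le ψ hψ (L (s + 1)) (L s)) {i j : ℕ} (hij : i ≤ j) :
    Le ψ hψ (L j) (L i) := by
  induction j, hij using Nat.le_induction with
  | base => exact Le.refl _
  | succ j _ ih => exact (hL j).trans ih

theorem seq_nonempty [CharZero 𝕜] [IsUltrametricDist 𝕜] (hpn : ‖(p : 𝕜)‖ = (p : ℝ)⁻¹)
    {κ : ℚ_[p]} (hκ0 : κ ≠ 0) (hκ : ∀ x, ψ x = 1 ↔ ‖x‖ ≤ ‖κ‖) {i0 : Fin d}
    (hG : ∀ s, Good ψ hψ i0 (L s)) (f : Schwartz p d 𝕜) :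
    {C : ℝ | ∃ j, ∀ w, ‖L j (rho ψ hψ w 0 f)‖ ≤ C}.Nonempty := by
  obtain ⟨n, hn⟩ := exists_per f
  obtain ⟨C, hC0, hC⟩ := exists_bound f
  refine ⟨(p : ℝ) ^ n * C, 0, (hG 0).bd f _ fun w => ?_⟩
  refine lam0_bound i0 hpn ψ hψ hκ0 hκ f hC0 hC (fun x z hz => hn _ _ ?_) w
  rw [Pi.norm_single]; exact hz

theorem exists_of_lt [CharZero 𝕜] [IsUltrametricDist 𝕜] (hpn : ‖(p : 𝕜)‖ = (p : ℝ)⁻¹)
    {κ : ℚ_[p]} (hκ0 : κ ≠ 0) (hκ : ∀ x, ψ x = 1 ↔ ‖x‖ ≤ ‖κ‖) {i0 : Fin d}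
    (hG : ∀ s, Good ψ hψ i0 (L s)) (hL : ∀ s, Le ψ hψ (L (s + 1)) (L s))
    {f : Schwartz p d 𝕜} {r : ℝ} (h : seqNorm ψ hψ L f < r) :
    ∃ i, ∀ j ≥ i, ∀ w, ‖L j (rho ψ hψ w 0 f)‖ ≤ r := by
  obtain ⟨C, ⟨i, hi⟩, hC⟩ := exists_lt_of_csInf_lt (seq_nonempty hpn hκ0 hκ hG f) h
  exact ⟨i, fun j hj w => (le_seq hL hj f C hi w).trans hC.le⟩

/-- the seminorm properties, invariance, and the norm property -/
theorem seqNorm_props [CharZero 𝕜] [IsUltrametricDist 𝕜] (hpn : ‖(p : 𝕜)‖ = (p : ℝ)⁻¹)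
    {κ : ℚ_[p]} (hκ0 : κ ≠ 0) (hκ : ∀ x, ψ x = 1 ↔ ‖x‖ ≤ ‖κ‖) {i0 : Fin d}
    (hG : ∀ s, Good ψ hψ i0 (L s)) (hL : ∀ s, Le ψ hψ (L (s + 1)) (L s)) :
    IsNorm (seqNorm ψ hψ L) ∧ IsHeisInvariant ψ hψ (seqNorm ψ hψ L) := by
  -- zero
  have hzero : seqNorm ψ hψ L 0 = 0 := by
    apply le_antisymm
    · refine seqNorm_le (j := 0) fun w => ?_
      rw [map_zero, map_zero, norm_zero]
    · exact seqNorm_nonneg 0
  -- add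
  have hadd : ∀ f g, seqNorm ψ hψ L (f + g) ≤ max (seqNorm ψ hψ L f) (seqNorm ψ hψ L g) := by
    intro f g
    refine le_of_forall_gt_imp_ge_of_dense fun r hr => ?_
    obtain ⟨hf, hg⟩ := max_lt_iff.1 hr
    obtain ⟨i1, h1⟩ := exists_of_lt hpn hκ0 hκ hG hL hf
    obtain ⟨i2, h2⟩ := exists_of_lt hpn hκ0 hκ hG hL hg
    refine seqNorm_le (j := max i1 i2) fun w => ?_
    rw [map_add, map_add]
    exact (IsUltrametricDist.norm_add_le_max _ _).trans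
      (max_le (h1 _ (le_max_left _ _) w) (h2 _ (le_max_right _ _) w))
  -- smul
  have hsmul1 : ∀ (c : 𝕜) f, seqNorm ψ hψ L (c • f) ≤ ‖c‖ * seqNorm ψ hψ L f := by
    intro c f
    rcases eq_or_ne c 0 with rfl | hc
    · rw [zero_smul, hzero, norm_zero, zero_mul]
    · have hcpos : 0 < ‖c‖ := norm_pos_iff.2 hc
      rw [mul_comm, ← div_le_iff₀ hcpos]
      refine le_of_forall_gt_imp_ge_of_dense fun r hr => ?_
      obtain ⟨i, hi⟩ := exists_of_lt hpn hκ0 hκ hG hL hr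
      rw [div_le_iff₀ hcpos]
      refine seqNorm_le (j := i) fun w => ?_
      rw [map_smul, map_smul, norm_smul, mul_comm]
      have := hi i le_rfl w
      gcongr
  have hsmul : ∀ (c : 𝕜) f, seqNorm ψ hψ L (c • f) = ‖c‖ * seqNorm ψ hψ L f := by
    intro c f
    rcases eq_or_ne c 0 with rfl | hc
    · rw [zero_smul, hzero, norm_zero, zero_mul]
    · apply le_antisymm (hsmul1 c f)
      have hcpos : 0 < ‖c‖ := norm_pos_iff.2 hc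
      have h1 := hsmul1 c⁻¹ (c • f)
      rw [smul_smul, inv_mul_cancel₀ hc, one_smul, norm_inv] at h1
      rw [← div_eq_inv_mul, le_div_iff₀ hcpos] at h1
      linarith
  -- invariance
  have hinv1 : ∀ w t f, seqNorm ψ hψ L (rho ψ hψ w t f) ≤ seqNorm ψ hψ L f := by
    intro w t f
    refine le_of_forall_gt_imp_ge_of_dense fun r hr => ?_
    obtain ⟨i, hi⟩ := exists_of_lt hpn hκ0 hκ hG hL hr
    refine seqNorm_le (j := i) fun u => ?_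
    rw [rho_mul, rho_t ψ hψ (u + w), smul_smul, map_smul, norm_smul, norm_mul,
      norm_char hκ0 hκ, norm_char hκ0 hκ, one_mul, one_mul]
    exact hi i le_rfl _
  have hinv : IsHeisInvariant ψ hψ (seqNorm ψ hψ L) := by
    intro w t f
    apply le_antisymm (hinv1 w t f)
    have h1 := hinv1 (-w) (-t) (rho ψ hψ w t f)
    rw [rho_mul, neg_add_cancel, neg_add_cancel, rho_zero, hsmul, norm_char hκ0 hκ, one_mul] at h1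
    exact h1
  refine ⟨⟨?_, hsmul, hadd⟩, hinv⟩
  intro f
  constructor
  · intro hf
    by_contra hf0
    -- the kernel is an invariant submodule
    let Z : Submodule 𝕜 (Schwartz p d 𝕜) :=
      { carrier := {f | seqNorm ψ hψ L f = 0}
        zero_mem' := hzero
        add_mem' := by
          intro a b ha hb
          have h1 := hadd a b
          rw [Set.mem_ofPred_eq] at ha hb
          rw [ha, hb, max_self] at h1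
          exact le_antisymm h1 (seqNorm_nonneg _)
        smul_mem' := by
          intro c a ha
          rw [Set.mem_ofPred_eq] at ha ⊢
          rw [hsmul, ha, mul_zero] }
    have hZinv : ∀ w, ∀ f ∈ Z, rho ψ hψ w 0 f ∈ Z := by
      intro w g hg
      show seqNorm ψ hψ L (rho ψ hψ w 0 g) = 0
      rw [hinv]; exact hg
    have hv : ind 𝕜 (fun _ => 0) ∈ Z := irreducible hκ0 hκ Z hZinv f hf hf0 _
    have hv' : seqNorm ψ hψ L (ind 𝕜 (fun _ => 0)) < 1 := by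
      have : seqNorm ψ hψ L (ind 𝕜 (fun _ => 0)) = 0 := hv
      rw [this]; exact zero_lt_one
    obtain ⟨C, ⟨j, hj⟩, hC⟩ := exists_lt_of_csInf_lt (seq_nonempty hpn hκ0 hκ hG _) hv'
    have h1 := hj 0
    rw [rho_zero, (hG j).one, norm_one] at h1
    linarith
  · rintro rfl; exact hzero

end

end Pool.Agent.H91.Schr
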