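import Mathlib
import Pool.Agent.H91.SchrNorm

/-!
# The exotic norm dominates no norm attached to a Lagrangian
-/

open scoped Matrix
open Finset

namespace Pool.Agent.H91.Schr

variable {p : ℕ} [hp : Fact p.Prime] {d : ℕ} {𝕜 : Type*} [NormedField 𝕜]

/-- fixed box functions -/
theorem rho_ind_fixed {ψ : AddChar ℚ_[p] 𝕜} {hψ : IsOpen {x | ψ x = 1}} {κ : ℚ_[p]}
    (hκ : ∀ x, ψ x = 1 ↔ ‖x‖ ≤ ‖κ‖) {r : Fin d → ℤ} {w : Fin d ⊕ Fin d → ℚ_[p]}
    (h1 : ∀ i, ‖w (Sum.inl i)‖ ≤ (p : ℝ) ^ (r i))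
    (h2 : ∀ i, ‖w (Sum.inr i)‖ * (p : ℝ) ^ (r i) ≤ ‖κ‖)
    (h3 : ‖(1 / 2 : ℚ_[p]) * ((fun i => w (Sum.inl i)) ⬝ᵥ (fun i => w (Sum.inr i)))‖ ≤ ‖κ‖) :
    rho ψ hψ w 0 (ind 𝕜 r) = ind 𝕜 r := by
  apply Subtype.ext
  funext x
  rw [rho_apply]
  show _ * Set.indicator (box r) (fun _ => (1 : 𝕜)) (x + fun i => w (Sum.inl i)) =
    Set.indicator (box r) (fun _ => (1 : 𝕜)) x
  have hiff : (x + fun i => w (Sum.inl i)) ∈ box (p := p) r ↔ x ∈ box (p := p) r := by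
    constructor
    · intro h i
      have h4 : x i = (x + fun i => w (Sum.inl i)) i - w (Sum.inl i) := by simp
      rw [h4]
      exact (norm_sub_le_max' _ _).trans (max_le (h i) (h1 i))
    · intro h i
      exact (IsUltrametricDist.norm_add_le_max _ _).trans (max_le (h i) (h1 i))
  by_cases hx : x ∈ box (p := p) r
  · rw [Set.indicator_of_mem (hiff.2 hx), Set.indicator_of_mem hx, mul_one, hκ, zero_add]
    refine (IsUltrametricDist.norm_add_le_max _ _).trans (max_le h3 ?_)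
    rw [dotProduct]
    apply IsUltrametricDist.norm_sum_le_of_forall_le_of_nonneg (norm_nonneg _)
    intro i _
    rw [norm_mul]
    calc ‖w (Sum.inr i)‖ * ‖x i‖ ≤ ‖w (Sum.inr i)‖ * (p : ℝ) ^ (r i) := by gcongr; exact hx i
      _ ≤ ‖κ‖ := h2 i
  · rw [Set.indicator_of_notMem (fun h => hx (hiff.1 h)), Set.indicator_of_notMem hx, mul_zero]

/-- if μ is invariant under l and l fixes h, then μ(ρ(u) h) ≠ 0 only if ψ(ω(l, u)) = 1 -/
theorem char_eq_one {ψ : AddChar ℚ_[p] 𝕜} {hψ : IsOpen {x | ψ x = 1}}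
    {μ : Schwartz p d 𝕜 →ₗ[𝕜] 𝕜} {l u : Fin d ⊕ Fin d → ℚ_[p]} {h : Schwartz p d 𝕜}
    (hl1 : ∀ f, μ (rho ψ hψ l 0 f) = μ f) (hl2 : rho ψ hψ l 0 h = h)
    (hu : μ (rho ψ hψ u 0 h) ≠ 0) : ψ (om l u) = 1 := by
  have h1 : μ (rho ψ hψ u 0 h) = ψ (om l u) * μ (rho ψ hψ u 0 h) := by
    conv_lhs => rw [← hl1, rho_comm, hl2, map_smul, smul_eq_mul]
  have h2 : (1 - ψ (om l u)) * μ (rho ψ hψ u 0 h) = 0 := by
    rw [sub_mul, one_mul, ← h1, sub_self]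
  rcases mul_eq_zero.1 h2 with h3 | h3
  · exact (sub_eq_zero.1 h3).symm
  · exact absurd h3 hu

theorem const_of_rec {ψ : AddChar ℚ_[p] 𝕜} {hψ : IsOpen {x | ψ x = 1}}
    {μ : Schwartz p d 𝕜 →ₗ[𝕜] 𝕜} {h : ℕ → Schwartz p d 𝕜} {e : ℚ_[p] → (Fin d ⊕ Fin d → ℚ_[p])}
    {y : ℕ → ℚ_[p]} {l : ℕ → (Fin d ⊕ Fin d → ℚ_[p])} {K : ℕ} (he0 : e 0 = 0)
    (hrec : ∀ k, h (k + 1) = ∑ i ∈ range p, rho ψ hψ (e (i * y k)) 0 (h k))
    (hl1 : ∀ k ≥ K, ∀ f, μ (rho ψ hψ (l k) 0 f) = μ f)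
    (hl2 : ∀ k ≥ K, rho ψ hψ (l k) 0 (h k) = h k)
    (hl3 : ∀ k ≥ K, ∀ i : ℕ, 0 < i → i < p → ψ (om (l k) (e (i * y k))) ≠ 1)
    {u : Fin d ⊕ Fin d → ℚ_[p]} (hu : μ (rho ψ hψ u 0 (h K)) ≠ 0) :
    ∀ k ≥ K, μ (rho ψ hψ u 0 (h k)) = μ (rho ψ hψ u 0 (h K)) := by
  intro k hk
  induction k, hk using Nat.le_induction with
  | base => rfl
  | succ k hk ih =>
    have hne : μ (rho ψ hψ u 0 (h k)) ≠ 0 := by rw [ih]; exact hu
    have hψu : ψ (om (l k) u) = 1 := char_eq_one (hl1 k hk) (hl2 k hk) hne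
    rw [hrec, map_sum, map_sum, ← ih]
    rw [Finset.sum_eq_single 0]
    · rw [Nat.cast_zero, zero_mul, he0, rho_zero]
    · intro i hi hi0
      rw [mem_range] at hi
      rw [rho_mul, map_smul, smul_eq_mul, add_zero]
      have h0 : μ (rho ψ hψ (u + e (i * y k)) 0 (h k)) = 0 := by
        by_contra hcon
        have h1 := char_eq_one (hl1 k hk) (hl2 k hk) hcon
        rw [om_add_right, AddChar.map_add_eq_mul, hψu, one_mul] at h1
        exact hl3 k hk i (Nat.pos_of_ne_zero hi0) hi h1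
      rw [h0, mul_zero]
    · intro h0
      exact absurd (mem_range.2 hp.out.pos) h0

theorem norm_natCast_lt {i : ℕ} (hi : 0 < i) (hip : i < p) : ‖(i : ℚ_[p])‖ = 1 := by
  have h1 : ‖(i : ℚ_[p])‖ ≤ 1 := by
    exact_mod_cast Padic.norm_int_le_one (p := p) (i : ℤ)
  rcases h1.lt_or_eq with h | h
  · exfalso
    have h2 : ‖((i : ℤ) : ℚ_[p])‖ < 1 := by exact_mod_cast h
    rw [Padic.norm_intCast_lt_one_iff] at h2
    have h3 : p ∣ i := by exact_mod_cast h2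
    exact absurd (Nat.le_of_dvd hi h3) (not_le.2 hip)
  · exact h

variable (i0 : Fin d)

/-- recursion for the second kind of test vectors -/
theorem fB_rec [CharZero 𝕜] {ψ : AddChar ℚ_[p] 𝕜} {hψ : IsOpen {x | ψ x = 1}} {κ : ℚ_[p]}
    (hκ0 : κ ≠ 0) (hκ : ∀ x, ψ x = 1 ↔ ‖x‖ ≤ ‖κ‖) (k : ℕ) :
    fB (𝕜 := 𝕜) i0 (k + 1) =
      ∑ i ∈ range p, rho ψ hψ (eB i0 (i * (κ * ((p : ℚ_[p]) ^ (k + 1))⁻¹))) 0 (fB i0 k) := by
  have hp1 : (1 : ℝ) < p := by exact_mod_cast hp.out.one_lt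
  have hp0 : (0 : ℝ) < p := by linarith
  have hκpos : 0 < ‖κ‖ := norm_pos_iff.2 hκ0
  set y : ℚ_[p] := κ * ((p : ℚ_[p]) ^ (k + 1))⁻¹ with hy
  have hyn : ‖y‖ = ‖κ‖ * (p : ℝ) ^ (k + 1) := by
    rw [hy, norm_mul, norm_inv, norm_pow_p, inv_inv]
  apply Subtype.ext
  funext x
  rw [Submodule.coe_sum, Finset.sum_apply]
  have h1 : ∀ i ∈ range p, (rho ψ hψ (eB i0 (i * y)) 0 (fB i0 k)).1 x =
      ψ (y * x i0) ^ i * (fB i0 k).1 x := by
    intro i _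
    rw [rho_eB_apply, ← AddChar.map_nsmul_eq_pow, nsmul_eq_mul]
    congr 2; ring
  rw [Finset.sum_congr rfl h1, ← Finset.sum_mul]
  have hfB : ∀ k, (fB i0 k).1 x = (p : 𝕜) ^ k *
      Set.indicator (box (Function.update (fun _ => 0) i0 (-(k : ℤ)))) (fun _ => (1 : 𝕜)) x :=
    fun k => rfl
  rw [hfB, hfB]
  have hpk1 : (0 : ℝ) < (p : ℝ) ^ (k + 1) := pow_pos hp0 _
  have hmem : ∀ k : ℕ, x ∈ box (p := p) (Function.update (fun _ => 0) i0 (-(k : ℤ))) ↔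
      ‖x i0‖ ≤ ((p : ℝ) ^ k)⁻¹ ∧ ∀ i ≠ i0, ‖x i‖ ≤ 1 := by
    intro k
    constructor
    · intro h
      refine ⟨?_, fun i hi => ?_⟩
      · have := h i0
        rwa [Function.update_self, zpow_neg, zpow_natCast] at this
      · have := h i
        rwa [Function.update_of_ne hi, zpow_zero] at this
    · rintro ⟨h1, h2⟩ i
      by_cases hi : i = i0
      · subst hi; rw [Function.update_self, zpow_neg, zpow_natCast]; exact h1
      · rw [Function.update_of_ne hi, zpow_zero]; exact h2 i hi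
  have hT1 : ψ (y * x i0) = 1 ↔ ‖x i0‖ ≤ ((p : ℝ) ^ (k + 1))⁻¹ := by
    rw [hκ, norm_mul, hyn, ← one_div, le_div_iff₀ hpk1]
    constructor
    · intro h
      have h2 : (‖x i0‖ * (p : ℝ) ^ (k + 1)) * ‖κ‖ ≤ 1 * ‖κ‖ := by linarith
      exact le_of_mul_le_mul_right h2 hκpos
    · intro h; nlinarith
  by_cases hx : x ∈ box (p := p) (Function.update (fun _ => 0) i0 (-(k : ℤ)))
  · rw [Set.indicator_of_mem hx]
    obtain ⟨hx0, hxi⟩ := (hmem k).1 hx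
    by_cases hx1 : ‖x i0‖ ≤ ((p : ℝ) ^ (k + 1))⁻¹
    · rw [Set.indicator_of_mem ((hmem (k + 1)).2 ⟨hx1, hxi⟩), hT1.2 hx1]
      simp only [one_pow, Finset.sum_const, card_range, nsmul_eq_mul, mul_one]
      rw [pow_succ]; ring
    · rw [Set.indicator_of_notMem (fun h => hx1 ((hmem (k + 1)).1 h).1), mul_zero]
      have h4 : ψ (y * x i0) ^ p = 1 := by
        rw [← AddChar.map_nsmul_eq_pow, hκ, nsmul_eq_mul, norm_mul, norm_mul, hyn, Padic.norm_p,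
          pow_succ]
        have hpk : (0 : ℝ) < (p : ℝ) ^ k := pow_pos hp0 _
        calc (p : ℝ)⁻¹ * (‖κ‖ * ((p : ℝ) ^ k * p) * ‖x i0‖)
            ≤ (p : ℝ)⁻¹ * (‖κ‖ * ((p : ℝ) ^ k * p) * ((p : ℝ) ^ k)⁻¹) := by gcongr
          _ = ‖κ‖ := by field_simp
      have h5 : ∑ c ∈ range p, ψ (y * x i0) ^ c = 0 := by
        have h6 := mul_geom_sum (ψ (y * x i0)) p
        rw [h4, sub_self] at h6
        exact (mul_eq_zero.1 h6).resolve_left (sub_ne_zero.2 fun h7 => hx1 (hT1.1 h7))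
      rw [h5, zero_mul]
  · rw [Set.indicator_of_notMem hx, Set.indicator_of_notMem]
    · simp
    · intro h
      apply hx
      obtain ⟨h1, h2⟩ := (hmem (k + 1)).1 h
      refine (hmem k).2 ⟨h1.trans ?_, h2⟩
      have hpk : (0 : ℝ) < (p : ℝ) ^ k := pow_pos hp0 _
      exact inv_anti₀ hpk (pow_le_pow_right₀ hp1.le (Nat.le_succ k))

/-- p cosets -/
theorem exists_unique_shift (z : ℚ_[p]) (hz : ‖z‖ ≤ 1) :
    ∃ i < p, ‖z + i‖ < 1 ∧ ∀ j < p, ‖z + j‖ < 1 → j = i := by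
  obtain ⟨c, hc⟩ := exists_nat_approx (z := -z) (by rwa [norm_neg]) zero_lt_one
  have hc' : ‖z + c‖ < 1 := by
    have : z + c = -(-z - c) := by ring
    rw [this, norm_neg]; exact hc
  have key : ∀ j : ℕ, ‖z + j‖ < 1 ↔ (c : ℤ) ≡ j [ZMOD p] := by
    intro j
    have h1 : ‖((j : ℤ) - (c : ℤ) : ℤ) • (1 : ℚ_[p])‖ < 1 ↔ (c : ℤ) ≡ j [ZMOD p] := by
      rw [zsmul_one, Padic.norm_intCast_lt_one_iff, Int.modEq_iff_dvd]
    rw [← h1, zsmul_one]
    push_cast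
    constructor
    · intro h
      have : (j : ℚ_[p]) - c = (z + j) - (z + c) := by ring
      rw [this]
      exact lt_of_le_of_lt (norm_sub_le_max' _ _) (max_lt h hc')
    · intro h
      have : z + j = (z + c) + ((j : ℚ_[p]) - c) := by ring
      rw [this]
      exact lt_of_le_of_lt (IsUltrametricDist.norm_add_le_max _ _) (max_lt hc' h)
  refine ⟨c % p, Nat.mod_lt _ hp.out.pos, (key _).2 ?_, fun j hj hj1 => ?_⟩
  · push_cast
    exact (Int.mod_modEq _ _).symm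
  · have h1 := (key j).1 hj1
    have h2 : c % p = j % p := by
      have := Int.natCast_modEq_iff.1 h1
      exact this
    rw [h2, Nat.mod_eq_of_lt hj]

/-- recursion for the first kind of test vectors -/
theorem fA_rec {ψ : AddChar ℚ_[p] 𝕜} {hψ : IsOpen {x | ψ x = 1}} (k : ℕ) :
    fA (𝕜 := 𝕜) i0 (k + 1) =
      ∑ i ∈ range p, rho ψ hψ (eA i0 (i * ((p : ℚ_[p]) ^ (k + 1))⁻¹)) 0 (fA i0 k) := by
  have hp1 : (1 : ℝ) < p := by exact_mod_cast hp.out.one_lt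
  have hp0 : (0 : ℝ) < p := by linarith
  have hpne : (p : ℚ_[p]) ≠ 0 := by exact_mod_cast hp.out.ne_zero
  apply Subtype.ext
  funext x
  rw [Submodule.coe_sum, Finset.sum_apply]
  have hfA : ∀ (k : ℕ) (x : Fin d → ℚ_[p]), (fA i0 k).1 x =
      Set.indicator (box (Function.update (fun _ => 0) i0 (k : ℤ))) (fun _ => (1 : 𝕜)) x :=
    fun k x => rfl
  have hmem : ∀ (k : ℕ) (x : Fin d → ℚ_[p]),
      x ∈ box (p := p) (Function.update (fun _ => 0) i0 (k : ℤ)) ↔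
      ‖x i0‖ ≤ (p : ℝ) ^ k ∧ ∀ i ≠ i0, ‖x i‖ ≤ 1 := by
    intro k x
    constructor
    · intro h
      refine ⟨?_, fun i hi => ?_⟩
      · have := h i0
        rwa [Function.update_self, zpow_natCast] at this
      · have := h i
        rwa [Function.update_of_ne hi, zpow_zero] at this
    · rintro ⟨h1, h2⟩ i
      by_cases hi : i = i0
      · subst hi; rw [Function.update_self, zpow_natCast]; exact h1
      · rw [Function.update_of_ne hi, zpow_zero]; exact h2 i hi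
  have hpk1 : (0 : ℝ) < (p : ℝ) ^ (k + 1) := pow_pos hp0 _
  have hpk : (0 : ℝ) < (p : ℝ) ^ k := pow_pos hp0 _
  -- membership of the shifted point
  have hsh : ∀ i : ℕ, x + Pi.single i0 (i * ((p : ℚ_[p]) ^ (k + 1))⁻¹) ∈
      box (p := p) (Function.update (fun _ => 0) i0 (k : ℤ)) ↔
      ‖x i0 * (p : ℚ_[p]) ^ (k + 1) + i‖ < 1 ∧ ∀ i ≠ i0, ‖x i‖ ≤ 1 := by
    intro i
    rw [hmem]
    apply and_congr
    · rw [Pi.add_apply, Pi.single_eq_same]
      have h1 : x i0 + i * ((p : ℚ_[p]) ^ (k + 1))⁻¹ =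
          (x i0 * (p : ℚ_[p]) ^ (k + 1) + i) * ((p : ℚ_[p]) ^ (k + 1))⁻¹ := by
        field_simp
      rw [h1, norm_mul, norm_inv, norm_pow_p, inv_inv]
      have h2 : ‖x i0 * (p : ℚ_[p]) ^ (k + 1) + i‖ < 1 ↔
          ‖x i0 * (p : ℚ_[p]) ^ (k + 1) + i‖ ≤ (p : ℝ) ^ (-1 : ℤ) := by
        rw [Padic.norm_le_pow_iff_norm_lt_pow_add_one]; simp
      rw [h2, zpow_neg, zpow_one]
      generalize ‖x i0 * (p : ℚ_[p]) ^ (k + 1) + i‖ = A
      rw [pow_succ]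
      constructor
      · intro h
        rw [← one_div, le_div_iff₀ hp0]
        have h3 : A * p * (p : ℝ) ^ k ≤ 1 * (p : ℝ) ^ k := by linarith
        exact le_of_mul_le_mul_right h3 hpk
      · intro h
        rw [← one_div, le_div_iff₀ hp0] at h
        calc A * ((p : ℝ) ^ k * p) = (A * p) * (p : ℝ) ^ k := by ring
          _ ≤ 1 * (p : ℝ) ^ k := by gcongr
          _ = _ := one_mul _
    · refine forall_congr' fun j => ?_
      refine imp_congr_right fun hj => ?_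
      rw [Pi.add_apply, Pi.single_eq_of_ne hj, add_zero]
  have h1 : ∀ i ∈ range p, (rho ψ hψ (eA i0 (i * ((p : ℚ_[p]) ^ (k + 1))⁻¹)) 0 (fA i0 k)).1 x =
      Set.indicator (box (Function.update (fun _ => 0) i0 (k : ℤ))) (fun _ => (1 : 𝕜))
        (x + Pi.single i0 (i * ((p : ℚ_[p]) ^ (k + 1))⁻¹)) := by
    intro i _
    rw [rho_eA_apply, hfA]
  rw [Finset.sum_congr rfl h1, hfA]
  by_cases hx : x ∈ box (p := p) (Function.update (fun _ => 0) i0 ((k + 1 : ℕ) : ℤ))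
  · rw [Set.indicator_of_mem hx]
    obtain ⟨hx0, hxi⟩ := (hmem (k + 1) x).1 hx
    have hz : ‖x i0 * (p : ℚ_[p]) ^ (k + 1)‖ ≤ 1 := by
      rw [norm_mul, norm_pow_p, mul_inv_le_iff₀ hpk1, one_mul]; exact hx0
    obtain ⟨i, hip, hi1, hiu⟩ := exists_unique_shift _ hz
    rw [Finset.sum_eq_single i]
    · rw [Set.indicator_of_mem ((hsh i).2 ⟨hi1, hxi⟩)]
    · intro j hj hji
      rw [Set.indicator_of_notMem]
      intro h
      exact hji (hiu j (mem_range.1 hj) ((hsh j).1 h).1)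
    · intro h
      exact absurd (mem_range.2 hip) h
  · rw [Set.indicator_of_notMem hx]
    symm
    apply Finset.sum_eq_zero
    intro i _
    rw [Set.indicator_of_notMem]
    intro h
    apply hx
    obtain ⟨h2, h3⟩ := (hsh i).1 h
    refine (hmem (k + 1) x).2 ⟨?_, h3⟩
    have h4 : ‖x i0 * (p : ℚ_[p]) ^ (k + 1)‖ ≤ 1 := by
      have h5 : x i0 * (p : ℚ_[p]) ^ (k + 1) = (x i0 * (p : ℚ_[p]) ^ (k + 1) + i) - i := by ring
      rw [h5]
      refine (norm_sub_le_max' _ _).trans (max_le h2.le ?_)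
      exact_mod_cast Padic.norm_int_le_one (p := p) (i : ℤ)
    rw [norm_mul, norm_pow_p, mul_inv_le_iff₀ hpk1, one_mul] at h4
    exact h4

end Pool.Agent.H91.Schr
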