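import Mathlib
import Pool.Agent.H91.SchrDom

/-!
# Main theorem: existence of an invariant norm dominating none of the norms ‖·‖_α
-/

open scoped Matrix
open Finset

namespace Pool.Agent.H91.Schr

variable {p : ℕ} [hp : Fact p.Prime] {d : ℕ} {𝕜 : Type*} [NormedField 𝕜]

theorem om_eq (u v : Fin d ⊕ Fin d → ℚ_[p]) :
    om u v = u ⬝ᵥ ((Matrix.fromBlocks 0 1 (-1) 0 :
      Matrix (Fin d ⊕ Fin d) (Fin d ⊕ Fin d) ℚ_[p]) *ᵥ v) := by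
  rw [Matrix.fromBlocks_mulVec]
  have hu : u = Sum.elim (fun i => u (Sum.inl i)) (fun i => u (Sum.inr i)) := by
    funext i; cases i <;> rfl
  conv_rhs => rw [hu]
  rw [sumElim_dotProduct_sumElim]
  simp only [Matrix.zero_mulVec, Matrix.one_mulVec, Matrix.neg_mulVec, zero_add, add_zero,
    dotProduct_neg]
  rw [om, sub_eq_add_neg]
  rfl

theorem om_vecMul {g : Matrix (Fin d ⊕ Fin d) (Fin d ⊕ Fin d) ℚ_[p]} (hg : IsSymplectic g)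
    (u v : Fin d ⊕ Fin d → ℚ_[p]) : om (u ᵥ* g) (v ᵥ* g) = om u v := by
  rw [om_eq, om_eq, ← Matrix.mulVec_transpose g v, Matrix.mulVec_mulVec,
    ← Matrix.dotProduct_mulVec, Matrix.mulVec_mulVec, ← Matrix.mul_assoc, hg]

theorem exists_vecMul {g : Matrix (Fin d ⊕ Fin d) (Fin d ⊕ Fin d) ℚ_[p]} (hg : IsSymplectic g)
    (w : Fin d ⊕ Fin d → ℚ_[p]) : ∃ v, v ᵥ* g = w := by
  set J : Matrix (Fin d ⊕ Fin d) (Fin d ⊕ Fin d) ℚ_[p] := Matrix.fromBlocks 0 1 (-1) 0 with hJ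
  have hJJ : J * (-J) = 1 := by
    rw [hJ, mul_neg, Matrix.fromBlocks_multiply]
    simp [Matrix.fromBlocks_neg]
  have h1 : g * (J * gᵀ * (-J)) = 1 := by
    have : g * (J * gᵀ * (-J)) = (g * J * gᵀ) * (-J) := by
      simp only [Matrix.mul_assoc]
    rw [this]
    have hg' : g * J * gᵀ = J := hg
    rw [hg', hJJ]
  have h2 : (J * gᵀ * (-J)) * g = 1 := mul_eq_one_comm.1 h1
  exact ⟨w ᵥ* (J * gᵀ * (-J)), by rw [Matrix.vecMul_vecMul, h2, Matrix.vecMul_one]⟩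

/-- the Lagrangian ℓ_P g is not contained in both coordinate hyperplanes of e_1, f_1 -/
theorem exists_row {g : Matrix (Fin d ⊕ Fin d) (Fin d ⊕ Fin d) ℚ_[p]} (hg : IsSymplectic g)
    (i0 : Fin d) : ∃ b : Fin d → ℚ_[p], ((Sum.elim 0 b) ᵥ* g) (Sum.inr i0) ≠ 0 ∨
      ((Sum.elim 0 b) ᵥ* g) (Sum.inl i0) ≠ 0 := by
  by_contra hcon
  push Not at hcon
  obtain ⟨v1, hv1⟩ := exists_vecMul hg (eA i0 1)
  obtain ⟨v2, hv2⟩ := exists_vecMul hg (eB i0 1)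
  have key : ∀ v : Fin d ⊕ Fin d → ℚ_[p], (∀ b : Fin d → ℚ_[p], om (Sum.elim 0 b) v = 0) →
      (fun i => v (Sum.inl i)) = 0 := by
    intro v hv
    funext i
    have h := hv (Pi.single i 1)
    have h1 : (fun j => (Sum.elim 0 (Pi.single i 1) : Fin d ⊕ Fin d → ℚ_[p]) (Sum.inl j)) = 0 := rfl
    have h2 : (fun j => (Sum.elim 0 (Pi.single i 1) : Fin d ⊕ Fin d → ℚ_[p]) (Sum.inr j)) =
      Pi.single i 1 := rfl
    rw [om, h1, h2, zero_dotProduct, single_dotProduct] at h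
    simpa using h
  have e1 : (fun i => v1 (Sum.inl i)) = 0 := by
    apply key
    intro b
    rw [← om_vecMul hg, hv1, om_right_eA, (hcon b).1]; ring
  have e2 : (fun i => v2 (Sum.inl i)) = 0 := by
    apply key
    intro b
    rw [← om_vecMul hg, hv2, om_right_eB, (hcon b).2]; ring
  have h3 : om v1 v2 = 0 := by
    rw [om, e1, e2, zero_dotProduct, dotProduct_zero, sub_zero]
  rw [← om_vecMul hg, hv1, hv2, om_eA, eB_inr0, mul_one] at h3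
  exact one_ne_zero h3

theorem norm_apply_le_supNorm (f : Schwartz p d 𝕜) (x : Fin d → ℚ_[p]) : ‖f.1 x‖ ≤ supNorm f := by
  obtain ⟨C, -, hC⟩ := exists_bound f
  exact le_ciSup (f := fun x => ‖f.1 x‖) ⟨C, by rintro _ ⟨y, rfl⟩; exact hC y⟩ x

theorem ind_ne_zero (r : Fin d → ℤ) : (ind 𝕜 r : Schwartz p d 𝕜) ≠ 0 := by
  have hp1 : (1 : ℝ) < p := by exact_mod_cast hp.out.one_lt
  intro h
  have h1 : (ind 𝕜 r : Schwartz p d 𝕜).1 0 = 0 := by rw [h]; rfl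
  have h2 : (0 : Fin d → ℚ_[p]) ∈ box (p := p) r := by
    intro i
    rw [Pi.zero_apply, norm_zero]
    positivity
  have h3 : (ind 𝕜 r : Schwartz p d 𝕜).1 0 = 1 := Set.indicator_of_mem h2 (fun _ => (1 : 𝕜))
  rw [h3] at h1
  exact one_ne_zero h1

/-- the functional f ↦ (T f)(0) -/
noncomputable def evalT (T : Schwartz p d 𝕜 ≃ₗ[𝕜] Schwartz p d 𝕜) : Schwartz p d 𝕜 →ₗ[𝕜] 𝕜 where
  toFun f := (T f).1 0
  map_add' f g := by rw [map_add]; rfl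
  map_smul' c f := by rw [map_smul]; rfl

theorem evalT_inv {ψ : AddChar ℚ_[p] 𝕜} {hψ : IsOpen {x | ψ x = 1}}
    {g : Matrix (Fin d ⊕ Fin d) (Fin d ⊕ Fin d) ℚ_[p]}
    {T : Schwartz p d 𝕜 ≃ₗ[𝕜] Schwartz p d 𝕜} (hT : Intertwines ψ hψ g T)
    (b : Fin d → ℚ_[p]) (f : Schwartz p d 𝕜) :
    evalT T (rho ψ hψ ((Sum.elim 0 b) ᵥ* g) 0 f) = evalT T f := by
  show (T (rho ψ hψ ((Sum.elim 0 b) ᵥ* g) 0 f)).1 0 = (T f).1 0
  rw [← hT, rho_apply]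
  have h1 : (fun j => (Sum.elim 0 b : Fin d ⊕ Fin d → ℚ_[p]) (Sum.inl j)) = 0 := rfl
  rw [h1, zero_dotProduct, dotProduct_zero]
  simp

theorem exists_ne {ψ : AddChar ℚ_[p] 𝕜} {hψ : IsOpen {x | ψ x = 1}} [CharZero 𝕜]
    {κ : ℚ_[p]} (hκ0 : κ ≠ 0) (hκ : ∀ x, ψ x = 1 ↔ ‖x‖ ≤ ‖κ‖)
    (T : Schwartz p d 𝕜 ≃ₗ[𝕜] Schwartz p d 𝕜) (h : Schwartz p d 𝕜) (hh : h ≠ 0) :
    ∃ u, evalT T (rho ψ hψ u 0 h) ≠ 0 := by
  by_contra hcon
  push Not at hcon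
  let Z : Submodule 𝕜 (Schwartz p d 𝕜) :=
    { carrier := {f | ∀ u, evalT T (rho ψ hψ u 0 f) = 0}
      zero_mem' := fun u => by rw [map_zero, map_zero]
      add_mem' := fun {a b} ha hb u => by rw [map_add, map_add, ha u, hb u, add_zero]
      smul_mem' := fun c a ha u => by rw [map_smul, map_smul, ha u, smul_zero] }
  have hZinv : ∀ w, ∀ f ∈ Z, rho ψ hψ w 0 f ∈ Z := by
    intro w f hf u
    rw [rho_mul, map_smul, add_zero, hf (u + w), smul_zero]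
  have hmem : ∀ f, f ∈ Z := irreducible hκ0 hκ Z hZinv h hcon hh
  have h1 := hmem (T.symm (ind 𝕜 (fun _ => 0))) 0
  rw [rho_zero] at h1
  have h2 : (T (T.symm (ind 𝕜 (fun _ => 0)))).1 0 = 0 := h1
  rw [LinearEquiv.apply_symm_apply] at h2
  have h3 : (ind 𝕜 (fun _ => 0) : Schwartz p d 𝕜).1 0 = 1 := by
    refine Set.indicator_of_mem (s := box (p := p) (fun _ : Fin d => 0)) ?_ (fun _ => (1 : 𝕜))
    intro i
    rw [Pi.zero_apply, norm_zero, zpow_zero]; exact zero_le_one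
  rw [h3] at h2
  exact one_ne_zero h2

/-- The core of non-domination. -/
theorem not_dominates_core [CharZero 𝕜] {ψ : AddChar ℚ_[p] 𝕜}
    {hψ : IsOpen {x | ψ x = 1}} {κ : ℚ_[p]} (hκ0 : κ ≠ 0) (hκ : ∀ x, ψ x = 1 ↔ ‖x‖ ≤ ‖κ‖)
    {N : Schwartz p d 𝕜 → ℝ} (hN : IsHeisInvariant ψ hψ N)
    {T : Schwartz p d 𝕜 ≃ₗ[𝕜] Schwartz p d 𝕜} {c : ℝ} (hc : 0 < c)
    (hdom : ∀ f, supNorm (T f) ≤ c * N f)
    {h : ℕ → Schwartz p d 𝕜} (hne : ∀ k, h k ≠ 0)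
    {e : ℚ_[p] → (Fin d ⊕ Fin d → ℚ_[p])}
    {y : ℕ → ℚ_[p]} {l : ℕ → (Fin d ⊕ Fin d → ℚ_[p])} {K : ℕ} (he0 : e 0 = 0)
    (hrec : ∀ k, h (k + 1) = ∑ i ∈ range p, rho ψ hψ (e (i * y k)) 0 (h k))
    (hl1 : ∀ k ≥ K, ∀ f, evalT T (rho ψ hψ (l k) 0 f) = evalT T f)
    (hl2 : ∀ k ≥ K, rho ψ hψ (l k) 0 (h k) = h k)
    (hl3 : ∀ k ≥ K, ∀ i : ℕ, 0 < i → i < p → ψ (om (l k) (e (i * y k))) ≠ 1)
    (hsmall : ∀ s : ℕ, ∃ k0 : ℕ, ∀ k ≥ k0, N (h k) ≤ ((p : ℝ) ^ s)⁻¹) : False := by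
  have hp1 : (1 : ℝ) < p := by exact_mod_cast hp.out.one_lt
  obtain ⟨u, hu⟩ := exists_ne (hψ := hψ) hκ0 hκ T (h K) (hne K)
  have hconst := const_of_rec he0 hrec hl1 hl2 hl3 hu
  set δ := ‖evalT T (rho ψ hψ u 0 (h K))‖ with hδ
  have hδpos : 0 < δ := norm_pos_iff.2 hu
  obtain ⟨s, hs⟩ := pow_unbounded_of_one_lt (c / δ) hp1
  obtain ⟨k0, hk0⟩ := hsmall s
  set k := max K k0 with hk
  have h1 : δ ≤ c * N (h k) := by
    calc δ = ‖evalT T (rho ψ hψ u 0 (h k))‖ := by rw [hδ, hconst k (le_max_left _ _)]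
      _ ≤ supNorm (T (rho ψ hψ u 0 (h k))) := norm_apply_le_supNorm _ 0
      _ ≤ c * N (rho ψ hψ u 0 (h k)) := hdom _
      _ = c * N (h k) := by rw [hN]
  have h2 := hk0 k (le_max_right _ _)
  have hps : (0 : ℝ) < (p : ℝ) ^ s := pow_pos (by linarith) s
  have h3 : δ ≤ c * ((p : ℝ) ^ s)⁻¹ := h1.trans (by gcongr)
  rw [div_lt_iff₀ hδpos] at hs
  rw [← div_eq_mul_inv, le_div_iff₀ hps] at h3
  linarith

/-- Smallness of multiples of a fixed vector. -/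
theorem exists_small {κ : ℚ_[p]} (hκ0 : κ ≠ 0) (w : Fin d ⊕ Fin d → ℚ_[p]) :
    ∃ ε : ℝ, 0 < ε ∧ ∀ z : ℚ_[p], ‖z‖ ≤ ε →
      (∀ j, ‖(z • w) j‖ ≤ 1) ∧ (∀ j, ‖(z • w) j‖ ≤ ‖κ‖) ∧
      ‖(1 / 2 : ℚ_[p]) * ((fun i => (z • w) (Sum.inl i)) ⬝ᵥ (fun i => (z • w) (Sum.inr i)))‖
        ≤ ‖κ‖ := by
  have hκpos : 0 < ‖κ‖ := norm_pos_iff.2 hκ0
  set A := ‖(1 / 2 : ℚ_[p]) * ((fun i => w (Sum.inl i)) ⬝ᵥ (fun i => w (Sum.inr i)))‖ with hA
  have hA0 : 0 ≤ A := norm_nonneg _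
  have hB0 : 0 ≤ ‖w‖ := norm_nonneg _
  refine ⟨min (min 1 (1 / (‖w‖ + 1))) (min (‖κ‖ / (‖w‖ + 1)) (‖κ‖ / (A + 1))), ?_, ?_⟩
  · positivity
  · intro z hz
    have hz1 : ‖z‖ ≤ 1 := hz.trans ((min_le_left _ _).trans (min_le_left _ _))
    have hz2 : ‖z‖ ≤ 1 / (‖w‖ + 1) := hz.trans ((min_le_left _ _).trans (min_le_right _ _))
    have hz3 : ‖z‖ ≤ ‖κ‖ / (‖w‖ + 1) := hz.trans ((min_le_right _ _).trans (min_le_left _ _))
    have hz4 : ‖z‖ ≤ ‖κ‖ / (A + 1) := hz.trans ((min_le_right _ _).trans (min_le_right _ _))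
    rw [le_div_iff₀ (by positivity)] at hz2 hz3 hz4
    have hj : ∀ j, ‖(z • w) j‖ ≤ ‖z‖ * ‖w‖ := by
      intro j
      rw [Pi.smul_apply, norm_smul]
      gcongr
      exact norm_le_pi_norm w j
    refine ⟨fun j => (hj j).trans (by nlinarith [norm_nonneg z]),
      fun j => (hj j).trans (by nlinarith [norm_nonneg z]), ?_⟩
    have h1 : (fun i => (z • w) (Sum.inl i)) = z • (fun i => w (Sum.inl i)) := rfl
    have h2 : (fun i => (z • w) (Sum.inr i)) = z • (fun i => w (Sum.inr i)) := rfl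
    rw [h1, h2, smul_dotProduct, dotProduct_smul, smul_eq_mul, smul_eq_mul]
    have h3 : (1 / 2 : ℚ_[p]) * (z * (z * ((fun i => w (Sum.inl i)) ⬝ᵥ fun i => w (Sum.inr i)))) =
        z * (z * ((1 / 2 : ℚ_[p]) * ((fun i => w (Sum.inl i)) ⬝ᵥ fun i => w (Sum.inr i)))) := by ring
    rw [h3, norm_mul, norm_mul, ← hA]
    calc ‖z‖ * (‖z‖ * A) ≤ 1 * (‖z‖ * A) := by gcongr
      _ ≤ ‖κ‖ := by nlinarith [norm_nonneg z]

/-- An invariant norm that is small on the test vectors dominates no norm ‖·‖_α. -/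
theorem not_dominates [CharZero 𝕜] {ψ : AddChar ℚ_[p] 𝕜}
    {hψ : IsOpen {x | ψ x = 1}} {κ : ℚ_[p]} (hκ0 : κ ≠ 0) (hκ : ∀ x, ψ x = 1 ↔ ‖x‖ ≤ ‖κ‖)
    {N : Schwartz p d 𝕜 → ℝ} (hN : IsHeisInvariant ψ hψ N) (i0 : Fin d)
    (hsmall : ∀ s : ℕ, ∃ k0 : ℕ, ∀ k ≥ k0, N (fA i0 k) ≤ ((p : ℝ) ^ s)⁻¹ ∧
      N (fB i0 k) ≤ ((p : ℝ) ^ s)⁻¹)
    {g : Matrix (Fin d ⊕ Fin d) (Fin d ⊕ Fin d) ℚ_[p]} (hg : IsSymplectic g)
    {T : Schwartz p d 𝕜 ≃ₗ[𝕜] Schwartz p d 𝕜} (hT : Intertwines ψ hψ g T)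
    {c : ℝ} (hc : 0 < c) (hdom : ∀ f, supNorm (T f) ≤ c * N f) : False := by
  have hp1 : (1 : ℝ) < p := by exact_mod_cast hp.out.one_lt
  have hp0 : (0 : ℝ) < p := by linarith
  have hpne : (p : ℚ_[p]) ≠ 0 := by exact_mod_cast hp.out.ne_zero
  have hpk : (p : 𝕜) ≠ 0 := by exact_mod_cast hp.out.ne_zero
  have hκpos : 0 < ‖κ‖ := norm_pos_iff.2 hκ0
  obtain ⟨b, hb⟩ := exists_row hg i0
  set w := (Sum.elim 0 b) ᵥ* g with hw
  obtain ⟨ε, hε, hsm⟩ := exists_small hκ0 w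
  have hsmulrow : ∀ z : ℚ_[p], z • w = (Sum.elim 0 (z • b)) ᵥ* g := by
    intro z
    rw [hw, ← Matrix.smul_vecMul]
    congr 1
    funext i
    cases i <;> simp
  rcases hb with hb | hb
  · -- e_1 not in the Lagrangian
    have hwpos : 0 < ‖w (Sum.inr i0)‖ := norm_pos_iff.2 hb
    obtain ⟨K, hK⟩ := pow_unbounded_of_one_lt (‖κ‖ / ‖w (Sum.inr i0)‖ / ε) hp1
    rw [div_lt_iff₀ hε] at hK
    set z : ℕ → ℚ_[p] := fun k => κ * (p : ℚ_[p]) ^ k * (w (Sum.inr i0))⁻¹ with hz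
    have hzn : ∀ k, ‖z k‖ = ‖κ‖ * ((p : ℝ) ^ k)⁻¹ * ‖w (Sum.inr i0)‖⁻¹ := by
      intro k
      rw [hz]; simp only []
      rw [norm_mul, norm_mul, norm_pow_p, norm_inv]
    have hzsmall : ∀ k ≥ K, ‖z k‖ ≤ ε := by
      intro k hk
      rw [hzn]
      have h1 : (p : ℝ) ^ K ≤ (p : ℝ) ^ k := pow_le_pow_right₀ hp1.le hk
      have hpkpos : (0 : ℝ) < (p : ℝ) ^ k := pow_pos hp0 k
      have h2 : ‖κ‖ / ‖w (Sum.inr i0)‖ ≤ (p : ℝ) ^ k * ε := hK.le.trans (by gcongr)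
      calc ‖κ‖ * ((p : ℝ) ^ k)⁻¹ * ‖w (Sum.inr i0)‖⁻¹
          = (‖κ‖ / ‖w (Sum.inr i0)‖) * ((p : ℝ) ^ k)⁻¹ := by rw [div_eq_mul_inv]; ring
        _ ≤ ((p : ℝ) ^ k * ε) * ((p : ℝ) ^ k)⁻¹ := by gcongr
        _ = ε := by field_simp
    have hzw : ∀ k, ‖(z k • w) (Sum.inr i0)‖ = ‖κ‖ * ((p : ℝ) ^ k)⁻¹ := by
      intro k
      rw [Pi.smul_apply, norm_smul, hzn]
      field_simp
    refine not_dominates_core (hψ := hψ) (K := K) (e := eA i0)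
      (y := fun k => ((p : ℚ_[p]) ^ (k + 1))⁻¹) (l := fun k => z k • w)
      hκ0 hκ hN hc hdom (h := fA i0) (fun k => ind_ne_zero _) (eA_zero i0)
      (fun k => fA_rec i0 k) ?_ ?_ ?_ (fun s => (hsmall s).imp fun k0 h k hk => (h k hk).1)
    · intro k _ f
      simp only [hsmulrow]
      exact evalT_inv hT _ f
    · intro k hk
      obtain ⟨h1, h2, h3⟩ := hsm (z k) (hzsmall k hk)
      refine rho_ind_fixed hκ ?_ ?_ h3
      · intro i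
        refine (h1 _).trans ?_
        by_cases hi : i = i0
        · subst hi; rw [Function.update_self, zpow_natCast]; exact one_le_pow₀ hp1.le
        · rw [Function.update_of_ne hi, zpow_zero]
      · intro i
        by_cases hi : i = i0
        · subst hi
          have hpkpos : (0 : ℝ) < (p : ℝ) ^ k := pow_pos hp0 k
          rw [Function.update_self, zpow_natCast, hzw]
          field_simp
          exact le_rfl
        · rw [Function.update_of_ne hi, zpow_zero, mul_one]; exact h2 _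
    · intro k _ i hi hip
      rw [om_right_eA, Ne, hκ, norm_neg, norm_mul, norm_mul, hzw, norm_natCast_lt hi hip,
        norm_inv, norm_pow_p, inv_inv, one_mul, not_le, pow_succ]
      have hpkpos : (0 : ℝ) < (p : ℝ) ^ k := pow_pos hp0 k
      have : (p : ℝ) ^ k * p * (‖κ‖ * ((p : ℝ) ^ k)⁻¹) = p * ‖κ‖ := by field_simp
      rw [this]
      nlinarith
  · -- f_1 not in the Lagrangian
    have hwpos : 0 < ‖w (Sum.inl i0)‖ := norm_pos_iff.2 hb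
    obtain ⟨K, hK⟩ := pow_unbounded_of_one_lt (1 / ‖w (Sum.inl i0)‖ / ε) hp1
    rw [div_lt_iff₀ hε] at hK
    set z : ℕ → ℚ_[p] := fun k => (p : ℚ_[p]) ^ k * (w (Sum.inl i0))⁻¹ with hz
    have hzn : ∀ k, ‖z k‖ = ((p : ℝ) ^ k)⁻¹ * ‖w (Sum.inl i0)‖⁻¹ := by
      intro k
      rw [hz]; simp only []
      rw [norm_mul, norm_pow_p, norm_inv]
    have hzsmall : ∀ k ≥ K, ‖z k‖ ≤ ε := by
      intro k hk
      rw [hzn]
      have h1 : (p : ℝ) ^ K ≤ (p : ℝ) ^ k := pow_le_pow_right₀ hp1.le hk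
      have hpkpos : (0 : ℝ) < (p : ℝ) ^ k := pow_pos hp0 k
      have h2 : 1 / ‖w (Sum.inl i0)‖ ≤ (p : ℝ) ^ k * ε := hK.le.trans (by gcongr)
      calc ((p : ℝ) ^ k)⁻¹ * ‖w (Sum.inl i0)‖⁻¹
          = (1 / ‖w (Sum.inl i0)‖) * ((p : ℝ) ^ k)⁻¹ := by rw [one_div]; ring
        _ ≤ ((p : ℝ) ^ k * ε) * ((p : ℝ) ^ k)⁻¹ := by gcongr
        _ = ε := by field_simp
    have hzw : ∀ k, ‖(z k • w) (Sum.inl i0)‖ = ((p : ℝ) ^ k)⁻¹ := by
      intro k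
      rw [Pi.smul_apply, norm_smul, hzn]
      field_simp
    refine not_dominates_core (hψ := hψ) (K := K) (e := eB i0)
      (y := fun k => κ * ((p : ℚ_[p]) ^ (k + 1))⁻¹) (l := fun k => z k • w)
      hκ0 hκ hN hc hdom (h := fB i0)
      (fun k => smul_ne_zero (pow_ne_zero _ hpk) (ind_ne_zero _)) (eB_zero i0)
      (fun k => fB_rec i0 hκ0 hκ k) ?_ ?_ ?_ (fun s => (hsmall s).imp fun k0 h k hk => (h k hk).2)
    · intro k _ f
      simp only [hsmulrow]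
      exact evalT_inv hT _ f
    · intro k hk
      obtain ⟨h1, h2, h3⟩ := hsm (z k) (hzsmall k hk)
      rw [fB, map_smul]
      congr 1
      refine rho_ind_fixed hκ ?_ ?_ h3
      · intro i
        by_cases hi : i = i0
        · subst hi; rw [Function.update_self, zpow_neg, zpow_natCast, hzw]
        · rw [Function.update_of_ne hi, zpow_zero]; exact h1 _
      · intro i
        by_cases hi : i = i0
        · subst hi
          have hpkpos : (0 : ℝ) < (p : ℝ) ^ k := pow_pos hp0 k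
          rw [Function.update_self, zpow_neg, zpow_natCast]
          calc ‖(z k • w) (Sum.inr i)‖ * ((p : ℝ) ^ k)⁻¹ ≤ ‖κ‖ * 1 := by
                gcongr
                · exact h2 _
                · exact inv_le_one_of_one_le₀ (one_le_pow₀ hp1.le)
            _ = ‖κ‖ := mul_one _
        · rw [Function.update_of_ne hi, zpow_zero, mul_one]; exact h2 _
    · intro k _ i hi hip
      rw [om_right_eB, Ne, hκ, norm_mul, norm_mul, norm_mul, hzw, norm_natCast_lt hi hip,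
        norm_inv, norm_pow_p, inv_inv, one_mul, not_le, pow_succ]
      have hpkpos : (0 : ℝ) < (p : ℝ) ^ k := pow_pos hp0 k
      have : ‖κ‖ * ((p : ℝ) ^ k * p) * ((p : ℝ) ^ k)⁻¹ = p * ‖κ‖ := by field_simp
      rw [this]
      nlinarith

/-- Main theorem over a general coefficient field. -/
theorem main [CharZero 𝕜] [IsUltrametricDist 𝕜] (hpn : ‖(p : 𝕜)‖ = (p : ℝ)⁻¹)
    (hd : 1 ≤ d) (ψ : AddChar ℚ_[p] 𝕜) (hψ : IsOpen {x | ψ x = 1}) (hne : ∃ x, ψ x ≠ 1) :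
    ∃ N : Schwartz p d 𝕜 → ℝ, IsNorm N ∧ IsHeisInvariant ψ hψ N ∧
      ∀ g, IsSymplectic g → ∀ M, IsAlphaNorm ψ hψ g M → ¬ Dominates N M := by
  obtain ⟨κ, hκ0, hκ⟩ := exists_kernel ψ hψ hne
  set i0 : Fin d := ⟨0, hd⟩ with hi0
  obtain ⟨L, hG, hL, hk⟩ := exists_seq hpn ψ hψ hκ0 hκ i0
  obtain ⟨h1, h2⟩ := seqNorm_props hpn hκ0 hκ hG hL
  refine ⟨seqNorm ψ hψ L, h1, h2, ?_⟩
  rintro g hg M ⟨T, hT, c, hc, hM, -⟩ ⟨c', hc', hdom⟩
  refine not_dominates hκ0 hκ h2 i0 (fun s => ?_) hg hT (c := c' / c) (by positivity) ?_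
  · obtain ⟨k0, hk0⟩ := hk s
    exact ⟨k0, fun k hkk => ⟨seqNorm_le (hk0 k hkk).1, seqNorm_le (hk0 k hkk).2⟩⟩
  · intro f
    have h3 := hdom f
    rw [hM] at h3
    rw [div_mul_eq_mul_div, le_div_iff₀ hc]
    linarith

end Pool.Agent.H91.Schr
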